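import Pool.Agent.X134.SC.Main
import Pool.Agent.X134.SM.Supp

/-!
# The rescaled spectrum fills the forward cone
-/

open MeasureTheory Filter
open scoped Topology
open Pool.Agent.Results.MP_7f377f_mp.WilsonLoopsWeakCoupling

namespace Pool.Agent.X134.SC

open Pool.Agent.X134.SM

set_option linter.unusedSectionVars false
set_option linter.unusedVariables false

noncomputable section

variable {D : ℕ}

/-! ### the weights in the limit -/

section W

variable {ι κ : Type*} [Fintype ι] [Fintype κ] [DecidableEq κ] {σ : ι → ℝ} {b : ι → Fin D → ℤ}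
  {δ : ι → κ}

lemma CC_nonneg (y : Fin D → ℝ) : 0 ≤ CC σ b δ y := Finset.sum_nonneg fun _ _ => sq_nonneg _

lemma WW_nonneg (y : Fin D → ℝ) : 0 ≤ WW σ b δ y :=
  div_nonneg (CC_nonneg y) (mul_nonneg zero_le_two (nrm_nonneg y))

lemma ph_cont' (z : Fin D → ℤ) : Continuous fun y : Fin D → ℝ => ph y z := ph_cont z

lemma WW_meas : Measurable (WW σ b δ) := by
  have h1 : Continuous (CC σ b δ) := by
    unfold CC
    refine continuous_finsetSum _ fun i _ => (continuous_finsetSum _ fun e _ => ?_).pow 2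
    split_ifs
    · exact continuous_const.mul (ph_cont _)
    · exact continuous_const
  unfold WW
  exact h1.measurable.div ((nrm_cont.measurable).const_mul 2)

lemma WW_le (hD : 1 ≤ D) (y : Fin D → ℝ) :
    WW σ b δ y ≤ (Fintype.card κ * c1 σ b ^ 2 * D) * l1 y := by
  have hD' : (1 : ℝ) ≤ D := by exact_mod_cast hD
  have h1 : CC σ b δ y ≤ Fintype.card κ * (c1 σ b * l1 y) ^ 2 := by
    unfold CC
    calc ∑ i : κ, (∑ e, if δ e = i then σ e * ph y (b e) else 0) ^ 2 ≤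
          ∑ _i : κ, (c1 σ b * l1 y) ^ 2 := by
          refine Finset.sum_le_sum fun i _ => ?_
          rw [← sq_abs]
          refine pow_le_pow_left₀ (abs_nonneg _) ?_ 2
          refine (Finset.abs_sum_le_sum_abs _ _).trans ?_
          unfold c1
          rw [Finset.sum_mul]
          refine Finset.sum_le_sum fun e _ => ?_
          split_ifs
          · rw [abs_mul, mul_assoc]
            exact mul_le_mul_of_nonneg_left (ph_le y (b e)) (abs_nonneg _)
          · rw [abs_zero]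
            exact mul_nonneg (mul_nonneg (abs_nonneg _) (Finset.sum_nonneg fun _ _ =>
              abs_nonneg _)) (l1_nonneg y)
      _ = _ := by rw [Finset.sum_const, Finset.card_univ, nsmul_eq_mul]
  have h2 : l1 y ≤ D * nrm y := by
    have h3 := l1_sq y
    have h4 : nrm y ^ 2 = ∑ i, y i ^ 2 := Real.sq_sqrt (Finset.sum_nonneg fun _ _ => sq_nonneg _)
    rw [← h4] at h3
    have h5 : l1 y ^ 2 ≤ (D * nrm y) ^ 2 := by
      refine h3.trans ?_
      rw [mul_pow]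
      refine mul_le_mul_of_nonneg_right ?_ (sq_nonneg _)
      nlinarith
    exact (pow_le_pow_iff_left₀ (l1_nonneg y) (mul_nonneg (by positivity) (nrm_nonneg y))
      two_ne_zero).1 h5
  unfold WW
  have hl := l1_nonneg y
  have hcoef : 0 ≤ (Fintype.card κ : ℝ) * c1 σ b ^ 2 := by positivity
  rcases (nrm_nonneg y).eq_or_lt with h0 | h0
  · rw [← h0, mul_zero, div_zero]
    positivity
  · rw [div_le_iff₀ (by positivity)]
    refine h1.trans ?_
    have e1 : (Fintype.card κ : ℝ) * (c1 σ b * l1 y) ^ 2 =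
        Fintype.card κ * c1 σ b ^ 2 * l1 y * l1 y := by ring
    rw [e1]
    have e2 : Fintype.card κ * c1 σ b ^ 2 * l1 y * l1 y ≤
        Fintype.card κ * c1 σ b ^ 2 * l1 y * (D * nrm y) :=
      mul_le_mul_of_nonneg_left h2 (mul_nonneg hcoef hl)
    have e3 : 0 ≤ Fintype.card κ * c1 σ b ^ 2 * l1 y * (D * nrm y) := by positivity
    nlinarith

end W

lemma plq_lin {i j : Fin D} (hij : i ≠ j) (y : Fin D → ℝ) :
    (∑ e, if dirL (plq i j) e = i.castSucc then sgL (plq i j) e * ph y (posL (plq i j) e) else 0) =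
      -y j := by
  have hne : j.castSucc ≠ i.castSucc := fun h => hij (Fin.castSucc_injective _ h).symm
  have h0 : (∑ e, if dirL (plq i j) e = i.castSucc then sgL (plq i j) e *
      ph y (posL (plq i j) e) else 0) = ∑ e : Fin 4, if dirL (plq i j) e = i.castSucc then
        sgL (plq i j) e * ph y (posL (plq i j) e) else 0 := rfl
  rw [h0, Fin.sum_univ_four]
  have d0 : dirL (plq i j) (0 : Fin 4) = i.castSucc := rfl
  have d1 : dirL (plq i j) (1 : Fin 4) = j.castSucc := rfl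
  have d2 : dirL (plq i j) (2 : Fin 4) = i.castSucc := rfl
  have d3 : dirL (plq i j) (3 : Fin 4) = j.castSucc := rfl
  rw [if_pos d0, if_neg (by rw [d1]; exact hne), if_pos d2, if_neg (by rw [d3]; exact hne)]
  have s0 : sgL (plq i j) (0 : Fin 4) = 1 := rfl
  have s2 : sgL (plq i j) (2 : Fin 4) = -1 := rfl
  have p0 : posL (plq i j) (0 : Fin 4) = 0 := rfl
  have p2 : posL (plq i j) (2 : Fin 4) = Pi.single j 1 := by
    show spc ((0 : Fin (D + 1) → ℤ) + Pi.single i.castSucc 1 + Pi.single j.castSucc 1 -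
      Pi.single i.castSucc 1) = _
    funext l
    unfold spc
    simp only [Pi.add_apply, Pi.sub_apply, Pi.zero_apply]
    by_cases h : l = j
    · subst h
      simp
    · rw [Pi.single_eq_of_ne (fun h' => h (Fin.castSucc_injective _ h')), Pi.single_eq_of_ne h]
      ring
  rw [s0, s2, p0, p2]
  have e0 : ph y 0 = 0 := by
    unfold ph
    simp
  have e1 : ph y (Pi.single j 1) = y j := by
    unfold ph
    rw [Finset.sum_eq_single j]
    · simp
    · intro l _ hl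
      rw [Pi.single_eq_of_ne hl]
      simp
    · intro h
      exact absurd (Finset.mem_univ j) h
  rw [e0, e1]
  ring

lemma plq_pos {i j : Fin D} (hij : i ≠ j) {y : Fin D → ℝ} (hy : y j ≠ 0) :
    0 < WW (sgL (plq i j)) (posL (plq i j)) (dirL (plq i j)) y := by
  have h1 : 0 < nrm y := lt_of_lt_of_le (abs_pos.2 hy) (abs_le_nrm y j)
  unfold WW
  refine div_pos ?_ (by positivity)
  unfold CC
  refine Finset.sum_pos' (fun i _ => sq_nonneg _) ⟨i.castSucc, Finset.mem_univ _, ?_⟩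
  rw [plq_lin hij]
  have := neg_ne_zero.2 hy
  positivity

variable {N n : ℕ} {G : Subgroup (UU N)} [MeasurableSpace G] [BorelSpace G]
  (μ : Measure G) [IsProbabilityMeasure μ] [μ.IsHaarMeasure]

/-- the rescaled energy and momentum -/
def phy (q : ℝ) (s : ℝ × (Fin D → ℂ)) : ℝ × (Fin D → ℝ) := (-(q * Real.log s.1), fun i => q * ag s i)

/-- the spectral measure near a point of the cone -/
theorem cone_scal (hD : 2 ≤ D) (hn : 0 < n) {K : ℕ}
    (h : ∀ γ : Loop (D + 1), Flat γ → ∀ f : ℝ × (Fin D → ℝ) → ℝ, Continuous f →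
      HasCompactSupport f → ∀ ε : ℝ, 0 < ε → ∃ q₀ : ℕ, 1 ≤ q₀ ∧ ∀ q : ℕ, q₀ ≤ q → ∀ β : ℝ,
        (q : ℝ) ^ K ≤ β → ∀ ν : Measure (LinkZ (D + 1) → G), IsInfVol μ β ν →
          ∀ ρ, IsSp ν (wilson γ) ρ → |β ^ 2 * (q : ℝ) ^ (2 * D + 2) * ∫ p, scl q f p ∂ρ -
            Lm n (WW (sgL γ) (posL γ) (dirL γ)) f| ≤ ε)
    {i j : Fin D} (hij : i ≠ j) {E : ℝ} {P : Fin D → ℝ} (hP : nrm P ≤ E)
    {O : Set (ℝ × (Fin D → ℝ))} (hO : IsOpen O) (hx : (E, P) ∈ O) :
    ∃ (c : ℝ) (q₀ : ℕ), 0 < c ∧ 1 ≤ q₀ ∧ ∀ q : ℕ, q₀ ≤ q → ∀ β : ℝ, (q : ℝ) ^ K ≤ β →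
      ∀ ν : Measure (LinkZ (D + 1) → G), IsInfVol μ β ν → ∀ ρ, IsSp ν (wilson (plq i j)) ρ →
        c ≤ β ^ 2 * (q : ℝ) ^ (2 * D + 2) * ρ.real {s | 0 < s.1 ∧ phy q s ∈ O} := by
  obtain ⟨r, hr, hrO⟩ := Metric.isOpen_iff.1 hO (E, P) hx
  obtain ⟨f, hf⟩ : ∃ f : ℝ × (Fin D → ℝ) → ℝ, f = fun x => max 0 (1 - dist x (E, P) / r) :=
    ⟨_, rfl⟩
  have hfc : Continuous f := by rw [hf]; fun_prop
  have hf0 : ∀ x, 0 ≤ f x := fun x => by rw [hf]; exact le_max_left _ _
  have hf1 : ∀ x, f x ≤ 1 := fun x => by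
    rw [hf]
    refine max_le zero_le_one ?_
    have : 0 ≤ dist x (E, P) / r := by positivity
    linarith
  have hfO : ∀ x, x ∉ O → f x = 0 := fun x hx => by
    rw [hf]
    have h1 : r ≤ dist x (E, P) := by
      by_contra hcon
      exact hx (hrO (Metric.mem_ball.2 (not_le.1 hcon)))
    refine max_eq_left ?_
    have : 1 ≤ dist x (E, P) / r := (one_le_div hr).2 h1
    linarith
  have hfs : HasCompactSupport f := by
    refine HasCompactSupport.of_support_subset_isCompact (isCompact_closedBall (E, P) r)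
      fun x hx => ?_
    by_contra hcon
    refine hx ?_
    rw [hf]
    rw [Metric.mem_closedBall, not_le] at hcon
    refine max_eq_left ?_
    have : 1 ≤ dist x (E, P) / r := (one_le_div hr).2 hcon.le
    linarith
  have hfp : 0 < f (E, P) := by
    rw [hf]
    simp
  have hL := Lm_pos (n := n) (by omega) hn (WW_meas (σ := sgL (plq i j)) (b := posL (plq i j))
    (δ := dirL (plq i j))) WW_nonneg (by positivity) (WW_le (by omega)) (fun y hy => plq_pos hij hy)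
    hfc hfs hf0 hP hfp
  obtain ⟨q₀, hq₀, h1⟩ := h (plq i j) (plq_flat i j) f hfc hfs _ (half_pos hL)
  refine ⟨_, q₀, half_pos hL, hq₀, fun q hq β hβ ν hν ρ hρ => ?_⟩
  have hfin := hρ.fin
  have h2 := h1 q hq β hβ ν hν ρ hρ
  have hm : MeasurableSet {s : ℝ × (Fin D → ℂ) | 0 < s.1 ∧ phy q s ∈ O} := by
    refine (measurableSet_lt measurable_const measurable_fst).inter ?_
    have hmp : Measurable (phy (D := D) q) :=
      ((Real.measurable_log.comp measurable_fst).const_mul (q : ℝ)).neg.prodMk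
        (measurable_pi_lambda _ fun i => (ag_meas i).const_mul (q : ℝ))
    exact hmp hO.measurableSet
  have h3 : ∫ p, scl q f p ∂ρ ≤ ρ.real {s : ℝ × (Fin D → ℂ) | 0 < s.1 ∧ phy q s ∈ O} := by
    have h4 : ∀ p, scl q f p ≤ {s : ℝ × (Fin D → ℂ) | 0 < s.1 ∧ phy q s ∈ O}.indicator
        (fun _ => (1 : ℝ)) p := by
      intro p
      by_cases hp : p ∈ {s : ℝ × (Fin D → ℂ) | 0 < s.1 ∧ phy q s ∈ O}
      · rw [Set.indicator_of_mem hp]
        unfold scl
        split_ifs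
        · exact hf1 _
        · exact zero_le_one
      · rw [Set.indicator_of_notMem hp]
        unfold scl
        split_ifs with h0
        · refine (hfO _ fun hcon => hp ⟨h0, hcon⟩).le
        · exact le_rfl
    have h5 : ∫ p, scl q f p ∂ρ ≤ ∫ p, {s : ℝ × (Fin D → ℂ) | 0 < s.1 ∧ phy q s ∈ O}.indicator
        (fun _ => (1 : ℝ)) p ∂ρ := by
      refine integral_mono ?_ ?_ h4
      · refine scl_int hfc (H := 1) (fun x => ?_) _ ρ
        rw [abs_of_nonneg (hf0 x)]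
        exact hf1 x
      · exact (integrable_const (1 : ℝ)).indicator hm
    rw [integral_indicator hm, setIntegral_const, smul_eq_mul, mul_one] at h5
    exact h5
  have hq' : (0 : ℝ) ≤ q := Nat.cast_nonneg q
  have h4 := mul_le_mul_of_nonneg_left h3 (by positivity : 0 ≤ β ^ 2 * (q : ℝ) ^ (2 * D + 2))
  rw [abs_le] at h2
  linarith [h2.1]

/-- **The rescaled spectrum fills the forward cone.** -/
theorem cone_unif (hD : 2 ≤ D) (hn : 0 < n) {K : ℕ}
    (h : ∀ γ : Loop (D + 1), Flat γ → ∀ f : ℝ × (Fin D → ℝ) → ℝ, Continuous f →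
      HasCompactSupport f → ∀ ε : ℝ, 0 < ε → ∃ q₀ : ℕ, 1 ≤ q₀ ∧ ∀ q : ℕ, q₀ ≤ q → ∀ β : ℝ,
        (q : ℝ) ^ K ≤ β → ∀ ν : Measure (LinkZ (D + 1) → G), IsInfVol μ β ν →
          ∀ ρ, IsSp ν (wilson γ) ρ → |β ^ 2 * (q : ℝ) ^ (2 * D + 2) * ∫ p, scl q f p ∂ρ -
            Lm n (WW (sgL γ) (posL γ) (dirL γ)) f| ≤ ε)
    {i j : Fin D} (hij : i ≠ j) (Λ : ℝ) {ε : ℝ} (hε : 0 < ε) :
    ∃ q₀ : ℕ, 1 ≤ q₀ ∧ ∀ q : ℕ, q₀ ≤ q → ∀ β : ℝ, (q : ℝ) ^ K ≤ β →
      ∀ ν : Measure (LinkZ (D + 1) → G), IsInfVol μ β ν → ∀ ρ, IsSp ν (wilson (plq i j)) ρ →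
        ∀ (E : ℝ) (P : Fin D → ℝ), nrm P ≤ E → E ≤ Λ →
          ∃ s : ℝ × (Fin D → ℂ), 0 < s.1 ∧ dist (phy q s) (E, P) < ε ∧ Sup ρ s := by
  have htb : TotallyBounded {x : ℝ × (Fin D → ℝ) | nrm x.2 ≤ x.1 ∧ x.1 ≤ Λ} := by
    refine (isCompact_closedBall (0 : ℝ × (Fin D → ℝ)) |Λ|).totallyBounded.subset ?_
    rintro ⟨E, P⟩ ⟨h1, h2⟩
    have h3 := nrm_nonneg P
    have h1' : nrm P ≤ E := h1
    have h2' : E ≤ Λ := h2
    have h4 := le_abs_self Λ
    rw [mem_closedBall_zero_iff, Prod.norm_def, max_le_iff]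
    constructor
    · show |E| ≤ |Λ|
      rw [abs_of_nonneg (h3.trans h1')]
      linarith
    · rw [pi_norm_le_iff_of_nonneg (abs_nonneg _)]
      intro i
      rw [Real.norm_eq_abs]
      exact (abs_le_nrm P i).trans (by linarith)
  obtain ⟨t, hts, htf, hcov⟩ := htb.exists_subset (Metric.dist_mem_uniformity (half_pos hε))
  have key : ∀ y : ℝ × (Fin D → ℝ), ∃ b : ℕ, y ∈ t → ∀ q : ℕ, b ≤ q → ∀ β : ℝ, (q : ℝ) ^ K ≤ β →
      ∀ ν : Measure (LinkZ (D + 1) → G), IsInfVol μ β ν → ∀ ρ, IsSp ν (wilson (plq i j)) ρ →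
        ∃ s : ℝ × (Fin D → ℂ), 0 < s.1 ∧ dist (phy q s) y < ε / 2 ∧ Sup ρ s := by
    intro y
    by_cases hy : y ∈ t
    · obtain ⟨E, P⟩ := y
      have hP : nrm P ≤ E := (hts hy).1
      obtain ⟨c, b, hc, hb, h1⟩ := cone_scal μ hD hn h hij hP
        (O := Metric.ball (E, P) (ε / 2)) Metric.isOpen_ball (Metric.mem_ball_self (half_pos hε))
      refine ⟨b, fun _ q hq β hβ ν hν ρ hρ => ?_⟩
      have h2 := h1 q hq β hβ ν hν ρ hρ
      have h3 : ρ {s : ℝ × (Fin D → ℂ) | 0 < s.1 ∧ phy q s ∈ Metric.ball (E, P) (ε / 2)} ≠ 0 := by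
        intro h0
        rw [Measure.real, h0, ENNReal.toReal_zero, mul_zero] at h2
        linarith
      obtain ⟨s, hs, hs'⟩ := exists_mem_forall_mem_nhdsWithin_pos_measure h3
      exact ⟨s, hs.1, Metric.mem_ball.1 hs.2, fun O hO hsO => hs' O (mem_nhdsWithin_of_mem_nhds
        (hO.mem_nhds hsO))⟩
    · exact ⟨0, fun h => absurd h hy⟩
  choose b hb using key
  refine ⟨∑ y ∈ htf.toFinset, b y + 1, by omega, fun q hq β hβ ν hν ρ hρ E P hP hE => ?_⟩
  have hmem := hcov (show (E, P) ∈ {x : ℝ × (Fin D → ℝ) | nrm x.2 ≤ x.1 ∧ x.1 ≤ Λ} from ⟨hP, hE⟩)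
  simp only [Set.mem_iUnion, Set.mem_ofPred_eq] at hmem
  obtain ⟨y, hy, hdist⟩ := hmem
  have h1 : b y ≤ ∑ y ∈ htf.toFinset, b y :=
    Finset.single_le_sum (fun _ _ => Nat.zero_le _) (htf.mem_toFinset.2 hy)
  obtain ⟨s, hs, hs', hs''⟩ := hb y hy q (by omega) β hβ ν hν ρ hρ
  refine ⟨s, hs, ?_, hs''⟩
  have h3 := dist_triangle (phy q s) y (E, P)
  rw [dist_comm y] at h3
  linarith

end

end Pool.Agent.X134.SC
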