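import Pool.Agent.X134.SC.Quant

/-!
# The enlarged loops
-/

open MeasureTheory Filter
open scoped Topology
open Pool.Agent.Results.MP_7f377f_mp.WilsonLoopsWeakCoupling

namespace Pool.Agent.X134.SC

open Pool.Agent.X134.SM

set_option linter.unusedSectionVars false
set_option linter.unusedVariables false

noncomputable section

/-! ### paths -/

section paths

variable {d : ℕ}

lemma dest_append (p p' : List (Fin d × Bool)) (x : Fin d → ℤ) :
    dest x (p ++ p') = dest (dest x p) p' := by
  induction p generalizing x with
  | nil => rfl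
  | cons s p ih =>
    obtain ⟨i, s⟩ := s
    cases s with
    | true => simp only [List.cons_append, dest, ih]
    | false => simp only [List.cons_append, dest, ih]

lemma links_append (p p' : List (Fin d × Bool)) (x : Fin d → ℤ) :
    links x (p ++ p') = links x p ++ links (dest x p) p' := by
  induction p generalizing x with
  | nil => rfl
  | cons s p ih =>
    obtain ⟨i, s⟩ := s
    cases s with
    | true => simp only [List.cons_append, links, dest, ih]
    | false => simp only [List.cons_append, links, dest, ih]

lemma dest_rep_true (q : ℕ) (i : Fin d) (x : Fin d → ℤ) :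
    dest x (List.replicate q (i, true)) = x + (q : ℤ) • Pi.single i 1 := by
  induction q generalizing x with
  | zero => simp [dest]
  | succ q ih =>
    rw [List.replicate_succ, dest, ih]
    push_cast
    rw [add_smul, one_smul]
    abel

lemma dest_rep_false (q : ℕ) (i : Fin d) (x : Fin d → ℤ) :
    dest x (List.replicate q (i, false)) = x - (q : ℤ) • Pi.single i 1 := by
  induction q generalizing x with
  | zero => simp [dest]
  | succ q ih =>
    rw [List.replicate_succ, dest, ih]
    push_cast
    rw [add_smul, one_smul]
    abel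

/-- the path with every step repeated `q` times -/
def blowP (q : ℕ) (p : List (Fin d × Bool)) : List (Fin d × Bool) :=
  p.flatMap fun s => List.replicate q s

lemma blowP_cons (q : ℕ) (s : Fin d × Bool) (p : List (Fin d × Bool)) :
    blowP q (s :: p) = List.replicate q s ++ blowP q p := rfl

lemma dest_blow (q : ℕ) (p : List (Fin d × Bool)) (x : Fin d → ℤ) :
    dest ((q : ℤ) • x) (blowP q p) = (q : ℤ) • dest x p := by
  induction p generalizing x with
  | nil => rfl
  | cons s p ih =>
    obtain ⟨i, s⟩ := s
    rw [blowP_cons, dest_append]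
    cases s with
    | true => rw [dest_rep_true, ← smul_add, ih, dest]
    | false => rw [dest_rep_false, ← smul_sub, ih, dest]

/-- the enlarged loop -/
def blow (q : ℕ) (γ : Loop d) : Loop d :=
  ⟨(q : ℤ) • γ.base, blowP q γ.steps, by rw [dest_blow, γ.closed]⟩

lemma blow_len (q : ℕ) (γ : Loop d) : (blow q γ).length = γ.length * q := by
  unfold Loop.length blow blowP
  simp only [List.length_flatMap, List.length_replicate, List.map_const', List.sum_replicate,
    smul_eq_mul]

end paths

variable {D : ℕ}

lemma blow_flat {γ : Loop (D + 1)} (hγ : Flat γ) (q : ℕ) : Flat (blow q γ) := by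
  refine ⟨?_, fun s hs => ?_⟩
  · show ((q : ℤ) • γ.base) (Fin.last D) = 0
    rw [Pi.smul_apply, hγ.base, smul_zero]
  · have h1 : s ∈ blowP q γ.steps := hs
    unfold blowP at h1
    rw [List.mem_flatMap] at h1
    obtain ⟨s', h2, h3⟩ := h1
    rw [List.eq_of_mem_replicate h3]
    exact hγ.steps s' h2

/-! ### currents -/

/-- the current of a path -/
def curP (p : List (Fin (D + 1) × Bool)) (x : Fin (D + 1) → ℤ) (k : Fin D → ℝ) (i : Fin (D + 1)) : ℂ :=
  ((links x p).map fun e => if e.1.2 = i then (if e.2 then (1 : ℂ) else -1) *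
    Complex.exp (Complex.I * (ph k (spc e.1.1) : ℝ)) else 0).sum

lemma sum_getC {α : Type*} (l : List α) (f : α → ℂ) :
    (l.map f).sum = ∑ i : Fin l.length, f (l.get i) := by
  rw [← List.sum_ofFn]
  congr 1
  conv_lhs => rw [← List.ofFn_get l]
  rw [List.map_ofFn]
  rfl

lemma cur_curP (γ : Loop (D + 1)) (k : Fin D → ℝ) (i : Fin (D + 1)) :
    cur (sgL γ) (posL γ) (dirL γ) k i = curP γ.steps γ.base k i := by
  unfold curP
  rw [sum_getC]
  unfold cur
  refine Finset.sum_congr rfl fun e _ => ?_
  have hs : ((sgL γ e : ℝ) : ℂ) = if ((lkL γ).get e).2 then (1 : ℂ) else -1 := by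
    unfold sgL
    split_ifs <;> simp
  rw [hs]
  rfl

lemma curP_append (p p' : List (Fin (D + 1) × Bool)) (x : Fin (D + 1) → ℤ) (k : Fin D → ℝ)
    (i : Fin (D + 1)) : curP (p ++ p') x k i = curP p x k i + curP p' (dest x p) k i := by
  unfold curP
  rw [links_append, List.map_append, List.sum_append]

/-- the sum of the phases -/
def Eq' (q : ℕ) (θ : ℝ) : ℂ := ∑ m ∈ Finset.range q, Complex.exp (Complex.I * ((m * θ : ℝ) : ℂ))

/-- the momentum in the direction `i` -/
def kx (k : Fin D → ℝ) (i : Fin (D + 1)) : ℝ := Fin.lastCases (motive := fun _ => ℝ) 0 k i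

lemma ph_single (k : Fin D → ℝ) (i : Fin (D + 1)) : ph k (spc (Pi.single i 1)) = kx k i := by
  unfold ph spc kx
  refine Fin.lastCases ?_ (fun j => ?_) i
  · rw [Fin.lastCases_last]
    refine Finset.sum_eq_zero fun l _ => ?_
    rw [Pi.single_eq_of_ne (Fin.castSucc_lt_last l).ne]
    simp
  · rw [Fin.lastCases_castSucc, Finset.sum_eq_single j]
    · rw [Pi.single_eq_same]
      simp
    · intro l _ hl
      rw [Pi.single_eq_of_ne (fun h => hl (Fin.castSucc_injective _ h))]
      simp
    · intro h
      exact absurd (Finset.mem_univ j) h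

lemma spc_add (x y : Fin (D + 1) → ℤ) : spc (x + y) = spc x + spc y := rfl

lemma spc_sub (x y : Fin (D + 1) → ℤ) : spc (x - y) = spc x - spc y := rfl

lemma curP_rep_true (q : ℕ) (j : Fin (D + 1)) (x : Fin (D + 1) → ℤ) (k : Fin D → ℝ)
    (i : Fin (D + 1)) : curP (List.replicate q (j, true)) x k i =
      if j = i then Complex.exp (Complex.I * (ph k (spc x) : ℝ)) * Eq' q (kx k i) else 0 := by
  induction q generalizing x with
  | zero => simp [curP, links, Eq']
  | succ q ih =>
    have h1 : curP (List.replicate (q + 1) (j, true)) x k i =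
        (if j = i then 1 * Complex.exp (Complex.I * (ph k (spc x) : ℝ)) else 0) +
          curP (List.replicate q (j, true)) (x + Pi.single j 1) k i := by
      unfold curP
      rw [List.replicate_succ, links, List.map_cons, List.sum_cons]
      rfl
    rw [h1, ih]
    by_cases h : j = i
    · subst h
      rw [if_pos rfl, if_pos rfl, if_pos rfl, one_mul, spc_add, ph_add, ph_single]
      unfold Eq'
      rw [Finset.sum_range_succ' _ q, mul_add, add_comm]
      congr 1
      · rw [Finset.mul_sum, Finset.mul_sum]
        refine Finset.sum_congr rfl fun m _ => ?_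
        rw [← Complex.exp_add, ← Complex.exp_add]
        congr 1
        push_cast
        ring
      · simp
    · rw [if_neg h, if_neg h, if_neg h, add_zero]

lemma curP_rep_false (q : ℕ) (j : Fin (D + 1)) (x : Fin (D + 1) → ℤ) (k : Fin D → ℝ)
    (i : Fin (D + 1)) : curP (List.replicate q (j, false)) x k i =
      if j = i then -(Complex.exp (Complex.I * (ph k (spc (x - (q : ℤ) • Pi.single j 1)) : ℝ)) *
        Eq' q (kx k i)) else 0 := by
  induction q generalizing x with
  | zero => simp [curP, links, Eq']
  | succ q ih =>
    have h1 : curP (List.replicate (q + 1) (j, false)) x k i =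
        (if j = i then (-1) * Complex.exp (Complex.I * (ph k (spc (x - Pi.single j 1)) : ℝ)) else 0) +
          curP (List.replicate q (j, false)) (x - Pi.single j 1) k i := by
      unfold curP
      rw [List.replicate_succ, links, List.map_cons, List.sum_cons]
      rfl
    rw [h1, ih]
    by_cases h : j = i
    · subst h
      rw [if_pos rfl, if_pos rfl, if_pos rfl]
      have e1 : x - Pi.single j 1 - (q : ℤ) • Pi.single j 1 =
          x - ((q + 1 : ℕ) : ℤ) • (Pi.single j 1 : Fin (D + 1) → ℤ) := by
        push_cast
        rw [add_smul, one_smul]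
        abel
      obtain ⟨w, hw⟩ : ∃ w : Fin (D + 1) → ℤ, w = x - ((q + 1 : ℕ) : ℤ) • Pi.single j 1 := ⟨_, rfl⟩
      have e2 : x - Pi.single j 1 = w + (q : ℤ) • Pi.single j 1 := by
        rw [hw]
        push_cast
        rw [add_smul, one_smul]
        abel
      have e3 : ph k (spc ((q : ℤ) • (Pi.single j 1 : Fin (D + 1) → ℤ))) = q * kx k j := by
        rw [← ph_single]
        unfold ph spc
        rw [Finset.mul_sum]
        refine Finset.sum_congr rfl fun l _ => ?_
        rw [Pi.smul_apply, smul_eq_mul]
        push_cast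
        ring
      rw [e1, e2, ← hw, spc_add, ph_add, e3]
      unfold Eq'
      rw [Finset.sum_range_succ _ q, mul_add]
      have e4 : Complex.exp (Complex.I * ((ph k (spc w) + q * kx k j : ℝ) : ℂ)) =
          Complex.exp (Complex.I * (ph k (spc w) : ℝ)) *
            Complex.exp (Complex.I * ((q * kx k j : ℝ) : ℂ)) := by
        rw [← Complex.exp_add]
        congr 1
        push_cast
        ring
      rw [e4]
      ring
    · rw [if_neg h, if_neg h, if_neg h, add_zero]

lemma ph_smul (q : ℕ) (k : Fin D → ℝ) (x : Fin (D + 1) → ℤ) :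
    ph k (spc ((q : ℤ) • x)) = ph (fun i => (q : ℝ) * k i) (spc x) := by
  unfold ph spc
  refine Finset.sum_congr rfl fun l _ => ?_
  rw [Pi.smul_apply, smul_eq_mul]
  push_cast
  ring

lemma curP_blow (q : ℕ) (p : List (Fin (D + 1) × Bool)) (x : Fin (D + 1) → ℤ) (k : Fin D → ℝ)
    (i : Fin (D + 1)) : curP (blowP q p) ((q : ℤ) • x) k i =
      curP p x (fun i => (q : ℝ) * k i) i * Eq' q (kx k i) := by
  induction p generalizing x with
  | nil => simp [curP, links, blowP]
  | cons s p ih =>
    obtain ⟨j, s⟩ := s
    rw [blowP_cons, curP_append]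
    cases s with
    | true =>
      have h1 : curP ((j, true) :: p) x (fun i => (q : ℝ) * k i) i =
          (if j = i then 1 * Complex.exp (Complex.I * (ph (fun i => (q : ℝ) * k i) (spc x) : ℝ))
            else 0) + curP p (x + Pi.single j 1) (fun i => (q : ℝ) * k i) i := by
        unfold curP
        rw [links, List.map_cons, List.sum_cons]
        rfl
      rw [dest_rep_true, ← smul_add, ih, h1, curP_rep_true, add_mul, ph_smul]
      congr 1
      split_ifs <;> ring
    | false =>
      have h1 : curP ((j, false) :: p) x (fun i => (q : ℝ) * k i) i =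
          (if j = i then (-1) * Complex.exp (Complex.I * (ph (fun i => (q : ℝ) * k i)
            (spc (x - Pi.single j 1)) : ℝ)) else 0) +
              curP p (x - Pi.single j 1) (fun i => (q : ℝ) * k i) i := by
        unfold curP
        rw [links, List.map_cons, List.sum_cons]
        rfl
      rw [dest_rep_false, ← smul_sub, ih, h1, curP_rep_false, add_mul, ← smul_sub, ph_smul]
      congr 1
      split_ifs <;> ring

/-- the current of the enlarged loop -/
lemma cur_blow (q : ℕ) (γ : Loop (D + 1)) (k : Fin D → ℝ) (i : Fin (D + 1)) :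
    cur (sgL (blow q γ)) (posL (blow q γ)) (dirL (blow q γ)) k i =
      cur (sgL γ) (posL γ) (dirL γ) (fun i => (q : ℝ) * k i) i * Eq' q (kx k i) := by
  rw [cur_curP, cur_curP]
  exact curP_blow q γ.steps γ.base k i

end

end Pool.Agent.X134.SC
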