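import Pool.Agent.X134.SM.TwoG

/-!
# Bounds and scaling limits of the energy and of the weight
-/

set_option autoImplicit false
open Finset MeasureTheory Filter Topology
open scoped ENNReal NNReal

namespace Pool.Agent.X134.SC

open Pool.Agent.X134.SM

variable {D : ℕ}

/-- the `ℓ¹` norm -/
noncomputable def l1 (k : Fin D → ℝ) : ℝ := ∑ j, |k j|

lemma l1_nonneg (k : Fin D → ℝ) : 0 ≤ l1 k := sum_nonneg fun _ _ => abs_nonneg _

lemma l1_sq (k : Fin D → ℝ) : l1 k ^ 2 ≤ D * ∑ j, k j ^ 2 := by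
  unfold l1
  have h := sq_sum_le_card_mul_sum_sq (s := (univ : Finset (Fin D))) (f := fun j => |k j|)
  rw [card_univ, Fintype.card_fin] at h
  simpa only [sq_abs] using h

/-! ### the energy -/

lemma cs_lb {k : Fin D → ℝ} (hk : ∀ i, |k i| ≤ Real.pi) :
    2 / Real.pi ^ 2 * ∑ j, k j ^ 2 ≤ cs 1 k - 1 := by
  rw [cs_one, add_sub_cancel_left, mul_sum]
  refine sum_le_sum fun j _ => ?_
  have := Real.cos_le_one_sub_mul_cos_sq (hk j)
  linarith

lemma cs_ub (k : Fin D → ℝ) : cs 1 k ≤ 1 + 2 * D := by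
  rw [cs_one]
  have h : ∑ j, (1 - Real.cos (k j)) ≤ ∑ _j : Fin D, (2 : ℝ) :=
    sum_le_sum fun j _ => by linarith [Real.neg_one_le_cos (k j)]
  rw [sum_const, card_univ, Fintype.card_fin, nsmul_eq_mul] at h
  linarith

lemma sinh_le {t : ℝ} (ht : 0 ≤ t) : Real.sinh t ≤ t * Real.cosh t := by
  have hmono : MonotoneOn (fun t : ℝ => t * Real.cosh t - Real.sinh t) (Set.Ici 0) := by
    refine monotoneOn_of_deriv_nonneg (convex_Ici 0) (by fun_prop) (by fun_prop) fun x hx => ?_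
    rw [interior_Ici] at hx
    have h1 : HasDerivAt (fun t : ℝ => t * Real.cosh t - Real.sinh t)
        (1 * Real.cosh x + x * Real.sinh x - Real.cosh x) x :=
      ((hasDerivAt_id x).mul (Real.hasDerivAt_cosh x)).sub (Real.hasDerivAt_sinh x)
    rw [h1.deriv]
    have h2 : 0 ≤ Real.sinh x := Real.sinh_nonneg_iff.2 (le_of_lt hx)
    have h3 : (0 : ℝ) < x := hx
    nlinarith
  have h := hmono (Set.self_mem_Ici) (Set.mem_Ici.2 ht) ht
  simp only [Real.sinh_zero, zero_mul, sub_zero] at h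
  linarith

lemma cosh_sub_one_le {t : ℝ} (ht : 0 ≤ t) : Real.cosh t - 1 ≤ t ^ 2 * Real.cosh t := by
  have h1 : Real.cosh t = 1 + 2 * Real.sinh (t / 2) ^ 2 := by
    have h2 := Real.cosh_two_mul (t / 2)
    rw [mul_div_cancel₀ t two_ne_zero] at h2
    have h3 := Real.cosh_sq (t / 2)
    rw [h2, h3]
    ring
  have h4 := sinh_le (t := t / 2) (by positivity)
  have h5 : 0 ≤ Real.sinh (t / 2) := Real.sinh_nonneg_iff.2 (by positivity)
  have h6 : Real.sinh (t / 2) ^ 2 ≤ (t / 2 * Real.cosh (t / 2)) ^ 2 := pow_le_pow_left₀ h5 h4 2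
  have h7 : Real.cosh (t / 2) ^ 2 ≤ Real.cosh t := by
    rw [h1, Real.cosh_sq]
    nlinarith
  have h8 : 0 ≤ t ^ 2 := sq_nonneg t
  nlinarith [mul_le_mul_of_nonneg_left h7 h8, Real.cosh_pos t, mul_nonneg h8 (Real.cosh_pos t).le]

/-- the constant in the lower bound of the energy -/
noncomputable def c0 (D : ℕ) : ℝ := 1 / (Real.pi * (1 + 2 * D))

lemma c0_pos : 0 < c0 D := by
  unfold c0
  have := Real.pi_pos
  positivity

/-- the lower bound of the energy -/
lemma om_lb {k : Fin D → ℝ} (hk : ∀ i, |k i| ≤ Real.pi) : c0 D * l1 k ≤ om 1 k := by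
  have hpi := Real.pi_pos
  have hω := om_nonneg (D := D) one_pos le_rfl k
  have h1 := cosh_sub_one_le hω
  rw [cosh_om one_pos le_rfl] at h1
  have h2 := cs_lb hk
  have h3 := cs_ub k
  have h4 := l1_sq k
  have h5 : om 1 k ^ 2 * cs 1 k ≤ om 1 k ^ 2 * (1 + 2 * D) :=
    mul_le_mul_of_nonneg_left h3 (sq_nonneg _)
  have hD1 : (0 : ℝ) < 1 + 2 * D := by positivity
  have h6 : (c0 D * l1 k) ^ 2 ≤ om 1 k ^ 2 := by
    have h7 : 2 / Real.pi ^ 2 * ∑ j, k j ^ 2 ≤ om 1 k ^ 2 * (1 + 2 * D) := h2.trans (h1.trans h5)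
    have h8 : (c0 D * l1 k) ^ 2 = l1 k ^ 2 / (Real.pi ^ 2 * (1 + 2 * D) ^ 2) := by
      unfold c0
      field_simp
    rw [h8, div_le_iff₀ (by positivity)]
    have h9 : 2 * ∑ j, k j ^ 2 ≤ om 1 k ^ 2 * (1 + 2 * D) * Real.pi ^ 2 := by
      have := mul_le_mul_of_nonneg_right h7 (sq_nonneg Real.pi)
      have e1 : 2 / Real.pi ^ 2 * ∑ j, k j ^ 2 * Real.pi ^ 2 = 2 * ∑ j, k j ^ 2 := by
        rw [← sum_mul]
        field_simp
      have e2 : 2 / Real.pi ^ 2 * (∑ j, k j ^ 2) * Real.pi ^ 2 = 2 * ∑ j, k j ^ 2 := by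
        field_simp
      rwa [e2] at this
    have h10 : 0 ≤ ∑ j, k j ^ 2 := sum_nonneg fun _ _ => sq_nonneg _
    have h11 := mul_le_mul_of_nonneg_right h9 hD1.le
    nlinarith
  exact (pow_le_pow_iff_left₀ (mul_nonneg c0_pos.le (l1_nonneg k)) hω two_ne_zero).1 h6

/-! ### the weight -/

section wt

variable {ι κ : Type*} [Fintype ι] [Fintype κ] [DecidableEq κ] (σ : ι → ℝ) (b : ι → Fin D → ℤ)
  (δ : ι → κ)

/-- the current is conserved -/
def Cl : Prop := ∀ i : κ, ∑ e, (if δ e = i then σ e else 0) = 0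

variable {σ b δ}

lemma cur_sub (hcl : Cl σ δ) (k : Fin D → ℝ) (i : κ) : cur σ b δ k i =
    ∑ e, if δ e = i then (σ e : ℂ) * (Complex.exp (Complex.I * (ph k (b e) : ℝ)) - 1) else 0 := by
  have h1 : (∑ e, (if δ e = i then (σ e : ℂ) else 0)) = 0 := by
    have h2 := congrArg (fun x : ℝ => (x : ℂ)) (hcl i)
    simp only [Complex.ofReal_sum, Complex.ofReal_zero] at h2
    refine Eq.trans (sum_congr rfl fun e _ => ?_) h2
    split_ifs <;> simp
  unfold cur
  rw [← sub_zero (∑ e, _), ← h1, ← sum_sub_distrib]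
  refine sum_congr rfl fun e _ => ?_
  split_ifs
  · ring
  · ring

variable (σ b)

/-- the constant in the bound of the current -/
noncomputable def c1 : ℝ := ∑ e, |σ e| * ∑ j, |(b e j : ℝ)|

lemma c1_nonneg : 0 ≤ c1 σ b := sum_nonneg fun _ _ => mul_nonneg (abs_nonneg _)
  (sum_nonneg fun _ _ => abs_nonneg _)

variable {σ b}

lemma ph_le (k : Fin D → ℝ) (z : Fin D → ℤ) : |ph k z| ≤ (∑ j, |(z j : ℝ)|) * l1 k := by
  unfold ph l1
  refine (abs_sum_le_sum_abs _ _).trans ?_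
  rw [mul_comm, sum_mul]
  refine sum_le_sum fun j _ => ?_
  rw [abs_mul]
  refine mul_le_mul_of_nonneg_left ?_ (abs_nonneg _)
  exact single_le_sum (f := fun j => |(z j : ℝ)|) (fun _ _ => abs_nonneg _) (mem_univ j)

lemma cur_le (hcl : Cl σ δ) (k : Fin D → ℝ) (i : κ) : ‖cur σ b δ k i‖ ≤ c1 σ b * l1 k := by
  rw [cur_sub hcl]
  refine (norm_sum_le _ _).trans ?_
  unfold c1
  rw [sum_mul]
  refine sum_le_sum fun e _ => ?_
  split_ifs
  · rw [norm_mul, Complex.norm_real, Real.norm_eq_abs, mul_assoc]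
    refine mul_le_mul_of_nonneg_left ?_ (abs_nonneg _)
    refine (Real.norm_exp_I_mul_ofReal_sub_one_le).trans ?_
    rw [Real.norm_eq_abs]
    exact ph_le k (b e)
  · rw [norm_zero]
    exact mul_nonneg (mul_nonneg (abs_nonneg _) (sum_nonneg fun _ _ => abs_nonneg _)) (l1_nonneg k)

variable (σ b κ)

/-- the constant in the bound of the weight -/
noncomputable def c3 : ℝ := Fintype.card κ * c1 σ b ^ 2 / (2 * c0 D)

lemma c3_nonneg : 0 ≤ c3 κ σ b := by
  unfold c3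
  have := c0_pos (D := D)
  positivity

variable {σ b κ}

lemma wgt_le (hcl : Cl σ δ) {k : Fin D → ℝ} (hk : ∀ i, |k i| ≤ Real.pi) :
    wgt σ b δ k ≤ c3 κ σ b * l1 k := by
  have h1 : cur2 σ b δ k ≤ Fintype.card κ * (c1 σ b * l1 k) ^ 2 := by
    unfold cur2
    calc ∑ i, ‖cur σ b δ k i‖ ^ 2 ≤ ∑ _i : κ, (c1 σ b * l1 k) ^ 2 :=
          sum_le_sum fun i _ => pow_le_pow_left₀ (norm_nonneg _) (cur_le hcl k i) 2
      _ = _ := by rw [sum_const, card_univ, nsmul_eq_mul]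
  have h2 := om_lb hk
  have h3 : om 1 k ≤ Real.sinh (om 1 k) := Real.self_le_sinh_iff.2 (om_nonneg one_pos le_rfl k)
  have hc := c0_pos (D := D)
  rcases (l1_nonneg k).eq_or_lt with h0 | h0
  · rw [← h0, mul_zero, zero_pow two_ne_zero, mul_zero] at h1
    have h4 : cur2 σ b δ k = 0 := le_antisymm h1 (cur2_nonneg σ b δ k)
    unfold wgt
    rw [h4, zero_div, ← h0, mul_zero]
  · unfold wgt c3
    have h4 : 0 < c0 D * l1 k := by positivity
    rw [div_le_iff₀ (by linarith)]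
    have h5 : Fintype.card κ * c1 σ b ^ 2 / (2 * c0 D) * l1 k * (2 * (c0 D * l1 k)) ≤
        Fintype.card κ * c1 σ b ^ 2 / (2 * c0 D) * l1 k * (2 * Real.sinh (om 1 k)) :=
      mul_le_mul_of_nonneg_left (by linarith) (by positivity)
    refine h1.trans (le_trans (le_of_eq ?_) h5)
    field_simp

end wt

/-! ### scaling limits -/

lemma deriv_lim {F : Type*} [NormedAddCommGroup F] [NormedSpace ℝ F] {f : ℝ → F} {f' : F}
    (hf : HasDerivAt f f' 0) (h0 : f 0 = 0) :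
    Tendsto (fun q : ℕ => (q : ℝ) • f (1 / q)) atTop (𝓝 f') := by
  have h1 := hasDerivAt_iff_tendsto_slope_zero.1 hf
  have h2 : Tendsto (fun q : ℕ => (1 : ℝ) / q) atTop (𝓝[≠] 0) := by
    refine tendsto_nhdsWithin_iff.2 ⟨tendsto_one_div_atTop_nhds_zero_nat, ?_⟩
    filter_upwards [eventually_gt_atTop 0] with q hq
    have : (0 : ℝ) < q := by exact_mod_cast hq
    exact (by positivity : (0 : ℝ) < 1 / q).ne'
  refine (h1.comp h2).congr fun q => ?_
  simp only [Function.comp_apply, zero_add, h0, sub_zero, one_div, inv_inv]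

/-- the Euclidean norm -/
noncomputable def nrm (y : Fin D → ℝ) : ℝ := Real.sqrt (∑ i, y i ^ 2)

lemma sin_lim (c : ℝ) : Tendsto (fun q : ℕ => (q : ℝ) * Real.sin (c / q)) atTop (𝓝 c) := by
  have h : HasDerivAt (fun x : ℝ => Real.sin (c * x)) c 0 := by
    have h1 := ((hasDerivAt_id (0 : ℝ)).const_mul c).sin
    simpa using h1
  have h2 := deriv_lim h (by simp)
  refine h2.congr fun q => ?_
  rw [smul_eq_mul, mul_one_div]

lemma cs_scal (y : Fin D → ℝ) : Tendsto (fun q : ℕ => (q : ℝ) ^ 2 * (cs 1 (fun i => y i / q) - 1))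
    atTop (𝓝 ((∑ i, y i ^ 2) / 2)) := by
  have h1 : ∀ i, Tendsto (fun q : ℕ => 2 * ((q : ℝ) * Real.sin (y i / 2 / q)) ^ 2) atTop
      (𝓝 (y i ^ 2 / 2)) := by
    intro i
    have := ((sin_lim (y i / 2)).pow 2).const_mul 2
    have e : 2 * (y i / 2) ^ 2 = y i ^ 2 / 2 := by ring
    rwa [e] at this
  have h2 := tendsto_finsetSum univ fun i _ => h1 i
  rw [← sum_div] at h2
  refine h2.congr fun q => ?_
  rw [cs_one, add_sub_cancel_left, mul_sum]
  refine sum_congr rfl fun i _ => ?_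
  have h3 : Real.cos (y i / q) = 1 - 2 * Real.sin (y i / 2 / q) ^ 2 := by
    have h4 := Real.cos_two_mul (y i / 2 / q)
    have h5 := Real.cos_sq' (y i / 2 / q)
    have e : 2 * (y i / 2 / (q : ℝ)) = y i / q := by ring
    rw [e] at h4
    rw [h4, h5]
    ring
  rw [h3]
  ring

lemma div_lim (y : Fin D → ℝ) : Tendsto (fun (q : ℕ) (i : Fin D) => y i / (q : ℝ)) atTop (𝓝 0) := by
  rw [tendsto_pi_nhds]
  intro i
  have := tendsto_const_div_atTop_nhds_zero_nat (y i)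
  simpa using this

lemma cs_to_one (y : Fin D → ℝ) : Tendsto (fun q : ℕ => cs 1 (fun i => y i / q)) atTop (𝓝 1) := by
  have h1 := ((cs_cont (D := D) 1).tendsto 0).comp (div_lim y)
  have h2 : cs 1 (0 : Fin D → ℝ) = 1 := by
    rw [cs_one]
    simp
  rw [h2] at h1
  exact h1

lemma sinh_scal (y : Fin D → ℝ) : Tendsto (fun q : ℕ => (q : ℝ) * Real.sinh (om 1 (fun i => y i / q)))
    atTop (𝓝 (nrm y)) := by
  have h1 := (cs_scal y).mul ((cs_to_one y).add_const 1)
  have e : (∑ i, y i ^ 2) / 2 * (1 + 1) = ∑ i, y i ^ 2 := by ring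
  rw [e] at h1
  have h2 := h1.sqrt
  refine h2.congr fun q => ?_
  rw [sinh_om one_pos le_rfl]
  have h3 : (q : ℝ) ^ 2 * (cs 1 (fun i => y i / q) - 1) * (cs 1 (fun i => y i / q) + 1) =
      (q : ℝ) ^ 2 * (cs 1 (fun i => y i / q) ^ 2 - 1) := by ring
  rw [h3, Real.sqrt_mul (sq_nonneg _), Real.sqrt_sq (Nat.cast_nonneg q)]

lemma om_scal (y : Fin D → ℝ) : Tendsto (fun q : ℕ => (q : ℝ) * om 1 (fun i => y i / q))
    atTop (𝓝 (nrm y)) := by
  have h1 := sinh_scal y
  have h2 := h1.div (cs_to_one y) one_ne_zero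
  rw [div_one] at h2
  refine tendsto_of_tendsto_of_tendsto_of_le_of_le h2 h1 (fun q => ?_) fun q => ?_
  · have hω := om_nonneg (D := D) one_pos le_rfl fun i => y i / (q : ℝ)
    have h3 := sinh_le hω
    rw [cosh_om one_pos le_rfl] at h3
    have h4 := cs_ge_one (D := D) one_pos le_rfl fun i => y i / (q : ℝ)
    show (q : ℝ) * Real.sinh (om 1 fun i => y i / q) / cs 1 (fun i => y i / q) ≤ _
    rw [div_le_iff₀ (by linarith), mul_assoc]
    exact mul_le_mul_of_nonneg_left h3 (Nat.cast_nonneg q)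
  · exact mul_le_mul_of_nonneg_left (Real.self_le_sinh_iff.2 (om_nonneg one_pos le_rfl _))
      (Nat.cast_nonneg q)

section wt2

variable {ι κ : Type*} [Fintype ι] [Fintype κ] [DecidableEq κ] (σ : ι → ℝ) (b : ι → Fin D → ℤ)
  (δ : ι → κ)

/-- the square of the linearised current -/
noncomputable def CC (y : Fin D → ℝ) : ℝ := ∑ i : κ, (∑ e, if δ e = i then σ e * ph y (b e) else 0) ^ 2

/-- the weight in the limit -/
noncomputable def WW (y : Fin D → ℝ) : ℝ := CC σ b δ y / (2 * nrm y)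

variable {σ b δ}

lemma exp_lim (c : ℝ) : Tendsto (fun q : ℕ => (q : ℂ) * (Complex.exp (Complex.I * ((c / q : ℝ) : ℂ)) - 1))
    atTop (𝓝 (Complex.I * c)) := by
  have h : HasDerivAt (fun x : ℝ => Complex.exp (Complex.I * ((c * x : ℝ) : ℂ)) - 1)
      (Complex.I * c) 0 := by
    have h0 : HasDerivAt (fun x : ℝ => ((c * x : ℝ) : ℂ)) (c : ℂ) 0 := by
      have := ((hasDerivAt_id (0 : ℝ)).const_mul c).ofReal_comp
      simpa using this
    have h1 := ((h0.const_mul Complex.I).cexp).sub_const 1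
    simpa using h1
  have h2 := deriv_lim h (by simp)
  refine h2.congr fun q => ?_
  rw [Complex.real_smul, mul_one_div]
  simp

lemma ph_div (y : Fin D → ℝ) (z : Fin D → ℤ) (q : ℝ) : ph (fun i => y i / q) z = ph y z / q := by
  unfold ph
  rw [sum_div]
  exact sum_congr rfl fun i _ => by ring

lemma cur_scal (hcl : Cl σ δ) (y : Fin D → ℝ) (i : κ) :
    Tendsto (fun q : ℕ => (q : ℂ) * cur σ b δ (fun j => y j / q) i) atTop
      (𝓝 (Complex.I * ((∑ e, if δ e = i then σ e * ph y (b e) else 0 : ℝ) : ℂ))) := by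
  have h1 : Tendsto (fun q : ℕ => ∑ e, if δ e = i then (σ e : ℂ) * ((q : ℂ) *
      (Complex.exp (Complex.I * ((ph y (b e) / q : ℝ) : ℂ)) - 1)) else 0) atTop
      (𝓝 (∑ e, if δ e = i then (σ e : ℂ) * (Complex.I * (ph y (b e) : ℝ)) else 0)) := by
    refine tendsto_finsetSum _ fun e _ => ?_
    split_ifs
    · exact (exp_lim (ph y (b e))).const_mul _
    · exact tendsto_const_nhds
  have e1 : (∑ e, if δ e = i then (σ e : ℂ) * (Complex.I * (ph y (b e) : ℝ)) else 0) =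
      Complex.I * ((∑ e, if δ e = i then σ e * ph y (b e) else 0 : ℝ) : ℂ) := by
    push_cast
    rw [mul_sum]
    refine sum_congr rfl fun e _ => ?_
    split_ifs
    · push_cast
      ring
    · simp
  rw [e1] at h1
  refine h1.congr fun q => ?_
  rw [cur_sub hcl, mul_sum]
  refine sum_congr rfl fun e _ => ?_
  split_ifs
  · rw [ph_div]
    ring
  · ring

lemma cur2_scal (hcl : Cl σ δ) (y : Fin D → ℝ) :
    Tendsto (fun q : ℕ => (q : ℝ) ^ 2 * cur2 σ b δ (fun j => y j / q)) atTop (𝓝 (CC σ b δ y)) := by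
  have h1 : Tendsto (fun q : ℕ => ∑ i : κ, ‖(q : ℂ) * cur σ b δ (fun j => y j / q) i‖ ^ 2) atTop
      (𝓝 (∑ i : κ, ‖Complex.I * ((∑ e, if δ e = i then σ e * ph y (b e) else 0 : ℝ) : ℂ)‖ ^ 2)) :=
    tendsto_finsetSum _ fun i _ => ((cur_scal hcl y i).norm).pow 2
  have e1 : (∑ i : κ, ‖Complex.I * ((∑ e, if δ e = i then σ e * ph y (b e) else 0 : ℝ) : ℂ)‖ ^ 2) =
      CC σ b δ y := by
    unfold CC
    refine sum_congr rfl fun i _ => ?_
    rw [norm_mul, Complex.norm_I, one_mul, Complex.norm_real, Real.norm_eq_abs, sq_abs]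
  rw [e1] at h1
  refine h1.congr fun q => ?_
  unfold cur2
  rw [mul_sum]
  refine sum_congr rfl fun i _ => ?_
  rw [norm_mul, mul_pow, Complex.norm_natCast]

lemma wgt_scal (hcl : Cl σ δ) {y : Fin D → ℝ} (hy : nrm y ≠ 0) :
    Tendsto (fun q : ℕ => (q : ℝ) * wgt σ b δ (fun j => y j / q)) atTop (𝓝 (WW σ b δ y)) := by
  have h1 := (cur2_scal (b := b) hcl y).div ((sinh_scal y).const_mul 2)
    (mul_ne_zero two_ne_zero hy)
  refine h1.congr' ?_
  filter_upwards [eventually_gt_atTop 0] with q hq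
  have hq' : (0 : ℝ) < q := by exact_mod_cast hq
  show (q : ℝ) ^ 2 * cur2 σ b δ (fun j => y j / q) / (2 * (q * Real.sinh (om 1 fun i => y i / q))) =
    q * wgt σ b δ fun j => y j / q
  unfold wgt
  rcases eq_or_ne (Real.sinh (om 1 fun i => y i / (q : ℝ))) 0 with h0 | h0
  · rw [h0]
    simp
  · field_simp

end wt2

end Pool.Agent.X134.SC
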