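import Pool.Agent.X134.SC.Kern

/-!
# Comparison of measures on rescaled test functions
-/

set_option autoImplicit false
open Finset MeasureTheory Filter Topology
open scoped ENNReal NNReal

namespace Pool.Agent.X134.SC

open Pool.Agent.X134.SM

variable {D : ℕ}

/-- the approximation, in the limit -/
lemma approx {h : (Fin D → ℝ) → ℝ} {B H ε : ℝ} (hh : Continuous h)
    (hB : ∀ P : Fin D → ℝ, (∃ i, B < |P i|) → h P = 0)
    (hH : ∀ P, |h P| ≤ H) (hε : 0 < ε) : ∃ q₀ : ℕ, 1 ≤ q₀ ∧ ∀ q : ℕ, q₀ ≤ q →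
      ∀ φ : Fin D → ℝ, (∀ i, φ i ∈ Set.Ioc (-Real.pi) Real.pi) →
        |TT q (q ^ 3) h φ - h fun i => q * φ i| ≤ ε := by
  have hpi := Real.pi_gt_three
  have hH0 : 0 ≤ H := (abs_nonneg _).trans (hH 0)
  have hcs : HasCompactSupport h := by
    refine HasCompactSupport.of_support_subset_isCompact
      (isCompact_univ_pi fun _ : Fin D => isCompact_Icc (a := -B) (b := B)) fun P hP => ?_
    rw [Set.mem_univ_pi]
    intro i
    by_contra hcon
    refine hP (hB P ⟨i, ?_⟩)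
    by_contra h'
    exact hcon (abs_le.1 (not_lt.1 h'))
  have huc := hcs.uniformContinuous_of_continuous hh
  obtain ⟨δ', hδ', hu⟩ := Metric.uniformContinuous_iff.1 huc (ε / 2) (half_pos hε)
  obtain ⟨δ, hδe⟩ : ∃ δ : ℝ, δ = δ' / 8 := ⟨_, rfl⟩
  have hδ : 0 < δ := by rw [hδe]; positivity
  have hu' : ∀ P P' : Fin D → ℝ, (∀ i, |P i - P' i| ≤ Real.pi * δ) → |h P - h P'| ≤ ε / 2 := by
    intro P P' hPP
    refine (hu ?_).le
    refine lt_of_le_of_lt ((dist_pi_le_iff (by positivity)).2 fun i => ?_)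
      (show Real.pi * δ < δ' by rw [hδe]; nlinarith [Real.pi_lt_four])
    rw [Real.dist_eq]
    exact hPP i
  -- the exponentially small term
  have hlim : Tendsto (fun q : ℕ => 2 * H * 8 ^ D * ((q : ℝ) ^ (3 * D) * Real.exp (-(δ ^ 2 * q))))
      atTop (𝓝 0) := by
    have h1 := (Real.tendsto_pow_mul_exp_neg_atTop_nhds_zero (3 * D)).comp
      ((tendsto_natCast_atTop_atTop (R := ℝ)).const_mul_atTop (show 0 < δ ^ 2 by positivity))
    have h2 := h1.const_mul (2 * H * 8 ^ D / (δ ^ 2) ^ (3 * D))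
    rw [mul_zero] at h2
    refine h2.congr fun q => ?_
    simp only [Function.comp_apply]
    rw [mul_pow]
    field_simp
  have hev := hlim.eventually_le_const (half_pos hε)
  obtain ⟨q₁, hq₁⟩ := eventually_atTop.1 hev
  obtain ⟨q₂, hq₂⟩ := exists_nat_gt (max B (2 * δ))
  refine ⟨q₁ + q₂ + 1, by omega, fun q hq φ hφ => ?_⟩
  have hq1 : (1 : ℝ) ≤ q := by exact_mod_cast (by omega : 1 ≤ q)
  have hqq : (q₂ : ℝ) ≤ q := by exact_mod_cast (by omega : q₂ ≤ q)
  have hBq : B < q := (le_max_left _ _).trans_lt (hq₂.trans_le hqq)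
  have hδq : δ ≤ q / 2 := by
    have := (le_max_right B (2 * δ)).trans_lt (hq₂.trans_le hqq)
    linarith
  have h1 := approx_aux (M := q ^ 3) hh hB hH (half_pos hε).le hu'
    (Nat.one_le_pow _ _ (by omega)) (by linarith : (0 : ℝ) < q) hδ hδq hBq hφ
  refine h1.trans ?_
  have h2 : (1 - (δ / q) ^ 2) ^ (q ^ 3) ≤ Real.exp (-(δ ^ 2 * q)) := by
    have h3 : 1 - (δ / q) ^ 2 ≤ Real.exp (-(δ / q) ^ 2) := by
      have := Real.add_one_le_exp (-(δ / q) ^ 2)
      linarith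
    have h4 : 0 ≤ 1 - (δ / q) ^ 2 := by
      have : δ / q ≤ 1 / 2 := by
        rw [div_le_iff₀ (by linarith)]
        linarith
      have h0 : 0 < δ / q := by positivity
      nlinarith
    refine (pow_le_pow_left₀ h4 h3 _).trans (le_of_eq ?_)
    rw [← Real.exp_nat_mul]
    congr 1
    push_cast
    field_simp
  have h5 : 2 * H * (8 * ((q ^ 3 : ℕ) : ℝ)) ^ D * (1 - (δ / q) ^ 2) ^ (q ^ 3) ≤
      2 * H * 8 ^ D * ((q : ℝ) ^ (3 * D) * Real.exp (-(δ ^ 2 * q))) := by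
    have h6 : 2 * H * (8 * ((q ^ 3 : ℕ) : ℝ)) ^ D * (1 - (δ / q) ^ 2) ^ (q ^ 3) ≤
        2 * H * (8 * ((q ^ 3 : ℕ) : ℝ)) ^ D * Real.exp (-(δ ^ 2 * q)) :=
      mul_le_mul_of_nonneg_left h2 (by positivity)
    refine h6.trans (le_of_eq ?_)
    push_cast
    rw [mul_pow, ← pow_mul]
    ring
  have h7 := hq₁ q (by omega)
  linarith

/-- the argument of the momentum variables -/
noncomputable def ag (p : ℝ × (Fin D → ℂ)) (i : Fin D) : ℝ := Complex.arg (p.2 i)

lemma ag_mem (p : ℝ × (Fin D → ℂ)) (i : Fin D) : ag p i ∈ Set.Ioc (-Real.pi) Real.pi :=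
  Complex.arg_mem_Ioc _

lemma ag_meas (i : Fin D) : Measurable fun p : ℝ × (Fin D → ℂ) => ag p i :=
  Complex.measurable_arg.comp ((measurable_pi_apply i).comp measurable_snd)

lemma exp_ag {p : ℝ × (Fin D → ℂ)} (hp : p ∈ KK D) (i : Fin D) :
    p.2 i = Complex.exp (Complex.I * (ag p i : ℝ)) := by
  have h := Complex.norm_mul_exp_arg_mul_I (p.2 i)
  rw [hp.2 i, Complex.ofReal_one, one_mul, mul_comm] at h
  exact h.symm

/-- the kernel as a function of the spectral variables -/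
noncomputable def GG (t M : ℕ) (x : (ℝ × (Fin D → ℂ)) × (Fin D → ℝ)) : ℂ :=
  (x.1.1 : ℂ) ^ t * ∏ i, V1 (x.1.2 i * Complex.exp (-(Complex.I * (x.2 i : ℝ)))) ^ M

lemma GG_meas (t M : ℕ) : Measurable (GG (D := D) t M) := by
  unfold GG V1
  have h1 : Measurable fun x : (ℝ × (Fin D → ℂ)) × (Fin D → ℝ) => ((x.1.1 : ℝ) : ℂ) :=
    Complex.measurable_ofReal.comp (measurable_fst.comp measurable_fst)
  refine (h1.pow_const t).mul (Finset.measurable_prod _ fun i _ => ?_)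
  have h2 : Measurable fun x : (ℝ × (Fin D → ℂ)) × (Fin D → ℝ) =>
      x.1.2 i * Complex.exp (-(Complex.I * (x.2 i : ℝ))) := by
    refine ((measurable_pi_apply i).comp (measurable_snd.comp measurable_fst)).mul ?_
    have h3 : Measurable fun x : (ℝ × (Fin D → ℂ)) × (Fin D → ℝ) => ((x.2 i : ℝ) : ℂ) :=
      Complex.measurable_ofReal.comp ((measurable_pi_apply i).comp measurable_snd)
    exact (h3.const_mul Complex.I).neg.cexp
  exact (((measurable_const.add h2).add h2.inv).div_const 4).pow_const M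

lemma GG_eq (t M : ℕ) {p : ℝ × (Fin D → ℂ)} (hp : p ∈ KK D) (p' : Fin D → ℝ) :
    GG t M (p, p') = ((p.1 ^ t * KK' M (ag p) p' : ℝ) : ℂ) := by
  unfold GG KK'
  push_cast
  congr 1
  refine prod_congr rfl fun i _ => ?_
  rw [exp_ag hp i, V1_eq]

lemma GG_norm (t M : ℕ) {p : ℝ × (Fin D → ℂ)} (hp : p ∈ KK D) (p' : Fin D → ℝ) :
    ‖GG t M (p, p')‖ ≤ 1 := by
  rw [GG_eq t M hp, Complex.norm_real, Real.norm_eq_abs, abs_mul, abs_pow,
    abs_of_nonneg (KK'_nonneg _ _ _)]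
  have h1 : |p.1| ^ t ≤ 1 := pow_le_one₀ (abs_nonneg _) (abs_le.2 ⟨by linarith [hp.1.1], hp.1.2⟩)
  exact mul_le_one₀ h1 (KK'_nonneg _ _ _) (KK'_le_one _ _ _)

lemma GG_good (t M : ℕ) (p' : Fin D → ℝ) : Good (t + D * M) 1 fun p => GG t M (p, p') := by
  have h1 : Good (M * 1 * D) 1 fun p : ℝ × (Fin D → ℂ) =>
      ∏ i, V1 (p.2 i * Complex.exp (-(Complex.I * (p' i : ℝ)))) ^ M := by
    have h2 := Good.prod (D := D) (univ : Finset (Fin D)) (r := M * 1) (F := fun i p =>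
      V1 (p.2 i * Complex.exp (-(Complex.I * (p' i : ℝ)))) ^ M) fun i => by
        refine Good.pow (good_V1 i ?_) M
        rw [show -(Complex.I * ((p' i : ℝ) : ℂ)) = ((-p' i : ℝ) : ℂ) * Complex.I by push_cast; ring,
          Complex.norm_exp_ofReal_mul_I]
    rw [card_univ, Fintype.card_fin, mul_comm D] at h2
    exact h2
  have h3 := (good_lam (D := D) t).mul h1 zero_le_one
  rw [mul_one] at h3
  exact h3.mono (le_of_eq (by ring)) (by norm_num)

/-- the integrals of the approximating functions -/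
lemma int_TT {t M : ℕ} (hM : 1 ≤ M) {q : ℝ} {h : (Fin D → ℝ) → ℝ} {H : ℝ} (hh : Continuous h)
    (hH : ∀ P, |h P| ≤ H) {Q : Measure (ℝ × (Fin D → ℂ))} [IsFiniteMeasure Q] (hQ : Q (KK D)ᶜ = 0) :
    ((∫ p, p.1 ^ t * TT q M h (ag p) ∂Q : ℝ) : ℂ) = ((cM M ^ D)⁻¹ : ℝ) *
      ∫ p', ((h fun i => q * p' i : ℝ) : ℂ) * ∫ p, GG t M (p, p') ∂Q ∂(kap D) := by
  have hcontq : Continuous fun p : Fin D → ℝ => h fun i => q * p i :=
    hh.comp (continuous_pi fun i => continuous_const.mul (continuous_apply i))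
  have hae : ∀ᵐ x ∂(Q.prod (kap D)), x.1 ∈ KK D :=
    Measure.quasiMeasurePreserving_fst.ae (ae_KK hQ)
  have hmeas : Measurable fun x : (ℝ × (Fin D → ℂ)) × (Fin D → ℝ) =>
      ((h fun i => q * x.2 i : ℝ) : ℂ) * GG t M x :=
    (Complex.measurable_ofReal.comp (hcontq.measurable.comp measurable_snd)).mul (GG_meas t M)
  have hint : Integrable (fun x : (ℝ × (Fin D → ℂ)) × (Fin D → ℝ) =>
      ((h fun i => q * x.2 i : ℝ) : ℂ) * GG t M x) (Q.prod (kap D)) := by
    refine Integrable.mono' (integrable_const (H * 1)) hmeas.aestronglyMeasurable ?_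
    filter_upwards [hae] with x hx
    rw [norm_mul, Complex.norm_real, Real.norm_eq_abs]
    exact mul_le_mul (hH _) (GG_norm t M hx x.2) (norm_nonneg _) ((abs_nonneg _).trans (hH 0))
  have h1 : ((∫ p, p.1 ^ t * TT q M h (ag p) ∂Q : ℝ) : ℂ) =
      ∫ p, ((cM M ^ D)⁻¹ : ℝ) * ∫ p', ((h fun i => q * p' i : ℝ) : ℂ) * GG t M (p, p') ∂(kap D) ∂Q := by
    rw [← integral_complex_ofReal]
    refine integral_congr_ae ?_
    filter_upwards [ae_KK hQ] with p hp
    show ((p.1 ^ t * TT q M h (ag p) : ℝ) : ℂ) = _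
    have h2 : ∀ p', ((h fun i => q * p' i : ℝ) : ℂ) * GG t M (p, p') =
        ((p.1 ^ t * ((h fun i => q * p' i) * KK' M (ag p) p') : ℝ) : ℂ) := by
      intro p'
      rw [GG_eq t M hp]
      push_cast
      ring
    simp only [h2]
    rw [integral_complex_ofReal, integral_const_mul]
    unfold TT
    push_cast
    ring
  rw [h1, integral_const_mul]
  congr 1
  rw [integral_integral_swap hint]
  refine integral_congr_ae (Eventually.of_forall fun p' => ?_)
  exact integral_const_mul _ _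

/-- comparison -/
lemma compare_TT {t M r : ℕ} (hM : 1 ≤ M) (hr : t + D * M ≤ r) {q : ℝ} {h : (Fin D → ℝ) → ℝ} {H : ℝ}
    (hh : Continuous h) (hH : ∀ P, |h P| ≤ H) {Q Q' : Measure (ℝ × (Fin D → ℂ))}
    [IsFiniteMeasure Q] [IsFiniteMeasure Q'] (hQ : Q (KK D)ᶜ = 0) (hQ' : Q' (KK D)ᶜ = 0) {δ : ℝ}
    (hδ : 0 ≤ δ) (hd : ∀ s : ℕ × (Fin D → ℤ), s.1 ≤ r → (∀ i, |s.2 i| ≤ r) →
      ‖mom Q s - mom Q' s‖ ≤ δ) :
    |∫ p, p.1 ^ t * TT q M h (ag p) ∂Q - ∫ p, p.1 ^ t * TT q M h (ag p) ∂Q'| ≤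
      (8 * M) ^ D * H * δ := by
  have hH0 : 0 ≤ H := (abs_nonneg _).trans (hH 0)
  have hcontq : Continuous fun p : Fin D → ℝ => h fun i => q * p i :=
    hh.comp (continuous_pi fun i => continuous_const.mul (continuous_apply i))
  have hc := pow_pos (cM_pos hM) D
  have hinv : (cM M ^ D)⁻¹ ≤ (8 * M) ^ D := by
    have hM' : (1 : ℝ) ≤ M := by exact_mod_cast hM
    have h1 : (1 / (8 * (M : ℝ))) ^ D ≤ cM M ^ D := pow_le_pow_left₀ (by positivity) (cM_lb hM) D
    have h2 := inv_anti₀ (by positivity) h1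
    rwa [one_div, inv_pow, inv_inv] at h2
  have hG : ∀ p', ‖∫ p, GG t M (p, p') ∂Q - ∫ p, GG t M (p, p') ∂Q'‖ ≤ δ := by
    intro p'
    have := (GG_good t M p').compare hQ hQ' hδ fun s hs1 hs2 => hd s (hs1.trans hr) fun i =>
      (hs2 i).trans (by exact_mod_cast hr)
    rwa [one_mul] at this
  have hGi : ∀ (Q : Measure (ℝ × (Fin D → ℂ))) [IsFiniteMeasure Q], Q (KK D)ᶜ = 0 →
      Integrable (fun p' => ((h fun i => q * p' i : ℝ) : ℂ) * ∫ p, GG t M (p, p') ∂Q) (kap D) := by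
    intro Q _ hQ
    refine Integrable.mono' (integrable_const (H * Q.real Set.univ)) ?_ ?_
    · refine AEStronglyMeasurable.mul
        (Complex.continuous_ofReal.comp hcontq).aestronglyMeasurable ?_
      have h1 : StronglyMeasurable fun x : (Fin D → ℝ) × (ℝ × (Fin D → ℂ)) => GG t M (x.2, x.1) :=
        ((GG_meas t M).comp measurable_swap).stronglyMeasurable
      exact h1.integral_prod_right'.aestronglyMeasurable
    · refine Eventually.of_forall fun p' => ?_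
      rw [norm_mul, Complex.norm_real, Real.norm_eq_abs]
      refine mul_le_mul (hH _) ?_ (norm_nonneg _) hH0
      have h1 := norm_integral_le_of_norm_le_const (μ := Q) (C := 1) (f := fun p => GG t M (p, p'))
        (by filter_upwards [ae_KK hQ] with p hp using GG_norm t M hp p')
      rwa [one_mul] at h1
  have key : ‖((∫ p, p.1 ^ t * TT q M h (ag p) ∂Q - ∫ p, p.1 ^ t * TT q M h (ag p) ∂Q' : ℝ) : ℂ)‖ ≤
      (8 * M) ^ D * H * δ := by
    rw [Complex.ofReal_sub, int_TT hM hh hH hQ, int_TT hM hh hH hQ', ← mul_sub,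
      ← integral_sub (hGi Q hQ) (hGi Q' hQ'), norm_mul, Complex.norm_real, Real.norm_eq_abs,
      abs_of_pos (inv_pos.2 hc)]
    have h1 : ‖∫ p', (((h fun i => q * p' i : ℝ) : ℂ) * ∫ p, GG t M (p, p') ∂Q) -
        ((h fun i => q * p' i : ℝ) : ℂ) * ∫ p, GG t M (p, p') ∂Q' ∂(kap D)‖ ≤ H * δ := by
      have := norm_integral_le_of_norm_le_const (μ := kap D) (C := H * δ) (f := fun p' =>
        (((h fun i => q * p' i : ℝ) : ℂ) * ∫ p, GG t M (p, p') ∂Q) -
        ((h fun i => q * p' i : ℝ) : ℂ) * ∫ p, GG t M (p, p') ∂Q')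
        (Eventually.of_forall fun p' => by
          rw [← mul_sub, norm_mul, Complex.norm_real, Real.norm_eq_abs]
          exact mul_le_mul (hH _) (hG p') (norm_nonneg _) hH0)
      simpa using this
    calc _ ≤ (8 * (M : ℝ)) ^ D * (H * δ) :=
          mul_le_mul hinv h1 (norm_nonneg _) (by positivity)
      _ = _ := by ring
  rwa [Complex.norm_real, Real.norm_eq_abs] at key

end Pool.Agent.X134.SC
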