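import Pool.Agent.X134.SM.Weak

/-!
# Test functions for the scaling limit
-/

set_option autoImplicit false
open Finset MeasureTheory Filter Topology
open scoped ENNReal NNReal

namespace Pool.Agent.X134.SC

open Pool.Agent.X134.SM

variable {D : ℕ}

/-- finite sums of monomials of degree at most `r`, the sum of the coefficients being at most `C` -/
def Good (r : ℕ) (C : ℝ) (F : ℝ × (Fin D → ℂ) → ℂ) : Prop :=
  ∃ (ι : Type) (_ : Fintype ι) (e : ι → ℕ × (Fin D → ℤ)) (c : ι → ℂ),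
    (∀ j, (e j).1 ≤ r ∧ ∀ i, |(e j).2 i| ≤ r) ∧ ∑ j, ‖c j‖ ≤ C ∧
    ∀ p ∈ KK D, F p = ∑ j, c j * mn (e j).1 (e j).2 p

lemma Good.mono {r r' : ℕ} {C C' : ℝ} {F : ℝ × (Fin D → ℂ) → ℂ} (h : Good r C F) (hr : r ≤ r')
    (hC : C ≤ C') : Good r' C' F := by
  obtain ⟨ι, _, e, c, h1, h2, h3⟩ := h
  refine ⟨ι, inferInstance, e, c, fun j => ⟨(h1 j).1.trans hr, fun i => ((h1 j).2 i).trans ?_⟩,
    h2.trans hC, h3⟩
  exact_mod_cast hr

lemma Good.mul {r r' : ℕ} {C C' : ℝ} {F F' : ℝ × (Fin D → ℂ) → ℂ} (h : Good r C F)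
    (h' : Good r' C' F') (hC : 0 ≤ C) : Good (r + r') (C * C') fun p => F p * F' p := by
  obtain ⟨ι, _, e, c, h1, h2, h3⟩ := h
  obtain ⟨ι', _, e', c', h1', h2', h3'⟩ := h'
  refine ⟨ι × ι', inferInstance, fun j => e j.1 + e' j.2, fun j => c j.1 * c' j.2,
    fun j => ⟨add_le_add (h1 _).1 (h1' _).1, fun i => ?_⟩, ?_, fun p hp => ?_⟩
  · show |(e j.1).2 i + (e' j.2).2 i| ≤ ((r + r' : ℕ) : ℤ)
    push_cast
    exact (abs_add_le _ _).trans (add_le_add ((h1 _).2 i) ((h1' _).2 i))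
  · rw [Fintype.sum_prod_type]
    simp only [norm_mul, ← mul_sum, ← sum_mul]
    exact mul_le_mul h2 h2' (sum_nonneg fun _ _ => norm_nonneg _) hC
  · show F p * F' p = _
    rw [h3 p hp, h3' p hp, Fintype.sum_prod_type, sum_mul_sum]
    refine sum_congr rfl fun j _ => sum_congr rfl fun j' _ => ?_
    have := mn_mul hp (e j).1 (e' j').1 (e j).2 (e' j').2
    show _ = c j * c' j' * mn ((e j).1 + (e' j').1) ((e j).2 + (e' j').2) p
    rw [← this]
    ring

lemma good_one : Good 0 1 (fun _ : ℝ × (Fin D → ℂ) => (1 : ℂ)) := by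
  refine ⟨Unit, inferInstance, fun _ => 0, fun _ => 1, fun _ => ⟨le_rfl, fun i => by simp⟩, by simp,
    fun p hp => ?_⟩
  unfold mn
  simp

lemma Good.pow {r : ℕ} {F : ℝ × (Fin D → ℂ) → ℂ} (h : Good r 1 F) (n : ℕ) :
    Good (n * r) 1 fun p => F p ^ n := by
  induction n with
  | zero => simpa using good_one (D := D)
  | succ n ih =>
    have h1 := ih.mul h zero_le_one
    rw [mul_one] at h1
    have e1 : n * r + r = (n + 1) * r := by ring
    rw [e1] at h1
    simpa only [pow_succ] using h1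

lemma Good.prod {r : ℕ} {κ : Type*} (s : Finset κ) {F : κ → ℝ × (Fin D → ℂ) → ℂ}
    (h : ∀ k, Good r 1 (F k)) : Good (s.card * r) 1 fun p => ∏ k ∈ s, F k p := by
  classical
  induction s using Finset.induction_on with
  | empty => simpa using good_one (D := D)
  | insert a s ha ih =>
    have h1 := (h a).mul ih zero_le_one
    rw [mul_one] at h1
    have e1 : r + s.card * r = (insert a s).card * r := by
      rw [card_insert_of_notMem ha]
      ring
    rw [e1] at h1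
    simpa only [prod_insert ha] using h1

/-- powers of `λ` -/
lemma good_lam (t : ℕ) : Good t 1 (fun p : ℝ × (Fin D → ℂ) => (p.1 : ℂ) ^ t) := by
  refine ⟨Unit, inferInstance, fun _ => (t, 0), fun _ => 1, fun _ => ⟨le_rfl, fun i => by simp⟩,
    by simp, fun p hp => ?_⟩
  unfold mn
  simp

/-- the kernel in one variable -/
noncomputable def V1 (w : ℂ) : ℂ := (2 + w + w⁻¹) / 4

lemma good_V1 (i : Fin D) {w : ℂ} (hw : ‖w‖ = 1) :
    Good 1 1 (fun p : ℝ × (Fin D → ℂ) => V1 (p.2 i * w)) := by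
  refine ⟨Fin 3, inferInstance, ![(0, 0), (0, Pi.single i 1), (0, Pi.single i (-1))],
    ![1 / 2, w / 4, w⁻¹ / 4], fun j => ?_, ?_, fun p hp => ?_⟩
  · have hs : ∀ (c : ℤ), |c| = 1 → ∀ k, |(Pi.single i c : Fin D → ℤ) k| ≤ ((1 : ℕ) : ℤ) := by
      intro c hc k
      by_cases h : k = i
      · subst h
        rw [Pi.single_eq_same, hc]
        rfl
      · rw [Pi.single_eq_of_ne h]
        simp
    fin_cases j
    · exact ⟨by simp, fun k => by simp⟩
    · exact ⟨by simp, fun k => hs 1 (by simp) k⟩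
    · exact ⟨by simp, fun k => hs (-1) (by simp) k⟩
  · rw [Fin.sum_univ_three]
    simp only [Matrix.cons_val_zero, Matrix.cons_val_one, Matrix.cons_val]
    rw [norm_div, norm_div, norm_div, norm_inv, hw]
    norm_num
  · have hz := ne_zero_of hp i
    rw [Fin.sum_univ_three]
    simp only [Matrix.cons_val_zero, Matrix.cons_val_one, Matrix.cons_val]
    have hm : ∀ c : ℤ, mn 0 (Pi.single i c) p = p.2 i ^ c := by
      intro c
      unfold mn
      rw [pow_zero, one_mul, Finset.prod_eq_single i]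
      · rw [Pi.single_eq_same]
      · intro k _ hk
        rw [Pi.single_eq_of_ne hk, zpow_zero]
      · intro h
        exact absurd (mem_univ i) h
    have hm0 : mn 0 0 p = 1 := by
      unfold mn
      simp
    rw [hm, hm, hm0, zpow_one, zpow_neg_one]
    unfold V1
    rw [mul_inv]
    ring

/-- comparison of the integrals -/
lemma Good.compare {r : ℕ} {C δ : ℝ} {F : ℝ × (Fin D → ℂ) → ℂ} (h : Good r C F)
    {M M' : Measure (ℝ × (Fin D → ℂ))} [IsFiniteMeasure M] [IsFiniteMeasure M']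
    (hM : M (KK D)ᶜ = 0) (hM' : M' (KK D)ᶜ = 0) (hδ : 0 ≤ δ)
    (hd : ∀ q : ℕ × (Fin D → ℤ), q.1 ≤ r → (∀ i, |q.2 i| ≤ r) → ‖mom M q - mom M' q‖ ≤ δ) :
    ‖∫ p, F p ∂M - ∫ p, F p ∂M'‖ ≤ C * δ := by
  obtain ⟨ι, _, e, c, h1, h2, h3⟩ := h
  have key : ∀ (Q : Measure (ℝ × (Fin D → ℂ))) [IsFiniteMeasure Q], Q (KK D)ᶜ = 0 →
      ∫ p, F p ∂Q = ∑ j, c j * mom Q (e j) := by
    intro Q _ hQ
    have e1 : ∫ p, F p ∂Q = ∫ p, ∑ j, c j * mn (e j).1 (e j).2 p ∂Q := by
      refine integral_congr_ae ?_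
      filter_upwards [ae_KK hQ] with p hp using h3 p hp
    rw [e1, integral_finsetSum]
    · refine sum_congr rfl fun j _ => ?_
      rw [integral_const_mul]
      rfl
    · intro j _
      refine Integrable.const_mul ?_ _
      refine Integrable.mono' (integrable_const (1 : ℝ)) (mn_meas _ _).aestronglyMeasurable ?_
      filter_upwards [ae_KK hQ] with p hp using mn_norm hp _ _
  rw [key M hM, key M' hM', ← sum_sub_distrib]
  refine (norm_sum_le _ _).trans ?_
  calc ∑ j, ‖c j * mom M (e j) - c j * mom M' (e j)‖ ≤ ∑ j, ‖c j‖ * δ := by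
        refine sum_le_sum fun j _ => ?_
        rw [← mul_sub, norm_mul]
        exact mul_le_mul_of_nonneg_left (hd (e j) (h1 j).1 (h1 j).2) (norm_nonneg _)
    _ = (∑ j, ‖c j‖) * δ := by rw [sum_mul]
    _ ≤ C * δ := mul_le_mul_of_nonneg_right h2 hδ

end Pool.Agent.X134.SC
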