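import Pool.Agent.X134.SC.Good
import Pool.Agent.X134.SM.Green2

/-!
# The approximation of functions of the rescaled momentum
-/

set_option autoImplicit false
open Finset MeasureTheory Filter Topology
open scoped ENNReal NNReal

namespace Pool.Agent.X134.SC

open Pool.Agent.X134.SM

variable {D : ℕ}

/-- the kernel -/
noncomputable def vv (θ : ℝ) : ℝ := (1 + Real.cos θ) / 2

lemma vv_nonneg (θ : ℝ) : 0 ≤ vv θ := by
  unfold vv
  linarith [Real.neg_one_le_cos θ]

lemma vv_le_one (θ : ℝ) : vv θ ≤ 1 := by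
  unfold vv
  linarith [Real.cos_le_one θ]

lemma vv_sin (θ : ℝ) : vv θ = 1 - Real.sin (θ / 2) ^ 2 := by
  unfold vv
  have h := Real.cos_sq' (θ / 2)
  have h2 := Real.cos_two_mul (θ / 2)
  rw [mul_div_cancel₀ θ two_ne_zero] at h2
  rw [h2, h]
  ring

lemma vv_cont : Continuous vv := by
  unfold vv
  fun_prop

lemma V1_eq (φ θ : ℝ) : V1 (Complex.exp (Complex.I * φ) * Complex.exp (-(Complex.I * θ))) =
    ((vv (φ - θ) : ℝ) : ℂ) := by
  unfold V1 vv
  rw [← Complex.exp_add, ← Complex.exp_neg]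
  push_cast
  rw [Complex.cos]
  have e1 : Complex.I * (φ : ℂ) + -(Complex.I * θ) = (φ - θ : ℂ) * Complex.I := by ring
  rw [e1]
  have e2 : -((φ - θ : ℂ) * Complex.I) = -(φ - θ : ℂ) * Complex.I := by ring
  rw [e2]
  ring

lemma int_nu1' (f : ℝ → ℝ) : ∫ x, f x ∂nu1 = 1 / (2 * Real.pi) * ∫ x in (-Real.pi)..Real.pi, f x := by
  have hpi := Real.pi_pos
  unfold nu1
  rw [integral_smul_measure, ENNReal.toReal_ofReal (by positivity), smul_eq_mul,
    intervalIntegral.integral_of_le (by linarith)]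

/-- the normalisation -/
noncomputable def cM (M : ℕ) : ℝ := ∫ θ, vv θ ^ M ∂nu1

lemma int_vv (M : ℕ) (φ : ℝ) : ∫ θ, vv (φ - θ) ^ M ∂nu1 = cM M := by
  unfold cM
  rw [int_nu1', int_nu1']
  congr 1
  have h1 := intervalIntegral.integral_comp_sub_left (a := -Real.pi) (b := Real.pi)
    (fun u => vv u ^ M) φ
  rw [h1]
  have hper : Function.Periodic (fun u => vv u ^ M) (2 * Real.pi) := by
    intro u
    simp only [vv, Real.cos_add_two_pi]
  have h2 := hper.intervalIntegral_add_eq (φ - Real.pi) (-Real.pi)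
  have e1 : φ - Real.pi + 2 * Real.pi = φ - -Real.pi := by ring
  have e2 : -Real.pi + 2 * Real.pi = Real.pi := by ring
  rw [e1, e2] at h2
  exact h2

lemma cM_lb {M : ℕ} (hM : 1 ≤ M) : 1 / (8 * (M : ℝ)) ≤ cM M := by
  have hpi := Real.pi_pos
  have hpi3 := Real.pi_lt_four
  have hM' : (1 : ℝ) ≤ M := by exact_mod_cast hM
  have hi : IntervalIntegrable (fun u => vv u ^ M) volume (-Real.pi) Real.pi :=
    (vv_cont.pow M).intervalIntegrable _ _
  have hlow : ∀ θ : ℝ, |θ| ≤ 1 / M → 3 / 4 ≤ vv θ ^ M := by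
    intro θ hθ
    have h1 : Real.sin (θ / 2) ^ 2 ≤ 1 / (4 * (M : ℝ) ^ 2) := by
      have h2 : Real.sin (θ / 2) ^ 2 ≤ (θ / 2) ^ 2 := by
        rw [← sq_abs (Real.sin (θ / 2)), ← sq_abs (θ / 2)]
        exact pow_le_pow_left₀ (abs_nonneg _) Real.abs_sin_le_abs 2
      have h3 : θ ^ 2 ≤ (1 / M) ^ 2 := by
        rw [← sq_abs]
        exact pow_le_pow_left₀ (abs_nonneg _) hθ 2
      calc Real.sin (θ / 2) ^ 2 ≤ θ ^ 2 / 4 := by linarith [h2, show (θ / 2) ^ 2 = θ ^ 2 / 4 by ring]
        _ ≤ (1 / (M : ℝ)) ^ 2 / 4 := by linarith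
        _ = 1 / (4 * (M : ℝ) ^ 2) := by field_simp
    have h4 : (1 : ℝ) / (4 * (M : ℝ) ^ 2) ≤ 1 := by
      rw [div_le_one (by positivity)]
      nlinarith
    have h5 := one_add_mul_le_pow (a := -(1 / (4 * (M : ℝ) ^ 2))) (by linarith) M
    have h6 : 1 + (M : ℝ) * -(1 / (4 * (M : ℝ) ^ 2)) = 1 - 1 / (4 * M) := by
      field_simp
      ring
    rw [h6] at h5
    have h7 : 1 / (4 * (M : ℝ)) ≤ 1 / 4 := by
      apply one_div_le_one_div_of_le <;> linarith
    have h8 : (1 + -(1 / (4 * (M : ℝ) ^ 2))) ^ M ≤ vv θ ^ M := by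
      refine pow_le_pow_left₀ (by linarith) ?_ M
      rw [vv_sin]
      linarith
    linarith
  unfold cM
  rw [int_nu1']
  have h1M : 1 / (M : ℝ) ≤ 1 := by rw [div_le_one (by linarith)]; exact hM'
  have hpi31 := Real.pi_gt_three
  have hsplit : ∫ x in (-(1 / (M : ℝ)))..(1 / M), (3 / 4 : ℝ) ≤ ∫ x in (-Real.pi)..Real.pi, vv x ^ M := by
    calc ∫ x in (-(1 / (M : ℝ)))..(1 / M), (3 / 4 : ℝ)
        ≤ ∫ x in (-(1 / (M : ℝ)))..(1 / M), vv x ^ M := by
          refine intervalIntegral.integral_mono_on (by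
            have : 0 < 1 / (M : ℝ) := by positivity
            linarith) (by simp) ((vv_cont.pow M).intervalIntegrable _ _) ?_
          intro x hx
          exact hlow x (abs_le.2 ⟨hx.1, hx.2⟩)
      _ ≤ _ := by
          refine intervalIntegral.integral_mono_interval (by linarith) (by
            have : 0 < 1 / (M : ℝ) := by positivity
            linarith) (by linarith) ?_ hi
          exact Eventually.of_forall fun x => pow_nonneg (vv_nonneg x) M
  rw [intervalIntegral.integral_const, smul_eq_mul] at hsplit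
  have h9 : 1 / (2 * Real.pi) * ((1 / M - -(1 / (M : ℝ))) * (3 / 4)) ≤
      1 / (2 * Real.pi) * ∫ x in (-Real.pi)..Real.pi, vv x ^ M :=
    mul_le_mul_of_nonneg_left hsplit (by positivity)
  refine le_trans ?_ h9
  have h10 : 1 / (2 * Real.pi) * ((1 / M - -(1 / (M : ℝ))) * (3 / 4)) = 3 / (4 * Real.pi * M) := by
    field_simp
    ring
  rw [h10, div_le_div_iff₀ (by positivity) (by positivity)]
  nlinarith

lemma cM_pos {M : ℕ} (hM : 1 ≤ M) : 0 < cM M := lt_of_lt_of_le (by positivity) (cM_lb hM)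

/-- the kernel in `D` variables -/
noncomputable def KK' (M : ℕ) (φ p : Fin D → ℝ) : ℝ := ∏ i, vv (φ i - p i) ^ M

lemma KK'_nonneg (M : ℕ) (φ p : Fin D → ℝ) : 0 ≤ KK' M φ p :=
  prod_nonneg fun _ _ => pow_nonneg (vv_nonneg _) _

lemma KK'_le_one (M : ℕ) (φ p : Fin D → ℝ) : KK' M φ p ≤ 1 :=
  prod_le_one (fun _ _ => pow_nonneg (vv_nonneg _) _) fun _ _ =>
    pow_le_one₀ (vv_nonneg _) (vv_le_one _)

lemma KK'_cont (M : ℕ) (φ : Fin D → ℝ) : Continuous (KK' M φ) := by
  unfold KK'
  exact continuous_finsetProd _ fun i _ =>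
    (vv_cont.comp (continuous_const.sub (continuous_apply i))).pow M

lemma int_KK' (M : ℕ) (φ : Fin D → ℝ) : ∫ p, KK' M φ p ∂(kap D) = cM M ^ D := by
  unfold KK' kap
  rw [integral_fintype_prod_eq_prod (fun i (x : ℝ) => vv (φ i - x) ^ M)]
  simp only [int_vv, prod_const, card_univ, Fintype.card_fin]

/-- the approximation -/
noncomputable def TT (q : ℝ) (M : ℕ) (h : (Fin D → ℝ) → ℝ) (φ : Fin D → ℝ) : ℝ :=
  (cM M ^ D)⁻¹ * ∫ p, h (fun i => q * p i) * KK' M φ p ∂(kap D)

lemma far {η a φ p : ℝ} (ha : a = φ - p) (hφ : φ ∈ Set.Ioc (-Real.pi) Real.pi)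
    (hp : p ∈ Set.Ioc (-Real.pi) Real.pi) (h : |Real.sin (a / 2)| < η) :
    |a| ≤ Real.pi * η ∨ (Real.pi * (1 - η) ≤ |φ| ∧ Real.pi * (1 - η) ≤ |p|) := by
  have hpi := Real.pi_pos
  have h1 : |a| < 2 * Real.pi := by
    rw [ha, abs_lt]
    constructor <;> linarith [hφ.1, hφ.2, hp.1, hp.2]
  have h2 : |Real.sin (a / 2)| = Real.sin (|a| / 2) := by
    rcases le_total 0 a with h0 | h0
    · rw [abs_of_nonneg h0]
      rw [abs_of_nonneg h0] at h1
      exact abs_of_nonneg (Real.sin_nonneg_of_nonneg_of_le_pi (by linarith) (by linarith))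
    · rw [abs_of_nonpos h0]
      rw [abs_of_nonpos h0] at h1
      have h3 : 0 ≤ Real.sin (-a / 2) :=
        Real.sin_nonneg_of_nonneg_of_le_pi (by linarith) (by linarith)
      have h4 : Real.sin (a / 2) = -Real.sin (-a / 2) := by
        rw [← Real.sin_neg]
        congr 1
        ring
      rw [h4, abs_neg, abs_of_nonneg h3]
  rw [h2] at h
  have ha0 := abs_nonneg a
  by_cases h3 : |a| / 2 ≤ Real.pi / 2
  · left
    have h4 := Real.mul_le_sin (x := |a| / 2) (by linarith) h3
    have h5 : 2 / Real.pi * (|a| / 2) < η := lt_of_le_of_lt h4 h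
    have h6 : 2 / Real.pi * (|a| / 2) = |a| / Real.pi := by
      field_simp
    rw [h6, div_lt_iff₀ hpi] at h5
    linarith
  · right
    have h4 := Real.mul_le_sin (x := Real.pi - |a| / 2) (by linarith) (by linarith)
    rw [Real.sin_pi_sub] at h4
    have h5 : 2 / Real.pi * (Real.pi - |a| / 2) < η := lt_of_le_of_lt h4 h
    have h6 : 2 / Real.pi * (Real.pi - |a| / 2) = (2 * Real.pi - |a|) / Real.pi := by
      field_simp
      try ring
    rw [h6, div_lt_iff₀ hpi] at h5
    have h7 : |a| ≤ |φ| + |p| := by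
      rw [ha]
      exact abs_sub φ p
    have h8 : |φ| ≤ Real.pi := abs_le.2 ⟨hφ.1.le, hφ.2⟩
    have h9 : |p| ≤ Real.pi := abs_le.2 ⟨hp.1.le, hp.2⟩
    constructor <;> nlinarith

/-- the approximation, with error terms -/
lemma approx_aux {h : (Fin D → ℝ) → ℝ} {B H ε δ : ℝ} (hh : Continuous h)
    (hB : ∀ P : Fin D → ℝ, (∃ i, B < |P i|) → h P = 0)
    (hH : ∀ P, |h P| ≤ H) (hε : 0 ≤ ε)
    (hu : ∀ P P' : Fin D → ℝ, (∀ i, |P i - P' i| ≤ Real.pi * δ) → |h P - h P'| ≤ ε) {q : ℝ}
    {M : ℕ} (hM : 1 ≤ M) (hq : 0 < q) (hδ : 0 < δ) (hδq : δ ≤ q / 2) (hBq : B < q)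
    {φ : Fin D → ℝ} (hφ : ∀ i, φ i ∈ Set.Ioc (-Real.pi) Real.pi) :
    |TT q M h φ - h fun i => q * φ i| ≤ ε + 2 * H * (8 * M) ^ D * (1 - (δ / q) ^ 2) ^ M := by
  have hpi := Real.pi_gt_three
  have hH0 : 0 ≤ H := (abs_nonneg _).trans (hH 0)
  have hc := pow_pos (cM_pos hM) D
  have hM' : (1 : ℝ) ≤ M := by exact_mod_cast hM
  have hη1 : δ / q ≤ 1 / 2 := by
    rw [div_le_iff₀ hq]
    linarith
  have hη0 : 0 < δ / q := by positivity
  have hη2 : (δ / q) ^ 2 ≤ 1 := by nlinarith
  obtain ⟨e, he⟩ : ∃ e : ℝ, e = (1 - (δ / q) ^ 2) ^ M := ⟨_, rfl⟩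
  have he0 : 0 ≤ e := by
    rw [he]
    exact pow_nonneg (by linarith) _
  have hcontq : Continuous fun p : Fin D → ℝ => h fun i => q * p i :=
    hh.comp (continuous_pi fun i => continuous_const.mul (continuous_apply i))
  have hbI : ∀ (f : (Fin D → ℝ) → ℝ), Continuous f → (∃ C, ∀ p, |f p| ≤ C) →
      Integrable f (kap D) := by
    rintro f hf ⟨C, hC⟩
    exact Integrable.mono' (integrable_const C) hf.aestronglyMeasurable
      (Eventually.of_forall fun p => by rw [Real.norm_eq_abs]; exact hC p)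
  have hK1 : ∀ p, |KK' M φ p| ≤ 1 := fun p => by
    rw [abs_of_nonneg (KK'_nonneg _ _ _)]
    exact KK'_le_one _ _ _
  have i1 : Integrable (fun p => h (fun i => q * p i) * KK' M φ p) (kap D) :=
    hbI _ (hcontq.mul (KK'_cont M φ)) ⟨H * 1, fun p => by
      rw [abs_mul]
      exact mul_le_mul (hH _) (hK1 p) (abs_nonneg _) hH0⟩
  have i2 : Integrable (fun p => (h fun i => q * φ i) * KK' M φ p) (kap D) :=
    hbI _ (continuous_const.mul (KK'_cont M φ)) ⟨H * 1, fun p => by
      rw [abs_mul]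
      exact mul_le_mul (hH _) (hK1 p) (abs_nonneg _) hH0⟩
  have iK : Integrable (KK' M φ) (kap D) := hbI _ (KK'_cont M φ) ⟨1, hK1⟩
  have hdiff : TT q M h φ - (h fun i => q * φ i) = (cM M ^ D)⁻¹ *
      ∫ p, (h (fun i => q * p i) - h fun i => q * φ i) * KK' M φ p ∂(kap D) := by
    unfold TT
    simp only [sub_mul]
    rw [integral_sub i1 i2, integral_const_mul, int_KK']
    field_simp
  rw [hdiff, abs_mul, abs_of_pos (inv_pos.2 hc)]
  have hpt : ∀ p : Fin D → ℝ, (∀ i, p i ∈ Set.Ioc (-Real.pi) Real.pi) →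
      |(h (fun i => q * p i) - h fun i => q * φ i) * KK' M φ p| ≤ ε * KK' M φ p + 2 * H * e := by
    intro p hp
    rw [abs_mul, abs_of_nonneg (KK'_nonneg _ _ _)]
    by_cases hall : ∀ i, |Real.sin ((φ i - p i) / 2)| < δ / q
    · by_cases hw : ∀ i, |φ i - p i| ≤ Real.pi * (δ / q)
      · have h1 : |h (fun i => q * p i) - h fun i => q * φ i| ≤ ε := by
          refine hu _ _ fun i => ?_
          rw [← mul_sub, abs_mul, abs_of_pos hq, abs_sub_comm]
          calc q * |φ i - p i| ≤ q * (Real.pi * (δ / q)) := mul_le_mul_of_nonneg_left (hw i) hq.le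
            _ = Real.pi * δ := by field_simp
        have h2 := mul_le_mul_of_nonneg_right h1 (KK'_nonneg M φ p)
        have : 0 ≤ 2 * H * e := by positivity
        linarith
      · push Not at hw
        obtain ⟨i, hi⟩ := hw
        rcases far rfl (hφ i) (hp i) (hall i) with h1 | h1
        · exact absurd h1 (not_le.2 hi)
        · have h2 : q * (Real.pi * (1 - δ / q)) ≤ q * |φ i| := mul_le_mul_of_nonneg_left h1.1 hq.le
          have h3 : q * (Real.pi * (1 - δ / q)) ≤ q * |p i| := mul_le_mul_of_nonneg_left h1.2 hq.le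
          have h4 : B < q * (Real.pi * (1 - δ / q)) := by
            have h41 : 1 ≤ Real.pi * (1 - δ / q) := by nlinarith
            have h42 := mul_le_mul_of_nonneg_left h41 hq.le
            linarith
          have h5 : (h fun i => q * φ i) = 0 := hB _ ⟨i, by
            rw [abs_mul, abs_of_pos hq]
            linarith⟩
          have h6 : (h fun i => q * p i) = 0 := hB _ ⟨i, by
            rw [abs_mul, abs_of_pos hq]
            linarith⟩
          rw [h5, h6, sub_zero, abs_zero, zero_mul]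
          have := mul_nonneg hε (KK'_nonneg M φ p)
          positivity
    · push Not at hall
      obtain ⟨i, hi⟩ := hall
      have h1 : KK' M φ p ≤ e := by
        have h2 : vv (φ i - p i) ^ M ≤ e := by
          rw [he]
          refine pow_le_pow_left₀ (vv_nonneg _) ?_ M
          rw [vv_sin]
          have := pow_le_pow_left₀ hη0.le hi 2
          rw [sq_abs] at this
          linarith
        unfold KK'
        rw [← mul_prod_erase univ _ (mem_univ i)]
        refine (mul_le_of_le_one_right (pow_nonneg (vv_nonneg _) _) ?_).trans h2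
        exact prod_le_one (fun _ _ => pow_nonneg (vv_nonneg _) _) fun _ _ =>
          pow_le_one₀ (vv_nonneg _) (vv_le_one _)
      have h2 : |h (fun i => q * p i) - h fun i => q * φ i| ≤ 2 * H := by
        have := abs_sub (h fun i => q * p i) (h fun i => q * φ i)
        linarith [hH fun i => q * p i, hH fun i => q * φ i]
      have h3 := mul_le_mul h2 h1 (KK'_nonneg M φ p) (by positivity)
      have := mul_nonneg hε (KK'_nonneg M φ p)
      linarith
  have hint : |∫ p, (h (fun i => q * p i) - h fun i => q * φ i) * KK' M φ p ∂(kap D)| ≤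
      ε * cM M ^ D + 2 * H * e := by
    rw [← Real.norm_eq_abs]
    refine (norm_integral_le_integral_norm _).trans ?_
    calc ∫ p, ‖(h (fun i => q * p i) - h fun i => q * φ i) * KK' M φ p‖ ∂(kap D)
        ≤ ∫ p, (ε * KK' M φ p + 2 * H * e) ∂(kap D) := by
          refine integral_mono_ae ?_ ((iK.const_mul ε).add (integrable_const _)) ?_
          · refine (i1.sub i2).norm.congr (Eventually.of_forall fun p => ?_)
            show ‖h (fun i => q * p i) * KK' M φ p - (h fun i => q * φ i) * KK' M φ p‖ =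
              ‖((h fun i => q * p i) - h fun i => q * φ i) * KK' M φ p‖
            rw [sub_mul]
          · filter_upwards [kap_ae] with p hp
            rw [Real.norm_eq_abs]
            exact hpt p fun i => (hp i).1
      _ = ε * cM M ^ D + 2 * H * e := by
          rw [integral_add (iK.const_mul ε) (integrable_const _), integral_const_mul, int_KK']
          simp
  have hinv : (cM M ^ D)⁻¹ ≤ (8 * M) ^ D := by
    have h1 : (1 / (8 * (M : ℝ))) ^ D ≤ cM M ^ D := pow_le_pow_left₀ (by positivity) (cM_lb hM) D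
    have h2 := inv_anti₀ (by positivity) h1
    rwa [one_div, inv_pow, inv_inv] at h2
  calc (cM M ^ D)⁻¹ * |∫ p, (h (fun i => q * p i) - h fun i => q * φ i) * KK' M φ p ∂(kap D)|
      ≤ (cM M ^ D)⁻¹ * (ε * cM M ^ D + 2 * H * e) :=
        mul_le_mul_of_nonneg_left hint (inv_pos.2 hc).le
    _ = ε + (cM M ^ D)⁻¹ * (2 * H * e) := by field_simp
    _ ≤ ε + (8 * M) ^ D * (2 * H * e) := by
        have := mul_le_mul_of_nonneg_right hinv (by positivity : 0 ≤ 2 * H * e)
        linarith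
    _ = _ := by rw [he]; ring

end Pool.Agent.X134.SC
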