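import Pool.Agent.X134.SC.Comp

/-!
# Comparison of measures on compactly supported functions of the rescaled variables
-/

set_option autoImplicit false
open Finset MeasureTheory Filter Topology
open scoped ENNReal NNReal

namespace Pool.Agent.X134.SC

open Pool.Agent.X134.SM

variable {D : ℕ}

/-- approximation by Bernstein polynomials in the first variable -/
lemma bern {g : ℝ → (Fin D → ℝ) → ℝ} (hg : Continuous fun x : ℝ × (Fin D → ℝ) => g x.1 x.2) {B : ℝ}
    (hB : ∀ u P, (∃ i, B < |P i|) → g u P = 0) {ε : ℝ} (hε : 0 < ε) : ∃ m : ℕ,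
      ∀ u ∈ Set.Icc (0 : ℝ) 1, ∀ P : Fin D → ℝ,
        |g u P - ∑ k ∈ range (m + 1), (bernsteinPolynomial ℝ m k).eval u * g (k / m) P| ≤ ε := by
  have hYc : IsCompact (Set.univ.pi fun _ : Fin D => Set.Icc (-B) B) :=
    isCompact_univ_pi fun _ => isCompact_Icc
  have : CompactSpace (Set.univ.pi fun _ : Fin D => Set.Icc (-B) B) :=
    isCompact_iff_compactSpace.1 hYc
  have hc : Continuous fun x : unitInterval × (Set.univ.pi fun _ : Fin D => Set.Icc (-B) B) =>
      g x.1 x.2 := hg.comp ((continuous_subtype_val.comp continuous_fst).prodMk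
        (continuous_subtype_val.comp continuous_snd))
  obtain ⟨F, hF⟩ : ∃ F : C(unitInterval, C(Set.univ.pi fun _ : Fin D => Set.Icc (-B) B, ℝ)),
      F = ContinuousMap.curry ⟨_, hc⟩ := ⟨_, rfl⟩
  have hFv : ∀ u P, F u P = g u P := fun u P => by rw [hF]; rfl
  have hlim := bernsteinApproximation_uniform F
  obtain ⟨m, hm⟩ := eventually_atTop.1 (Metric.tendsto_nhds.1 hlim ε hε)
  refine ⟨m, fun u hu P => ?_⟩
  by_cases hP : P ∈ Set.univ.pi fun _ : Fin D => Set.Icc (-B) B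
  · have h1 := hm m le_rfl
    have h2 := (ContinuousMap.dist_apply_le_dist (f := bernsteinApproximation m F) (g := F)
      ⟨u, hu⟩).trans_lt h1
    have h3 := (ContinuousMap.dist_apply_le_dist (f := bernsteinApproximation m F ⟨u, hu⟩)
      (g := F ⟨u, hu⟩) ⟨P, hP⟩).trans_lt h2
    rw [dist_comm, Real.dist_eq, hFv] at h3
    refine (le_of_eq ?_).trans h3.le
    congr 2
    rw [bernsteinApproximation.apply, ContinuousMap.sum_apply, Finset.sum_range]
    refine sum_congr rfl fun k _ => ?_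
    rw [ContinuousMap.smul_apply, hFv, bernstein_apply]
    simp only [bernsteinPolynomial, Polynomial.eval_mul, Polynomial.eval_pow, Polynomial.eval_sub,
      Polynomial.eval_natCast, Polynomial.eval_X, Polynomial.eval_one, smul_eq_mul]
    rfl
  · have hP' : ∃ i, B < |P i| := by
      by_contra hcon
      push Not at hcon
      exact hP (Set.mem_univ_pi.2 fun i => abs_le.1 (hcon i))
    rw [hB u P hP']
    have : ∑ k ∈ range (m + 1), (bernsteinPolynomial ℝ m k).eval u * g (k / m) P = 0 :=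
      sum_eq_zero fun k _ => by rw [hB _ P hP', mul_zero]
    rw [this, sub_zero, abs_zero]
    exact hε.le

/-- the test function in the rescaled variables -/
noncomputable def scl (q : ℝ) (f : ℝ × (Fin D → ℝ) → ℝ) (p : ℝ × (Fin D → ℂ)) : ℝ :=
  if 0 < p.1 then f (-(q * Real.log p.1), fun i => q * ag p i) else 0

lemma scl_meas (q : ℝ) {f : ℝ × (Fin D → ℝ) → ℝ} (hf : Continuous f) : Measurable (scl q f) := by
  unfold scl
  refine Measurable.ite (measurableSet_lt measurable_const measurable_fst) ?_ measurable_const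
  exact hf.measurable.comp (((Real.measurable_log.comp measurable_fst).const_mul q).neg.prodMk
    (measurable_pi_lambda _ fun i => (ag_meas i).const_mul q))

/-- the function of `u = λ ^ q` -/
noncomputable def gf (f : ℝ × (Fin D → ℝ) → ℝ) (u₀ u : ℝ) (P : Fin D → ℝ) : ℝ :=
  f (-Real.log (max u u₀), P) / max u u₀

lemma gf_cont {f : ℝ × (Fin D → ℝ) → ℝ} (hf : Continuous f) {u₀ : ℝ} (h0 : 0 < u₀) :
    Continuous fun x : ℝ × (Fin D → ℝ) => gf f u₀ x.1 x.2 := by
  unfold gf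
  have h1 : ∀ x : ℝ × (Fin D → ℝ), max x.1 u₀ ≠ 0 := fun x => (lt_max_of_lt_right h0).ne'
  have h2 : Continuous fun x : ℝ × (Fin D → ℝ) => max x.1 u₀ := continuous_fst.max continuous_const
  exact (hf.comp (((h2.log h1).neg).prodMk continuous_snd)).div h2 h1

lemma scl_eq {f : ℝ × (Fin D → ℝ) → ℝ} {B : ℝ}
    (hf0 : ∀ x : ℝ × (Fin D → ℝ), B < |x.1| ∨ (∃ i, B < |x.2 i|) → f x = 0) {q : ℕ} (hq : 1 ≤ q)
    (hB : 0 ≤ B) {p : ℝ × (Fin D → ℂ)} (hp : p ∈ KK D) : scl q f p =
      p.1 ^ q * gf f (Real.exp (-(B + 1))) (p.1 ^ q) (fun i => q * ag p i) := by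
  unfold scl
  by_cases h0 : 0 < p.1
  · rw [if_pos h0]
    have hu : 0 < p.1 ^ q := pow_pos h0 q
    have hlog : -Real.log (p.1 ^ q) = -(q * Real.log p.1) := by rw [Real.log_pow]
    unfold gf
    by_cases h1 : Real.exp (-(B + 1)) ≤ p.1 ^ q
    · rw [max_eq_left h1, hlog]
      field_simp
    · push Not at h1
      rw [max_eq_right h1.le, Real.log_exp, neg_neg]
      have h2 : f (B + 1, fun i => q * ag p i) = 0 := hf0 _ (Or.inl (by
        show B < |B + 1|
        rw [abs_of_pos (by linarith)]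
        linarith))
      have h3 : f (-(q * Real.log p.1), fun i => q * ag p i) = 0 := by
        refine hf0 _ (Or.inl ?_)
        show B < |-(q * Real.log p.1)|
        rw [← hlog]
        have h4 := Real.log_lt_log hu h1
        rw [Real.log_exp] at h4
        rw [abs_of_pos (by linarith)]
        linarith
      rw [h2, h3, zero_div, mul_zero]
  · have h1 : p.1 = 0 := le_antisymm (not_lt.1 h0) hp.1.1
    rw [if_neg h0, h1, zero_pow (by omega), zero_mul]

lemma bern_le_one {m k : ℕ} (hk : k ∈ range (m + 1)) {u : ℝ} (hu : u ∈ Set.Icc (0 : ℝ) 1) :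
    0 ≤ (bernsteinPolynomial ℝ m k).eval u ∧ (bernsteinPolynomial ℝ m k).eval u ≤ 1 := by
  have h0 : ∀ j, 0 ≤ (bernsteinPolynomial ℝ m j).eval u := by
    intro j
    simp only [bernsteinPolynomial, Polynomial.eval_mul, Polynomial.eval_pow, Polynomial.eval_sub,
      Polynomial.eval_natCast, Polynomial.eval_X, Polynomial.eval_one]
    have h1 := hu.1
    have h2 : 0 ≤ 1 - u := by linarith [hu.2]
    positivity
  refine ⟨h0 k, ?_⟩
  have h1 : ∑ j ∈ range (m + 1), (bernsteinPolynomial ℝ m j).eval u = 1 := by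
    have h2 := congrArg (Polynomial.eval u) (bernsteinPolynomial.sum ℝ m)
    rwa [Polynomial.eval_finsetSum, Polynomial.eval_one] at h2
  rw [← h1]
  exact single_le_sum (f := fun j => (bernsteinPolynomial ℝ m j).eval u) (fun j _ => h0 j) hk

lemma TT_cont {q : ℝ} {M : ℕ} {h : (Fin D → ℝ) → ℝ} {H : ℝ} (hh : Continuous h)
    (hH : ∀ P, |h P| ≤ H) : Continuous (TT q M h) := by
  have hcontq : Continuous fun p : Fin D → ℝ => h fun i => q * p i :=
    hh.comp (continuous_pi fun i => continuous_const.mul (continuous_apply i))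
  unfold TT
  refine continuous_const.mul ?_
  refine continuous_of_dominated (bound := fun _ => H * 1) (fun φ =>
    (hcontq.mul (KK'_cont M φ)).aestronglyMeasurable) (fun φ => Eventually.of_forall fun p => ?_)
    (integrable_const _) (Eventually.of_forall fun p => ?_)
  · rw [norm_mul, Real.norm_eq_abs, Real.norm_eq_abs, abs_of_nonneg (KK'_nonneg _ _ _)]
    exact mul_le_mul (hH _) (KK'_le_one _ _ _) (KK'_nonneg _ _ _) ((abs_nonneg _).trans (hH 0))
  · refine continuous_const.mul ?_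
    unfold KK'
    exact continuous_finsetProd _ fun i _ =>
      (vv_cont.comp ((continuous_apply i).sub continuous_const)).pow M

lemma TT_int {q : ℝ} {M t : ℕ} {h : (Fin D → ℝ) → ℝ} {H : ℝ} (hh : Continuous h)
    (hH : ∀ P, |h P| ≤ H) {Q : Measure (ℝ × (Fin D → ℂ))} [IsFiniteMeasure Q] (hQ : Q (KK D)ᶜ = 0) :
    Integrable (fun p => p.1 ^ t * TT q M h (ag p)) Q := by
  have hH0 : 0 ≤ H := (abs_nonneg _).trans (hH 0)
  refine Integrable.mono' (integrable_const (1 * (|(cM M ^ D)⁻¹| * H))) ?_ ?_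
  · exact ((measurable_fst.pow_const t).mul ((TT_cont hh hH).measurable.comp
      (measurable_pi_lambda _ fun i => ag_meas i))).aestronglyMeasurable
  · filter_upwards [ae_KK hQ] with p hp
    rw [Real.norm_eq_abs, abs_mul, abs_pow]
    refine mul_le_mul (pow_le_one₀ (abs_nonneg _) (abs_le.2 ⟨by linarith [hp.1.1], hp.1.2⟩)) ?_
      (abs_nonneg _) zero_le_one
    unfold TT
    rw [abs_mul]
    refine mul_le_mul_of_nonneg_left ?_ (abs_nonneg _)
    have h1 := norm_integral_le_of_norm_le_const (μ := kap D) (C := H * 1)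
      (f := fun p' => h (fun i => q * p' i) * KK' M (ag p) p') (Eventually.of_forall fun p' => by
        rw [norm_mul, Real.norm_eq_abs, Real.norm_eq_abs, abs_of_nonneg (KK'_nonneg _ _ _)]
        exact mul_le_mul (hH _) (KK'_le_one _ _ _) (KK'_nonneg _ _ _) hH0)
    simpa using h1

lemma pow_int (t : ℕ) {Q : Measure (ℝ × (Fin D → ℂ))} [IsFiniteMeasure Q] (hQ : Q (KK D)ᶜ = 0) :
    Integrable (fun p : ℝ × (Fin D → ℂ) => p.1 ^ t) Q := by
  refine Integrable.mono' (integrable_const (1 : ℝ)) (measurable_fst.pow_const t).aestronglyMeasurable ?_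
  filter_upwards [ae_KK hQ] with p hp
  rw [Real.norm_eq_abs, abs_pow]
  exact pow_le_one₀ (abs_nonneg _) (abs_le.2 ⟨by linarith [hp.1.1], hp.1.2⟩)

lemma mom_pow (t : ℕ) (Q : Measure (ℝ × (Fin D → ℂ))) :
    mom Q (t, 0) = ((∫ p, p.1 ^ t ∂Q : ℝ) : ℂ) := by
  unfold mom mn
  rw [← integral_complex_ofReal]
  simp

lemma scl_int {f : ℝ × (Fin D → ℝ) → ℝ} (hf : Continuous f) {H : ℝ} (hH : ∀ x, |f x| ≤ H) (q : ℝ)
    (Q : Measure (ℝ × (Fin D → ℂ))) [IsFiniteMeasure Q] : Integrable (scl q f) Q := by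
  refine Integrable.mono' (integrable_const H) (scl_meas q hf).aestronglyMeasurable
    (Eventually.of_forall fun p => ?_)
  rw [Real.norm_eq_abs]
  unfold scl
  split_ifs
  · exact hH _
  · rw [abs_zero]
    exact (abs_nonneg _).trans (hH 0)

/-- **Comparison of measures on the rescaled test functions.** -/
theorem compare_scl {f : ℝ × (Fin D → ℝ) → ℝ} (hf : Continuous f) {B : ℝ} (hB : 0 ≤ B)
    (hf0 : ∀ x : ℝ × (Fin D → ℝ), B < |x.1| ∨ (∃ i, B < |x.2 i|) → f x = 0) (B₀ : ℝ) {ε : ℝ}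
    (hε : 0 < ε) : ∃ q₀ : ℕ, 1 ≤ q₀ ∧ ∀ q : ℕ, q₀ ≤ q →
      ∀ (Q Q' : Measure (ℝ × (Fin D → ℂ))) [IsFiniteMeasure Q] [IsFiniteMeasure Q'],
        Q (KK D)ᶜ = 0 → Q' (KK D)ᶜ = 0 →
        (∀ s : ℕ × (Fin D → ℤ), s.1 ≤ q ^ 4 → (∀ i, |s.2 i| ≤ ((q ^ 4 : ℕ) : ℤ)) →
          ‖mom Q s - mom Q' s‖ ≤ 1 / (q : ℝ) ^ (3 * D + 1)) →
        ∫ p, p.1 ^ q ∂Q' ≤ B₀ →
        |∫ p, scl q f p ∂Q - ∫ p, scl q f p ∂Q'| ≤ ε := by
  obtain ⟨ε₁, hε₁, hε₁'⟩ : ∃ ε₁ : ℝ, 0 < ε₁ ∧ 2 * ε₁ * (2 * |B₀| + 1) ≤ ε / 2 := by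
    refine ⟨ε / (4 * (2 * |B₀| + 1)), by positivity, le_of_eq ?_⟩
    field_simp
    ring
  obtain ⟨u₀, hu₀⟩ : ∃ u₀ : ℝ, u₀ = Real.exp (-(B + 1)) := ⟨_, rfl⟩
  have hu0 : 0 < u₀ := by rw [hu₀]; exact Real.exp_pos _
  have hgc := gf_cont hf hu0
  have hgB : ∀ u (P : Fin D → ℝ), (∃ i, B < |P i|) → gf f u₀ u P = 0 := by
    intro u P hP
    unfold gf
    rw [hf0 _ (Or.inr hP), zero_div]
  obtain ⟨m, hm⟩ := bern hgc hgB hε₁
  -- the functions of the momentum
  have hkc : ∀ k : ℕ, Continuous (gf f u₀ ((k : ℝ) / m)) := fun k =>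
    hgc.comp (continuous_const.prodMk continuous_id)
  have hbd : ∃ H : ℝ, ∀ k P, |gf f u₀ ((k : ℝ) / m) P| ≤ H := by
    have hcs : HasCompactSupport f := by
      refine HasCompactSupport.of_support_subset_isCompact
        ((isCompact_Icc (a := -B) (b := B)).prod
          (isCompact_univ_pi fun _ : Fin D => isCompact_Icc (a := -B) (b := B))) fun x hx => ?_
      constructor
      · by_contra hcon
        refine hx (hf0 x (Or.inl ?_))
        by_contra h'
        exact hcon (abs_le.1 (not_lt.1 h'))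
      · rw [Set.mem_univ_pi]
        intro i
        by_contra hcon
        refine hx (hf0 x (Or.inr ⟨i, ?_⟩))
        by_contra h'
        exact hcon (abs_le.1 (not_lt.1 h'))
    obtain ⟨H, hH⟩ := hcs.exists_bound_of_continuous hf
    refine ⟨H / u₀, fun k P => ?_⟩
    unfold gf
    have h1 : 0 < max ((k : ℝ) / m) u₀ := lt_max_of_lt_right hu0
    rw [abs_div, abs_of_pos h1]
    have h2 := hH (-Real.log (max ((k : ℝ) / m) u₀), P)
    rw [Real.norm_eq_abs] at h2
    exact div_le_div₀ ((abs_nonneg _).trans h2) h2 hu0 (le_max_right _ _)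
  obtain ⟨H, hH⟩ := hbd
  have hH0 : 0 ≤ H := (abs_nonneg _).trans (hH 0 0)
  obtain ⟨ε₂, hε₂, hε₂'⟩ : ∃ ε₂ : ℝ, 0 < ε₂ ∧ (m + 1) * ε₂ ≤ ε₁ :=
    ⟨ε₁ / (m + 1), by positivity, le_of_eq (by field_simp)⟩
  have hap := fun k : ℕ => approx (hkc k) (fun P hP => hgB _ P hP) (hH k) hε₂
  choose qa hqa1 hqa2 using hap
  -- the coefficients of the Bernstein polynomials
  obtain ⟨c, hc⟩ : ∃ c : ℕ → ℕ → ℝ, c = fun k j => (bernsteinPolynomial ℝ m k).coeff j := ⟨_, rfl⟩
  obtain ⟨N, hN⟩ : ∃ N : ℕ, ∀ k ∈ range (m + 1), (bernsteinPolynomial ℝ m k).natDegree < N :=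
    ⟨∑ k ∈ range (m + 1), ((bernsteinPolynomial ℝ m k).natDegree + 1), fun k hk =>
      Nat.lt_of_lt_of_le (Nat.lt_succ_self _) (single_le_sum
        (f := fun k => (bernsteinPolynomial ℝ m k).natDegree + 1) (fun _ _ => Nat.zero_le _) hk)⟩
  have hev : ∀ k ∈ range (m + 1), ∀ u, (bernsteinPolynomial ℝ m k).eval u =
      ∑ j ∈ range N, c k j * u ^ j := by
    intro k hk u
    rw [hc]
    exact Polynomial.eval_eq_sum_range' (hN k hk) u
  obtain ⟨C₁, hC₁⟩ : ∃ C₁ : ℝ, C₁ = ∑ k ∈ range (m + 1), ∑ j ∈ range N, |c k j| * (8 ^ D * H) :=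
    ⟨_, rfl⟩
  have hC₁0 : 0 ≤ C₁ := by
    rw [hC₁]
    exact sum_nonneg fun _ _ => sum_nonneg fun _ _ => by positivity
  obtain ⟨q₁, hq₁⟩ := exists_nat_ge (2 * C₁ / ε)
  refine ⟨∑ k ∈ range (m + 1), qa k + q₁ + (N + D + 1), by omega, fun q hq Q Q' _ _ hQ hQ' hmom
    hmass => ?_⟩
  have hqN : N + D + 1 ≤ q := by omega
  have hq1 : 1 ≤ q := by omega
  have hq1' : (1 : ℝ) ≤ q := by exact_mod_cast hq1
  have hq0' : (0 : ℝ) < q := by linarith
  have hqk : ∀ k ∈ range (m + 1), qa k ≤ q := fun k hk => by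
    have := single_le_sum (f := qa) (fun _ _ => Nat.zero_le _) hk
    omega
  -- the approximating function
  obtain ⟨A, hA⟩ : ∃ A : ℝ × (Fin D → ℂ) → ℝ, A = fun p => ∑ k ∈ range (m + 1), ∑ j ∈ range N,
      c k j * (p.1 ^ (q * (j + 1)) * TT q (q ^ 3) (gf f u₀ ((k : ℝ) / m)) (ag p)) := ⟨_, rfl⟩
  have hpt : ∀ p ∈ KK D, |scl q f p - A p| ≤ 2 * ε₁ * p.1 ^ q := by
    intro p hp
    have hu : p.1 ^ q ∈ Set.Icc (0 : ℝ) 1 := ⟨pow_nonneg hp.1.1 q, pow_le_one₀ hp.1.1 hp.1.2⟩
    have hA' : A p = p.1 ^ q * ∑ k ∈ range (m + 1), (bernsteinPolynomial ℝ m k).eval (p.1 ^ q) *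
        TT q (q ^ 3) (gf f u₀ ((k : ℝ) / m)) (ag p) := by
      rw [hA, mul_sum]
      refine sum_congr rfl fun k hk => ?_
      rw [hev k hk, sum_mul, mul_sum]
      refine sum_congr rfl fun j _ => ?_
      rw [← pow_mul]
      ring
    rw [scl_eq hf0 hq1 hB hp, ← hu₀, hA', ← mul_sub, abs_mul, abs_of_nonneg hu.1, mul_comm]
    refine mul_le_mul_of_nonneg_right ?_ hu.1
    have h1 := hm (p.1 ^ q) hu fun i => q * ag p i
    have h2 : |∑ k ∈ range (m + 1), (bernsteinPolynomial ℝ m k).eval (p.1 ^ q) *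
        gf f u₀ ((k : ℝ) / m) (fun i => q * ag p i) -
        ∑ k ∈ range (m + 1), (bernsteinPolynomial ℝ m k).eval (p.1 ^ q) *
        TT q (q ^ 3) (gf f u₀ ((k : ℝ) / m)) (ag p)| ≤ ε₁ := by
      rw [← sum_sub_distrib]
      refine (abs_sum_le_sum_abs _ _).trans ?_
      calc ∑ k ∈ range (m + 1), |(bernsteinPolynomial ℝ m k).eval (p.1 ^ q) *
            gf f u₀ ((k : ℝ) / m) (fun i => q * ag p i) -
            (bernsteinPolynomial ℝ m k).eval (p.1 ^ q) *
            TT q (q ^ 3) (gf f u₀ ((k : ℝ) / m)) (ag p)| ≤ ∑ k ∈ range (m + 1), ε₂ := by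
            refine sum_le_sum fun k hk => ?_
            have hb := bern_le_one hk hu
            rw [← mul_sub, abs_mul, abs_of_nonneg hb.1, abs_sub_comm]
            have h3 := hqa2 k q (hqk k hk) (ag p) (ag_mem p)
            calc _ ≤ 1 * ε₂ := mul_le_mul hb.2 h3 (abs_nonneg _) zero_le_one
              _ = ε₂ := one_mul _
        _ = (m + 1) * ε₂ := by
            rw [sum_const, card_range, nsmul_eq_mul]
            push_cast
            ring
        _ ≤ ε₁ := hε₂'
    have h3 := abs_sub_le (gf f u₀ (p.1 ^ q) fun i => q * ag p i)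
      (∑ k ∈ range (m + 1), (bernsteinPolynomial ℝ m k).eval (p.1 ^ q) *
        gf f u₀ ((k : ℝ) / m) (fun i => q * ag p i))
      (∑ k ∈ range (m + 1), (bernsteinPolynomial ℝ m k).eval (p.1 ^ q) *
        TT q (q ^ 3) (gf f u₀ ((k : ℝ) / m)) (ag p))
    linarith
  have hbf : ∃ H', ∀ x, |f x| ≤ H' := by
    have hcs : HasCompactSupport f := by
      refine HasCompactSupport.of_support_subset_isCompact
        ((isCompact_Icc (a := -B) (b := B)).prod
          (isCompact_univ_pi fun _ : Fin D => isCompact_Icc (a := -B) (b := B))) fun x hx => ?_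
      constructor
      · by_contra hcon
        refine hx (hf0 x (Or.inl ?_))
        by_contra h'
        exact hcon (abs_le.1 (not_lt.1 h'))
      · rw [Set.mem_univ_pi]
        intro i
        by_contra hcon
        refine hx (hf0 x (Or.inr ⟨i, ?_⟩))
        by_contra h'
        exact hcon (abs_le.1 (not_lt.1 h'))
    obtain ⟨H', hH'⟩ := hcs.exists_bound_of_continuous hf
    exact ⟨H', hH'⟩
  obtain ⟨H', hH'⟩ := hbf
  have hAint : ∀ (Q : Measure (ℝ × (Fin D → ℂ))) [IsFiniteMeasure Q], Q (KK D)ᶜ = 0 →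
      Integrable A Q ∧ ∫ p, A p ∂Q = ∑ k ∈ range (m + 1), ∑ j ∈ range N,
        c k j * ∫ p, p.1 ^ (q * (j + 1)) * TT q (q ^ 3) (gf f u₀ ((k : ℝ) / m)) (ag p) ∂Q := by
    intro Q _ hQ
    have hi : ∀ k j : ℕ, Integrable (fun p : ℝ × (Fin D → ℂ) => c k j * (p.1 ^ (q * (j + 1)) *
        TT q (q ^ 3) (gf f u₀ ((k : ℝ) / m)) (ag p))) Q := fun k j =>
      (TT_int (hkc k) (hH k) hQ).const_mul _
    rw [hA]
    refine ⟨integrable_finsetSum _ fun k _ => integrable_finsetSum _ fun j _ => hi k j, ?_⟩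
    rw [integral_finsetSum _ fun k _ => integrable_finsetSum _ fun j _ => hi k j]
    refine sum_congr rfl fun k _ => ?_
    rw [integral_finsetSum _ fun j _ => hi k j]
    refine sum_congr rfl fun j _ => ?_
    rw [integral_const_mul]
  have hnear : ∀ (Q : Measure (ℝ × (Fin D → ℂ))) [IsFiniteMeasure Q], Q (KK D)ᶜ = 0 →
      |∫ p, scl q f p ∂Q - ∫ p, A p ∂Q| ≤ 2 * ε₁ * ∫ p, p.1 ^ q ∂Q := by
    intro Q _ hQ
    have h1 := scl_int hf hH' q Q
    rw [← integral_sub h1 (hAint Q hQ).1, ← Real.norm_eq_abs, ← integral_const_mul]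
    refine (norm_integral_le_integral_norm _).trans (integral_mono_ae ?_
      ((pow_int q hQ).const_mul _) ?_)
    · exact (h1.sub (hAint Q hQ).1).norm
    · filter_upwards [ae_KK hQ] with p hp
      rw [Real.norm_eq_abs]
      exact hpt p hp
  have hδ0 : 0 ≤ 1 / (q : ℝ) ^ (3 * D + 1) := by positivity
  have hAdiff : |∫ p, A p ∂Q - ∫ p, A p ∂Q'| ≤ ε / 2 := by
    rw [(hAint Q hQ).2, (hAint Q' hQ').2, ← sum_sub_distrib]
    simp only [← sum_sub_distrib, ← mul_sub]
    refine (abs_sum_le_sum_abs _ _).trans ?_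
    calc ∑ k ∈ range (m + 1), |∑ j ∈ range N, c k j *
          ((∫ p, p.1 ^ (q * (j + 1)) * TT q (q ^ 3) (gf f u₀ ((k : ℝ) / m)) (ag p) ∂Q) -
            ∫ p, p.1 ^ (q * (j + 1)) * TT q (q ^ 3) (gf f u₀ ((k : ℝ) / m)) (ag p) ∂Q')|
        ≤ ∑ k ∈ range (m + 1), ∑ j ∈ range N, |c k j| * (8 ^ D * H) * (1 / q) := by
          refine sum_le_sum fun k _ => (abs_sum_le_sum_abs _ _).trans (sum_le_sum fun j hj => ?_)
          rw [abs_mul, mul_assoc]
          refine mul_le_mul_of_nonneg_left ?_ (abs_nonneg _)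
          have hj' : j + 1 ≤ N := by
            have := mem_range.1 hj
            omega
          have hr : q * (j + 1) + D * q ^ 3 ≤ q ^ 4 := by
            have h1 : q * (j + 1) ≤ q * N := Nat.mul_le_mul_left _ hj'
            have h2 : q * N ≤ q ^ 3 * N := by
              refine Nat.mul_le_mul_right _ ?_
              exact Nat.le_self_pow (by norm_num) q
            have h3 : q ^ 3 * N + D * q ^ 3 ≤ q ^ 4 := by
              have : q ^ 3 * N + D * q ^ 3 = q ^ 3 * (N + D) := by ring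
              rw [this, pow_succ q 3]
              exact Nat.mul_le_mul_left _ (by omega)
            omega
          have h1 := compare_TT (q := q) (Nat.one_le_pow 3 q (by omega)) hr (hkc k) (hH k) hQ hQ'
            hδ0 hmom
          refine h1.trans (le_of_eq ?_)
          push_cast
          rw [mul_pow, ← pow_mul, pow_succ (q : ℝ) (3 * D)]
          field_simp
      _ = C₁ / q := by
          rw [hC₁, sum_div]
          refine sum_congr rfl fun k _ => ?_
          rw [sum_div]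
          refine sum_congr rfl fun j _ => ?_
          ring
      _ ≤ ε / 2 := by
          have h1 : (q₁ : ℝ) ≤ q := by exact_mod_cast (by omega : q₁ ≤ q)
          have h2 := hq₁.trans h1
          rw [div_le_iff₀ hε] at h2
          rw [div_le_iff₀ hq0']
          linarith
  have hmassQ : ∫ p, p.1 ^ q ∂Q ≤ |B₀| + 1 := by
    have h1 := hmom (q, 0) (Nat.le_self_pow (by norm_num) q) fun i => by
      show |(0 : ℤ)| ≤ _
      rw [abs_zero]
      positivity
    rw [mom_pow, mom_pow, ← Complex.ofReal_sub, Complex.norm_real, Real.norm_eq_abs] at h1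
    have h2 : 1 / (q : ℝ) ^ (3 * D + 1) ≤ 1 := by
      rw [div_le_one (by positivity)]
      exact one_le_pow₀ hq1'
    have h3 := (abs_le.1 (h1.trans h2)).2
    have h4 := le_abs_self B₀
    linarith
  have hmassQ' : ∫ p, p.1 ^ q ∂Q' ≤ |B₀| := hmass.trans (le_abs_self _)
  have h1 := hnear Q hQ
  have h2 := hnear Q' hQ'
  have h3 : 2 * ε₁ * ∫ p, p.1 ^ q ∂Q ≤ 2 * ε₁ * (|B₀| + 1) :=
    mul_le_mul_of_nonneg_left hmassQ (by positivity)
  have h4 : 2 * ε₁ * ∫ p, p.1 ^ q ∂Q' ≤ 2 * ε₁ * |B₀| :=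
    mul_le_mul_of_nonneg_left hmassQ' (by positivity)
  have h5 : 2 * ε₁ * (|B₀| + 1) + 2 * ε₁ * |B₀| ≤ ε / 2 := by
    refine le_trans (le_of_eq ?_) hε₁'
    ring
  rw [abs_le] at h1 h2 hAdiff ⊢
  constructor <;> linarith [h1.1, h1.2, h2.1, h2.2, hAdiff.1, hAdiff.2]

end Pool.Agent.X134.SC
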