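import Pool.Agent.X134.SC.Bnd
import Pool.Agent.X134.SC.Test

/-!
# The scaling limit of the two-particle measure of the lattice
-/

set_option autoImplicit false
open Finset MeasureTheory Filter Topology
open scoped ENNReal NNReal

namespace Pool.Agent.X134.SC

open Pool.Agent.X134.SM

variable {D : ℕ}

/-! ### the momentum space -/

/-- the cube -/
def cube (D : ℕ) : Set (Fin D → ℝ) := Set.univ.pi fun _ => Set.Ioc (-Real.pi) Real.pi

lemma cube_meas : MeasurableSet (cube D) := MeasurableSet.univ_pi fun _ => measurableSet_Ioc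

lemma kap_eq : kap D = ENNReal.ofReal ((1 / (2 * Real.pi)) ^ D) •
    (volume : Measure (Fin D → ℝ)).restrict (cube D) := by
  have hpi := Real.pi_pos
  unfold kap
  refine Measure.pi_eq fun s hs => ?_
  rw [Measure.smul_apply, Measure.restrict_apply (MeasurableSet.univ_pi hs), cube,
    ← Set.pi_inter_distrib, volume_pi, Measure.pi_pi, smul_eq_mul]
  unfold nu1
  simp only [Measure.smul_apply, smul_eq_mul]
  rw [Finset.prod_mul_distrib, prod_const, card_univ, Fintype.card_fin,
    ENNReal.ofReal_pow (by positivity)]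
  congr 1
  exact prod_congr rfl fun i _ => (Measure.restrict_apply (hs i)).symm

lemma kap2_eq : (kap D).prod (kap D) = ENNReal.ofReal (((1 / (2 * Real.pi)) ^ D) ^ 2) •
    (volume : Measure ((Fin D → ℝ) × (Fin D → ℝ))).restrict (cube D ×ˢ cube D) := by
  have hpi := Real.pi_pos
  refine Measure.prod_eq fun s t hs ht => ?_
  rw [kap_eq, Measure.smul_apply, Measure.smul_apply, Measure.smul_apply,
    Measure.restrict_apply (hs.prod ht), Measure.restrict_apply hs, Measure.restrict_apply ht,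
    Set.prod_inter_prod, Measure.volume_eq_prod, Measure.prod_prod, smul_eq_mul, smul_eq_mul,
    smul_eq_mul, ENNReal.ofReal_pow (by positivity) 2]
  ring

lemma int_kap2 (F : (Fin D → ℝ) × (Fin D → ℝ) → ℝ) : ∫ x, F x ∂((kap D).prod (kap D)) =
    ((1 / (2 * Real.pi)) ^ D) ^ 2 * ∫ x, (cube D ×ˢ cube D).indicator F x := by
  have hpi := Real.pi_pos
  rw [kap2_eq, integral_smul_measure, ENNReal.toReal_ofReal (by positivity), smul_eq_mul,
    integral_indicator (cube_meas.prod cube_meas)]

lemma scale_int (F : (Fin D → ℝ) × (Fin D → ℝ) → ℝ) {q : ℝ} (hq : 0 ≤ q) :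
    ∫ y, F (q⁻¹ • y) = q ^ (2 * D) * ∫ x, F x := by
  have hA : (volume : Measure ((Fin D → ℝ) × (Fin D → ℝ))).IsAddHaarMeasure :=
    Measure.prod.instIsAddHaarMeasure _ _
  have h := Measure.integral_comp_inv_smul_of_nonneg
    (volume : Measure ((Fin D → ℝ) × (Fin D → ℝ))) F hq
  rw [h, Module.finrank_prod, Module.finrank_fin_fun, ← two_mul, smul_eq_mul]

/-! ### the mass -/

lemma int_exp {c : ℝ} (hc : 0 < c) : ∫ x, Real.exp (-(c * |x|)) ∂nu1 ≤ 1 / c := by
  have hpi := Real.pi_gt_three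
  rw [int_nu1']
  have h1 : ∫ x in (0 : ℝ)..Real.pi, Real.exp (-(c * |x|)) ≤ 1 / c := by
    have e1 : ∫ x in (0 : ℝ)..Real.pi, Real.exp (-(c * |x|)) =
        ∫ x in (0 : ℝ)..Real.pi, Real.exp (-c * x) := by
      refine intervalIntegral.integral_congr fun x hx => ?_
      rw [Set.uIcc_of_le (by linarith)] at hx
      show Real.exp (-(c * |x|)) = Real.exp (-c * x)
      rw [abs_of_nonneg hx.1]
      congr 1
      ring
    rw [e1, intervalIntegral.integral_comp_mul_left _ (by linarith : -c ≠ 0), integral_exp, smul_eq_mul]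
    have e2 : (-c)⁻¹ * (Real.exp (-c * Real.pi) - Real.exp (-c * 0)) =
        (1 - Real.exp (-c * Real.pi)) / c := by
      rw [mul_zero, Real.exp_zero]
      field_simp
      ring
    rw [e2]
    have := Real.exp_pos (-c * Real.pi)
    exact div_le_div_of_nonneg_right (by linarith) hc.le
  have h2 : ∫ x in (-Real.pi)..0, Real.exp (-(c * |x|)) = ∫ x in (0 : ℝ)..Real.pi, Real.exp (-(c * |x|)) := by
    have := intervalIntegral.integral_comp_neg (a := 0) (b := Real.pi)
      (fun x : ℝ => Real.exp (-(c * |x|)))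
    rw [neg_zero] at this
    rw [← this]
    simp only [abs_neg]
  have hcont : Continuous fun x : ℝ => Real.exp (-(c * |x|)) := by fun_prop
  rw [← intervalIntegral.integral_add_adjacent_intervals (hcont.intervalIntegrable (-Real.pi) 0)
    (hcont.intervalIntegrable 0 Real.pi), h2]
  have h3 : 1 / (2 * Real.pi) * ((∫ x in (0 : ℝ)..Real.pi, Real.exp (-(c * |x|))) +
      ∫ x in (0 : ℝ)..Real.pi, Real.exp (-(c * |x|))) ≤ 1 / (2 * Real.pi) * (1 / c + 1 / c) :=
    mul_le_mul_of_nonneg_left (by linarith) (by positivity)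
  refine h3.trans ?_
  have e3 : 1 / (2 * Real.pi) * (1 / c + 1 / c) = 1 / Real.pi * (1 / c) := by
    field_simp
    ring
  rw [e3]
  have : 1 / Real.pi ≤ 1 := by
    rw [div_le_one (by linarith)]
    linarith
  have h4 : 0 < 1 / c := by positivity
  nlinarith

section lat

variable {ι κ : Type*} [Fintype ι] [Fintype κ] [DecidableEq κ] {σ : ι → ℝ} {b : ι → Fin D → ℤ}
  {δ : ι → κ}

lemma cube_abs {k : Fin D → ℝ} (hk : k ∈ cube D) (i : Fin D) : |k i| ≤ Real.pi := by
  have := Set.mem_univ_pi.1 hk i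
  exact abs_le.2 ⟨this.1.le, this.2⟩

/-- the mass of the one-particle measure at the time `q` -/
lemma one_mass (hcl : Cl σ δ) : ∃ C : ℝ, 0 ≤ C ∧ ∀ q : ℕ, 1 ≤ q →
    (q : ℝ) ^ (D + 1) * ∫ k, Real.exp (-(q * om 1 k)) * wgt σ b δ k ∂(kap D) ≤ C := by
  have hc0 := c0_pos (D := D)
  have hc3 := c3_nonneg (κ := κ) (σ := σ) (b := b)
  refine ⟨c3 κ σ b * (2 / c0 D) * (2 / c0 D) ^ D, by positivity, fun q hq => ?_⟩
  have hq' : (0 : ℝ) < q := by exact_mod_cast hq
  obtain ⟨c, hc⟩ : ∃ c : ℝ, c = q * c0 D / 2 := ⟨_, rfl⟩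
  have hcp : 0 < c := by rw [hc]; positivity
  have hI : ∫ k : Fin D → ℝ, Real.exp (-(c * l1 k)) ∂(kap D) ≤ (1 / c) ^ D := by
    have e1 : ∀ k : Fin D → ℝ, Real.exp (-(c * l1 k)) = ∏ j, Real.exp (-(c * |k j|)) := by
      intro k
      rw [← Real.exp_sum]
      congr 1
      unfold l1
      rw [mul_sum, sum_neg_distrib]
    simp only [e1]
    unfold kap
    rw [integral_fintype_prod_eq_prod (fun _ (x : ℝ) => Real.exp (-(c * |x|))), prod_const, card_univ,
      Fintype.card_fin]
    exact pow_le_pow_left₀ (integral_nonneg fun _ => (Real.exp_pos _).le) (int_exp hcp) D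
  have hpt : ∀ k ∈ cube D, Real.exp (-(q * om 1 k)) * wgt σ b δ k ≤
      c3 κ σ b * (2 / (q * c0 D)) * Real.exp (-(c * l1 k)) := by
    intro k hk
    have h1 := om_lb (cube_abs hk)
    have h2 := wgt_le (b := b) hcl (cube_abs hk)
    have h3 : Real.exp (-(q * om 1 k)) ≤ Real.exp (-(2 * (c * l1 k))) := by
      refine Real.exp_le_exp.2 (neg_le_neg ?_)
      have : 2 * (c * l1 k) = q * (c0 D * l1 k) := by rw [hc]; ring
      rw [this]
      exact mul_le_mul_of_nonneg_left h1 hq'.le
    have h4 : c * l1 k * Real.exp (-(c * l1 k)) ≤ 1 := by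
      have := Real.add_one_le_exp (c * l1 k)
      rw [Real.exp_neg, ← div_eq_mul_inv, div_le_one (Real.exp_pos _)]
      linarith
    calc Real.exp (-(q * om 1 k)) * wgt σ b δ k
        ≤ Real.exp (-(2 * (c * l1 k))) * (c3 κ σ b * l1 k) :=
          mul_le_mul h3 h2 (wgt_nonneg _ _ _ _) (Real.exp_pos _).le
      _ = c3 κ σ b * (1 / c) * (c * l1 k * Real.exp (-(c * l1 k))) * Real.exp (-(c * l1 k)) := by
          have : Real.exp (-(2 * (c * l1 k))) = Real.exp (-(c * l1 k)) * Real.exp (-(c * l1 k)) := by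
            rw [← Real.exp_add]
            congr 1
            ring
          rw [this]
          field_simp
      _ ≤ c3 κ σ b * (1 / c) * 1 * Real.exp (-(c * l1 k)) := by
          refine mul_le_mul_of_nonneg_right (mul_le_mul_of_nonneg_left h4 (by positivity))
            (Real.exp_pos _).le
      _ = _ := by
          rw [hc]
          field_simp
  have hint : Integrable (fun k : Fin D → ℝ => Real.exp (-(c * l1 k))) (kap D) := by
    have hcont : Continuous fun k : Fin D → ℝ => Real.exp (-(c * l1 k)) := by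
      unfold l1
      fun_prop
    refine Integrable.mono' (integrable_const (1 : ℝ)) hcont.aestronglyMeasurable
      (Eventually.of_forall fun k => ?_)
    rw [Real.norm_eq_abs, Real.abs_exp, Real.exp_le_one_iff]
    have := mul_nonneg hcp.le (l1_nonneg k)
    linarith
  have h5 : ∫ k, Real.exp (-(q * om 1 k)) * wgt σ b δ k ∂(kap D) ≤
      c3 κ σ b * (2 / (q * c0 D)) * (1 / c) ^ D := by
    calc ∫ k, Real.exp (-(q * om 1 k)) * wgt σ b δ k ∂(kap D)
        ≤ ∫ k, c3 κ σ b * (2 / (q * c0 D)) * Real.exp (-(c * l1 k)) ∂(kap D) := by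
          refine integral_mono_of_nonneg (Eventually.of_forall fun k =>
            mul_nonneg (Real.exp_pos _).le (wgt_nonneg _ _ _ _)) (hint.const_mul _) ?_
          filter_upwards [kap_ae] with k hk
          exact hpt k (Set.mem_univ_pi.2 fun i => (hk i).1)
      _ = c3 κ σ b * (2 / (q * c0 D)) * ∫ k, Real.exp (-(c * l1 k)) ∂(kap D) := integral_const_mul _ _
      _ ≤ _ := mul_le_mul_of_nonneg_left hI (by positivity)
  have h6 := mul_le_mul_of_nonneg_left h5 (by positivity : 0 ≤ (q : ℝ) ^ (D + 1))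
  refine h6.trans (le_of_eq ?_)
  have e1 : (q : ℝ) ^ D * (1 / c) ^ D = (2 / c0 D) ^ D := by
    rw [← mul_pow, hc]
    congr 1
    field_simp
  calc (q : ℝ) ^ (D + 1) * (c3 κ σ b * (2 / (q * c0 D)) * (1 / c) ^ D)
      = c3 κ σ b * (q * (2 / (q * c0 D))) * ((q : ℝ) ^ D * (1 / c) ^ D) := by
        rw [pow_succ]
        ring
    _ = _ := by
        rw [e1]
        congr 2
        field_simp

end lat

end Pool.Agent.X134.SC
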