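import Pool.Agent.X134.SC.Lat

/-!
# The scaling limit of the two-particle measures
-/

set_option autoImplicit false
open Finset MeasureTheory Filter Topology
open scoped ENNReal NNReal

namespace Pool.Agent.X134.SC

open Pool.Agent.X134.SM

variable {D : ℕ}

/-- the two-particle measure of a weight -/
noncomputable def tp (w : (Fin D → ℝ) → ℝ) (a : ℝ) : Measure (ℝ × (Fin D → ℂ)) :=
  ((((kap D).prod (kap D)).withDensity fun p => ENNReal.ofReal (a * (w p.1 * w p.2)))).map Psi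

lemma int_tp {w : (Fin D → ℝ) → ℝ} (hw : Measurable w) (h0 : ∀ k, 0 ≤ w k) {a : ℝ} (ha : 0 ≤ a)
    {F : ℝ × (Fin D → ℂ) → ℝ} (hF : Measurable F) : ∫ p, F p ∂(tp w a) =
      ((1 / (2 * Real.pi)) ^ D) ^ 2 * ∫ x, (cube D ×ˢ cube D).indicator
        (fun x => a * (w x.1 * w x.2) * F (Psi x)) x := by
  unfold tp
  have hm : Measurable fun p : (Fin D → ℝ) × (Fin D → ℝ) => a * (w p.1 * w p.2) :=
    ((hw.comp measurable_fst).mul (hw.comp measurable_snd)).const_mul a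
  rw [integral_map Psi_cont.aemeasurable hF.aestronglyMeasurable,
    integral_withDensity_eq_integral_toReal_smul hm.ennreal_ofReal
      (Eventually.of_forall fun p => ENNReal.ofReal_lt_top), ← int_kap2]
  refine integral_congr_ae (Eventually.of_forall fun x => ?_)
  show (ENNReal.ofReal (a * (w x.1 * w x.2))).toReal • F (Psi x) = _
  rw [ENNReal.toReal_ofReal (mul_nonneg ha (mul_nonneg (h0 _) (h0 _))), smul_eq_mul]

/-- the assumptions on a sequence of weights -/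
structure Wt (w : ℕ → (Fin D → ℝ) → ℝ) (s : ℕ → ℝ) (c : ℝ) (W : (Fin D → ℝ) → ℝ) : Prop where
  meas : ∀ q, Measurable (w q)
  nonneg : ∀ q k, 0 ≤ w q k
  spos : ∀ q, 1 ≤ q → 0 < s q
  cnn : 0 ≤ c
  le : ∀ q, 1 ≤ q → ∀ k ∈ cube D, w q k ≤ s q * (c * l1 k)
  lim : ∀ y, nrm y ≠ 0 → Tendsto (fun q : ℕ => (q : ℝ) * w q (fun i => y i / q) / s q) atTop
    (𝓝 (W y))

lemma nrm_ne {y : Fin D → ℝ} (hy : y ≠ 0) : nrm y ≠ 0 := by
  intro h
  unfold nrm at h
  rw [Real.sqrt_eq_zero (sum_nonneg fun _ _ => sq_nonneg _)] at h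
  rw [sum_eq_zero_iff_of_nonneg fun _ _ => sq_nonneg _] at h
  exact hy (funext fun i => by simpa using h i (mem_univ i))

lemma ae_nrm (hD : 1 ≤ D) : ∀ᵐ y : (Fin D → ℝ) × (Fin D → ℝ), nrm y.1 ≠ 0 ∧ nrm y.2 ≠ 0 := by
  have hne : Nonempty (Fin D) := ⟨⟨0, hD⟩⟩
  have h1 : ∀ᵐ x : Fin D → ℝ, nrm x ≠ 0 := by
    have h2 : ∀ᵐ x : Fin D → ℝ, x ≠ 0 := by
      rw [ae_iff]
      simp only [ne_eq, not_not]
      have : {a : Fin D → ℝ | a = 0} = {0} := rfl
      rw [this]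
      exact measure_singleton 0
    filter_upwards [h2] with x hx
    exact nrm_ne hx
  have h3 : ∀ᵐ y : (Fin D → ℝ) × (Fin D → ℝ), nrm y.1 ≠ 0 :=
    Measure.quasiMeasurePreserving_fst.ae h1
  have h4 : ∀ᵐ y : (Fin D → ℝ) × (Fin D → ℝ), nrm y.2 ≠ 0 :=
    Measure.quasiMeasurePreserving_snd.ae h1
  filter_upwards [h3, h4] with y a b
  exact ⟨a, b⟩

lemma scl_Psi (q : ℝ) (f : ℝ × (Fin D → ℝ) → ℝ) (x : (Fin D → ℝ) × (Fin D → ℝ)) :
    scl q f (Psi x) = f (q * (om 1 x.1 + om 1 x.2), fun i => q * ag (Psi x) i) := by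
  unfold scl
  rw [if_pos (by exact Real.exp_pos _)]
  have h1 : Real.log (Psi x).1 = -(om 1 x.1 + om 1 x.2) := Real.log_exp _
  rw [h1]
  congr 2
  ring

lemma ag_Psi {x : (Fin D → ℝ) × (Fin D → ℝ)} {i : Fin D}
    (h : x.1 i + x.2 i ∈ Set.Ioc (-Real.pi) Real.pi) : ag (Psi x) i = x.1 i + x.2 i := by
  unfold ag Psi
  show Complex.arg (Complex.exp (Complex.I * ((x.1 i + x.2 i : ℝ) : ℂ))) = _
  rw [mul_comm, Complex.exp_mul_I]
  exact Complex.arg_cos_add_sin_mul_I h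

lemma ev_small {c : ℝ} {η : ℝ} (hη : 0 < η) : ∀ᶠ q : ℕ in atTop, |c / (q : ℝ)| < η := by
  have h := (tendsto_const_div_atTop_nhds_zero_nat c).abs
  rw [abs_zero] at h
  exact h.eventually (gt_mem_nhds hη)

lemma smul_div (q : ℕ) (y : (Fin D → ℝ) × (Fin D → ℝ)) :
    (q : ℝ)⁻¹ • y = (fun i => y.1 i / (q : ℝ), fun i => y.2 i / (q : ℝ)) := by
  refine Prod.ext ?_ ?_
  · funext i
    show (q : ℝ)⁻¹ * y.1 i = y.1 i / q
    rw [div_eq_inv_mul]
  · funext i
    show (q : ℝ)⁻¹ * y.2 i = y.2 i / q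
    rw [div_eq_inv_mul]

lemma l1_div {q : ℕ} (hq : 1 ≤ q) (y : Fin D → ℝ) : (q : ℝ) * l1 (fun i => y i / (q : ℝ)) = l1 y := by
  have hq' : (0 : ℝ) < q := by exact_mod_cast hq
  unfold l1
  rw [mul_sum]
  refine sum_congr rfl fun i _ => ?_
  rw [abs_div, abs_of_pos hq']
  field_simp

/-- **The scaling limit of the two-particle measures.** -/
theorem lattice_lim (hD : 1 ≤ D) {w : ℕ → (Fin D → ℝ) → ℝ} {s : ℕ → ℝ} {c : ℝ} {W : (Fin D → ℝ) → ℝ}
    (h : Wt w s c W) {f : ℝ × (Fin D → ℝ) → ℝ} (hf : Continuous f) {B : ℝ} (hB : 0 ≤ B)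
    (hf0 : ∀ x : ℝ × (Fin D → ℝ), B < |x.1| ∨ (∃ i, B < |x.2 i|) → f x = 0)
    {H : ℝ} (hH : ∀ x, |f x| ≤ H) {a : ℝ} (ha : 0 ≤ a) :
    Tendsto (fun q : ℕ => (q : ℝ) ^ (2 * D + 2) / s q ^ 2 * ∫ p, scl q f p ∂(tp (w q) a)) atTop
      (𝓝 (((1 / (2 * Real.pi)) ^ D) ^ 2 * ∫ y : (Fin D → ℝ) × (Fin D → ℝ),
        a * (W y.1 * W y.2) * f (nrm y.1 + nrm y.2, y.1 + y.2))) := by
  have hpi := Real.pi_pos
  have hc0 := c0_pos (D := D)
  have hH0 : 0 ≤ H := (abs_nonneg _).trans (hH 0)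
  obtain ⟨R, hR⟩ : ∃ R : ℝ, R = B / c0 D := ⟨_, rfl⟩
  have hR0 : 0 ≤ R := by rw [hR]; positivity
  obtain ⟨F, hF⟩ : ∃ F : ℕ → (Fin D → ℝ) × (Fin D → ℝ) → ℝ, F = fun q x =>
      a * (w q x.1 * w q x.2) * scl q f (Psi x) := ⟨_, rfl⟩
  have hFm : ∀ q, Measurable (F q) := by
    intro q
    rw [hF]
    exact ((((h.meas q).comp measurable_fst).mul ((h.meas q).comp measurable_snd)).const_mul a).mul
      ((scl_meas q hf).comp Psi_cont.measurable)
  obtain ⟨Φ, hΦ⟩ : ∃ Φ : ℕ → (Fin D → ℝ) × (Fin D → ℝ) → ℝ, Φ = fun (q : ℕ) y =>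
      (q : ℝ) ^ 2 / s q ^ 2 * (cube D ×ˢ cube D).indicator (F q) ((q : ℝ)⁻¹ • y) := ⟨_, rfl⟩
  have hval : ∀ q : ℕ, 1 ≤ q → (q : ℝ) ^ (2 * D + 2) / s q ^ 2 * ∫ p, scl q f p ∂(tp (w q) a) =
      ((1 / (2 * Real.pi)) ^ D) ^ 2 * ∫ y, Φ q y := by
    intro q hq
    have hq' : (0 : ℝ) < q := by exact_mod_cast hq
    rw [int_tp (h.meas q) (h.nonneg q) ha (scl_meas q hf), hΦ]
    simp only
    rw [integral_const_mul, scale_int (fun x => (cube D ×ˢ cube D).indicator (F q) x) hq'.le, hF,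
      pow_add]
    ring
  have hΦm : ∀ q, AEStronglyMeasurable (Φ q) volume := by
    intro q
    rw [hΦ]
    refine (Measurable.const_mul ?_ _).aestronglyMeasurable
    exact ((hFm q).indicator (cube_meas.prod cube_meas)).comp (measurable_const_smul _)
  obtain ⟨S, hS⟩ : ∃ S : Set ((Fin D → ℝ) × (Fin D → ℝ)), S =
      (Set.univ.pi fun _ => Set.Icc (-R) R) ×ˢ (Set.univ.pi fun _ => Set.Icc (-R) R) := ⟨_, rfl⟩
  have hScomp : IsCompact S := by
    rw [hS]
    exact (isCompact_univ_pi fun _ => isCompact_Icc).prod (isCompact_univ_pi fun _ => isCompact_Icc)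
  have hSm : MeasurableSet S := hScomp.measurableSet
  have hbound : ∀ q : ℕ, 1 ≤ q → ∀ y, ‖Φ q y‖ ≤ S.indicator (fun _ => a * (c * R) ^ 2 * H) y := by
    intro q hq y
    have hq' : (0 : ℝ) < q := by exact_mod_cast hq
    have hs := h.spos q hq
    have hnn : 0 ≤ S.indicator (fun _ => a * (c * R) ^ 2 * H) y := by
      refine Set.indicator_nonneg (fun _ _ => ?_) _
      positivity
    rw [hΦ, Real.norm_eq_abs]
    show |(q : ℝ) ^ 2 / s q ^ 2 * (cube D ×ˢ cube D).indicator (F q) ((q : ℝ)⁻¹ • y)| ≤ _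
    rw [smul_div]
    by_cases hx : ((fun i => y.1 i / (q : ℝ), fun i => y.2 i / (q : ℝ)) :
        (Fin D → ℝ) × (Fin D → ℝ)) ∈ cube D ×ˢ cube D
    · rw [Set.indicator_of_mem hx, hF]
      show |(q : ℝ) ^ 2 / s q ^ 2 * (a * (w q (fun i => y.1 i / (q : ℝ)) *
        w q (fun i => y.2 i / (q : ℝ))) * scl q f (Psi _))| ≤ _
      rw [scl_Psi]
      have ho1 := om_lb (cube_abs hx.1)
      have ho2 := om_lb (cube_abs hx.2)
      have hp1 := om_nonneg (D := D) one_pos le_rfl fun i => y.1 i / (q : ℝ)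
      have hp2 := om_nonneg (D := D) one_pos le_rfl fun i => y.2 i / (q : ℝ)
      by_cases hbig : B < q * (om 1 (fun i => y.1 i / (q : ℝ)) + om 1 fun i => y.2 i / (q : ℝ))
      · rw [hf0 _ (Or.inl (by
          show B < |_|
          exact lt_of_lt_of_le hbig (le_abs_self _))), mul_zero, mul_zero, abs_zero]
        exact hnn
      · push Not at hbig
        have hl : ∀ z : Fin D → ℝ, (q : ℝ) * om 1 (fun i => z i / (q : ℝ)) ≤ B →
            c0 D * l1 (fun i => z i / (q : ℝ)) ≤ om 1 (fun i => z i / (q : ℝ)) → l1 z ≤ R := by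
          intro z hz1 hz2
          have e1 := mul_le_mul_of_nonneg_left hz2 hq'.le
          have e2 : (q : ℝ) * (c0 D * l1 fun i => z i / (q : ℝ)) = c0 D * l1 z := by
            rw [← l1_div hq z]
            ring
          rw [e2] at e1
          rw [hR, le_div_iff₀ hc0]
          linarith
        have hq1 : (q : ℝ) * om 1 (fun i => y.1 i / (q : ℝ)) ≤ B := by nlinarith
        have hq2 : (q : ℝ) * om 1 (fun i => y.2 i / (q : ℝ)) ≤ B := by nlinarith
        have hl1 := hl y.1 hq1 ho1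
        have hl2 := hl y.2 hq2 ho2
        have hyS : y ∈ S := by
          rw [hS]
          have hcomp : ∀ z : Fin D → ℝ, l1 z ≤ R → ∀ i, z i ∈ Set.Icc (-R) R := fun z hz i =>
            abs_le.1 ((single_le_sum (f := fun j => |z j|) (fun _ _ => abs_nonneg _)
              (mem_univ i)).trans hz)
          exact ⟨Set.mem_univ_pi.2 (hcomp _ hl1), Set.mem_univ_pi.2 (hcomp _ hl2)⟩
        rw [Set.indicator_of_mem hyS]
        have hw : ∀ z : Fin D → ℝ, (fun i => z i / (q : ℝ)) ∈ cube D → l1 z ≤ R →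
            0 ≤ (q : ℝ) * w q (fun i => z i / (q : ℝ)) / s q ∧
            (q : ℝ) * w q (fun i => z i / (q : ℝ)) / s q ≤ c * R := by
          intro z hz hzR
          refine ⟨div_nonneg (mul_nonneg hq'.le (h.nonneg _ _)) hs.le, ?_⟩
          rw [div_le_iff₀ hs]
          have e1 := mul_le_mul_of_nonneg_left (h.le q hq _ hz) hq'.le
          have e2 : (q : ℝ) * (s q * (c * l1 fun i => z i / (q : ℝ))) = c * l1 z * s q := by
            rw [← l1_div hq z]
            ring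
          rw [e2] at e1
          refine e1.trans (mul_le_mul_of_nonneg_right (mul_le_mul_of_nonneg_left hzR h.cnn) hs.le)
        have hw1 := hw y.1 hx.1 hl1
        have hw2 := hw y.2 hx.2 hl2
        obtain ⟨v, hv⟩ : ∃ v : ℝ, v = f (q * (om 1 (fun i => y.1 i / (q : ℝ)) +
          om 1 fun i => y.2 i / (q : ℝ)), fun i => q * ag (Psi ((fun i => y.1 i / (q : ℝ)),
            fun i => y.2 i / (q : ℝ))) i) := ⟨_, rfl⟩
        have hvH : |v| ≤ H := by rw [hv]; exact hH _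
        have e3 : (q : ℝ) ^ 2 / s q ^ 2 * (a * (w q (fun i => y.1 i / (q : ℝ)) *
            w q (fun i => y.2 i / (q : ℝ))) * v) =
            a * (((q : ℝ) * w q (fun i => y.1 i / (q : ℝ)) / s q) *
              ((q : ℝ) * w q (fun i => y.2 i / (q : ℝ)) / s q)) * v := by
          field_simp
        show |(q : ℝ) ^ 2 / s q ^ 2 * (a * (w q (fun i => y.1 i / (q : ℝ)) *
            w q (fun i => y.2 i / (q : ℝ))) * f _)| ≤ _
        rw [← hv, e3, abs_mul, abs_mul, abs_mul, abs_of_nonneg ha, abs_of_nonneg hw1.1,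
          abs_of_nonneg hw2.1]
        have hcR : 0 ≤ c * R := mul_nonneg h.cnn hR0
        calc a * (((q : ℝ) * w q (fun i => y.1 i / (q : ℝ)) / s q) *
              ((q : ℝ) * w q (fun i => y.2 i / (q : ℝ)) / s q)) * |v|
            ≤ a * ((c * R) * (c * R)) * H := by
              refine mul_le_mul (mul_le_mul_of_nonneg_left (mul_le_mul hw1.2 hw2.2 hw2.1 hcR) ha)
                hvH (abs_nonneg _) (by positivity)
          _ = a * (c * R) ^ 2 * H := by ring
    · rw [Set.indicator_of_notMem hx, mul_zero, abs_zero]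
      exact hnn
  have hlim : Tendsto (fun q : ℕ => ∫ y, Φ q y) atTop (𝓝 (∫ y : (Fin D → ℝ) × (Fin D → ℝ),
      a * (W y.1 * W y.2) * f (nrm y.1 + nrm y.2, y.1 + y.2))) := by
    refine tendsto_integral_filter_of_dominated_convergence
      (S.indicator (fun _ => a * (c * R) ^ 2 * H)) (Eventually.of_forall hΦm) ?_ ?_ ?_
    · filter_upwards [eventually_ge_atTop 1] with q hq
      exact Eventually.of_forall (hbound q hq)
    · exact (integrable_indicator_iff hSm).2 (integrableOn_const hScomp.measure_lt_top.ne)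
    · filter_upwards [ae_nrm hD] with y hy
      have hsm : ∀ᶠ q : ℕ in atTop, ∀ i, |y.1 i / (q : ℝ)| < Real.pi ∧ |y.2 i / (q : ℝ)| < Real.pi ∧
          |(y.1 i + y.2 i) / (q : ℝ)| < Real.pi := by
        rw [eventually_all]
        intro i
        filter_upwards [ev_small (c := y.1 i) hpi, ev_small (c := y.2 i) hpi,
          ev_small (c := y.1 i + y.2 i) hpi] with q h1 h2 h3
        exact ⟨h1, h2, h3⟩
      have h1 := h.lim y.1 hy.1
      have h2 := h.lim y.2 hy.2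
      have h3 : Tendsto (fun q : ℕ => f ((q : ℝ) * om 1 (fun i => y.1 i / (q : ℝ)) +
          (q : ℝ) * om 1 (fun i => y.2 i / (q : ℝ)), y.1 + y.2)) atTop
          (𝓝 (f (nrm y.1 + nrm y.2, y.1 + y.2))) :=
        (hf.tendsto _).comp (((om_scal y.1).add (om_scal y.2)).prodMk_nhds tendsto_const_nhds)
      refine (((h1.mul h2).const_mul a).mul h3).congr' ?_
      filter_upwards [hsm, eventually_ge_atTop 1] with q hq hq1
      have hq' : (0 : ℝ) < q := by exact_mod_cast hq1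
      have hs := h.spos q hq1
      rw [hΦ]
      show _ = (q : ℝ) ^ 2 / s q ^ 2 * (cube D ×ˢ cube D).indicator (F q) ((q : ℝ)⁻¹ • y)
      rw [smul_div]
      have hx : ((fun i => y.1 i / (q : ℝ), fun i => y.2 i / (q : ℝ)) :
          (Fin D → ℝ) × (Fin D → ℝ)) ∈ cube D ×ˢ cube D := by
        constructor
        · exact Set.mem_univ_pi.2 fun i => ⟨(abs_lt.1 (hq i).1).1, (abs_lt.1 (hq i).1).2.le⟩
        · exact Set.mem_univ_pi.2 fun i => ⟨(abs_lt.1 (hq i).2.1).1, (abs_lt.1 (hq i).2.1).2.le⟩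
      rw [Set.indicator_of_mem hx, hF]
      show _ = (q : ℝ) ^ 2 / s q ^ 2 * (a * (w q (fun i => y.1 i / (q : ℝ)) *
        w q (fun i => y.2 i / (q : ℝ))) * scl q f (Psi _))
      rw [scl_Psi]
      have e1 : (fun i => (q : ℝ) * ag (Psi ((fun i => y.1 i / (q : ℝ)),
          fun i => y.2 i / (q : ℝ))) i) = y.1 + y.2 := by
        funext i
        have h4 : y.1 i / (q : ℝ) + y.2 i / (q : ℝ) ∈ Set.Ioc (-Real.pi) Real.pi := by
          rw [← add_div]
          exact ⟨(abs_lt.1 (hq i).2.2).1, (abs_lt.1 (hq i).2.2).2.le⟩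
        rw [ag_Psi h4, Pi.add_apply]
        field_simp
      rw [e1, mul_add]
      show _ = (q : ℝ) ^ 2 / s q ^ 2 * (a * (w q (fun i => y.1 i / (q : ℝ)) *
        w q (fun i => y.2 i / (q : ℝ))) * f ((q : ℝ) * om 1 (fun i => y.1 i / (q : ℝ)) +
          (q : ℝ) * om 1 (fun i => y.2 i / (q : ℝ)), y.1 + y.2))
      field_simp
  refine (hlim.const_mul _).congr' ?_
  filter_upwards [eventually_ge_atTop 1] with q hq
  exact (hval q hq).symm

end Pool.Agent.X134.SC
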