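import Pool.Agent.X134.SC.Lat2

/-!
# The abstract form of the convergence of the rescaled spectral measures
-/

set_option autoImplicit false
open Finset MeasureTheory Filter Topology
open scoped ENNReal NNReal

namespace Pool.Agent.X134.SC

open Pool.Agent.X134.SM

variable {D : ℕ}

lemma kap_cube : ∀ᵐ k ∂(kap D), k ∈ cube D := by
  filter_upwards [kap_ae] with k hk
  exact Set.mem_univ_pi.2 fun i => (hk i).1

/-- the mass of the one-particle measure at the time `q` -/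
lemma one_mass' {w : (Fin D → ℝ) → ℝ} {c : ℝ} (hc : 0 ≤ c) (h0 : ∀ k, 0 ≤ w k)
    (hle : ∀ k ∈ cube D, w k ≤ c * l1 k) {q : ℕ} (hq : 1 ≤ q) :
    (q : ℝ) ^ (D + 1) * ∫ k, Real.exp (-(q * om 1 k)) * w k ∂(kap D) ≤
      c * (2 / c0 D) * (2 / c0 D) ^ D := by
  have hc0 := c0_pos (D := D)
  have hq' : (0 : ℝ) < q := by exact_mod_cast hq
  obtain ⟨e, he⟩ : ∃ e : ℝ, e = q * c0 D / 2 := ⟨_, rfl⟩
  have hep : 0 < e := by rw [he]; positivity
  have hI : ∫ k : Fin D → ℝ, Real.exp (-(e * l1 k)) ∂(kap D) ≤ (1 / e) ^ D := by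
    have e1 : ∀ k : Fin D → ℝ, Real.exp (-(e * l1 k)) = ∏ j, Real.exp (-(e * |k j|)) := by
      intro k
      rw [← Real.exp_sum]
      congr 1
      unfold l1
      rw [mul_sum, sum_neg_distrib]
    simp only [e1]
    unfold kap
    rw [integral_fintype_prod_eq_prod (fun _ (x : ℝ) => Real.exp (-(e * |x|))), prod_const, card_univ,
      Fintype.card_fin]
    exact pow_le_pow_left₀ (integral_nonneg fun _ => (Real.exp_pos _).le) (int_exp hep) D
  have hpt : ∀ k ∈ cube D, Real.exp (-(q * om 1 k)) * w k ≤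
      c * (2 / (q * c0 D)) * Real.exp (-(e * l1 k)) := by
    intro k hk
    have h1 := om_lb (cube_abs hk)
    have h2 := hle k hk
    have h3 : Real.exp (-(q * om 1 k)) ≤ Real.exp (-(2 * (e * l1 k))) := by
      refine Real.exp_le_exp.2 (neg_le_neg ?_)
      have : 2 * (e * l1 k) = q * (c0 D * l1 k) := by rw [he]; ring
      rw [this]
      exact mul_le_mul_of_nonneg_left h1 hq'.le
    have h4 : e * l1 k * Real.exp (-(e * l1 k)) ≤ 1 := by
      have := Real.add_one_le_exp (e * l1 k)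
      rw [Real.exp_neg, ← div_eq_mul_inv, div_le_one (Real.exp_pos _)]
      linarith
    calc Real.exp (-(q * om 1 k)) * w k
        ≤ Real.exp (-(2 * (e * l1 k))) * (c * l1 k) :=
          mul_le_mul h3 h2 (h0 _) (Real.exp_pos _).le
      _ = c * (1 / e) * (e * l1 k * Real.exp (-(e * l1 k))) * Real.exp (-(e * l1 k)) := by
          have : Real.exp (-(2 * (e * l1 k))) = Real.exp (-(e * l1 k)) * Real.exp (-(e * l1 k)) := by
            rw [← Real.exp_add]
            congr 1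
            ring
          rw [this]
          field_simp
      _ ≤ c * (1 / e) * 1 * Real.exp (-(e * l1 k)) := by
          refine mul_le_mul_of_nonneg_right (mul_le_mul_of_nonneg_left h4 (by positivity))
            (Real.exp_pos _).le
      _ = _ := by
          rw [he]
          field_simp
  have hint : Integrable (fun k : Fin D → ℝ => Real.exp (-(e * l1 k))) (kap D) := by
    have hcont : Continuous fun k : Fin D → ℝ => Real.exp (-(e * l1 k)) := by
      unfold l1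
      fun_prop
    refine Integrable.mono' (integrable_const (1 : ℝ)) hcont.aestronglyMeasurable
      (Eventually.of_forall fun k => ?_)
    rw [Real.norm_eq_abs, Real.abs_exp, Real.exp_le_one_iff]
    have := mul_nonneg hep.le (l1_nonneg k)
    linarith
  have h5 : ∫ k, Real.exp (-(q * om 1 k)) * w k ∂(kap D) ≤ c * (2 / (q * c0 D)) * (1 / e) ^ D := by
    calc ∫ k, Real.exp (-(q * om 1 k)) * w k ∂(kap D)
        ≤ ∫ k, c * (2 / (q * c0 D)) * Real.exp (-(e * l1 k)) ∂(kap D) := by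
          refine integral_mono_of_nonneg (Eventually.of_forall fun k =>
            mul_nonneg (Real.exp_pos _).le (h0 _)) (hint.const_mul _) ?_
          filter_upwards [kap_cube] with k hk
          exact hpt k hk
      _ = c * (2 / (q * c0 D)) * ∫ k, Real.exp (-(e * l1 k)) ∂(kap D) := integral_const_mul _ _
      _ ≤ _ := mul_le_mul_of_nonneg_left hI (by positivity)
  have h6 := mul_le_mul_of_nonneg_left h5 (by positivity : 0 ≤ (q : ℝ) ^ (D + 1))
  refine h6.trans (le_of_eq ?_)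
  have e1 : (q : ℝ) ^ D * (1 / e) ^ D = (2 / c0 D) ^ D := by
    rw [← mul_pow, he]
    congr 1
    field_simp
  calc (q : ℝ) ^ (D + 1) * (c * (2 / (q * c0 D)) * (1 / e) ^ D)
      = c * (q * (2 / (q * c0 D))) * ((q : ℝ) ^ D * (1 / e) ^ D) := by
        rw [pow_succ]
        ring
    _ = _ := by
        rw [e1]
        congr 2
        field_simp

section one

variable {w : (Fin D → ℝ) → ℝ} (hm : Measurable w) (h0 : ∀ k, 0 ≤ w k) {c : ℝ}
  (hle : ∀ k ∈ cube D, w k ≤ c * l1 k)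

include hm h0 hle

lemma w_int (hc : 0 ≤ c) : Integrable w (kap D) := by
  have hpi := Real.pi_pos
  refine Integrable.mono' (integrable_const (c * (D * Real.pi))) hm.aestronglyMeasurable ?_
  filter_upwards [kap_cube] with k hk
  rw [Real.norm_eq_abs, abs_of_nonneg (h0 k)]
  refine (hle k hk).trans (mul_le_mul_of_nonneg_left ?_ hc)
  unfold l1
  calc ∑ j, |k j| ≤ ∑ _j : Fin D, Real.pi := sum_le_sum fun j _ => cube_abs hk j
    _ = _ := by rw [sum_const, card_univ, Fintype.card_fin, nsmul_eq_mul]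

lemma tp_fin (hc : 0 ≤ c) (a : ℝ) : IsFiniteMeasure (tp w a) := by
  have hi := w_int hm h0 hle hc
  have := isFiniteMeasure_withDensity_ofReal ((hi.mul_prod hi).const_mul a).2
  unfold tp
  infer_instance

omit hle in
lemma tp_mass {a : ℝ} (ha : 0 ≤ a) (t : ℕ) : ∫ p, p.1 ^ t ∂(tp w a) =
    a * (∫ k, Real.exp (-(t * om 1 k)) * w k ∂(kap D)) ^ 2 := by
  have hm2 : Measurable fun p : (Fin D → ℝ) × (Fin D → ℝ) => a * (w p.1 * w p.2) :=
    ((hm.comp measurable_fst).mul (hm.comp measurable_snd)).const_mul a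
  unfold tp
  rw [integral_map Psi_cont.aemeasurable (measurable_fst.pow_const t).aestronglyMeasurable,
    integral_withDensity_eq_integral_toReal_smul hm2.ennreal_ofReal
      (Eventually.of_forall fun p => ENNReal.ofReal_lt_top)]
  have h1 : ∀ p : (Fin D → ℝ) × (Fin D → ℝ), (ENNReal.ofReal (a * (w p.1 * w p.2))).toReal •
      (Psi p).1 ^ t = a * ((Real.exp (-(t * om 1 p.1)) * w p.1) *
        (Real.exp (-(t * om 1 p.2)) * w p.2)) := by
    intro p
    rw [ENNReal.toReal_ofReal (mul_nonneg ha (mul_nonneg (h0 _) (h0 _))), smul_eq_mul]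
    have : (Psi p).1 ^ t = Real.exp (-(t * om 1 p.1)) * Real.exp (-(t * om 1 p.2)) := by
      show Real.exp (-(om 1 p.1 + om 1 p.2)) ^ t = _
      rw [← Real.exp_nat_mul, ← Real.exp_add]
      congr 1
      ring
    rw [this]
    ring
  simp only [h1]
  rw [integral_const_mul, integral_prod_mul (μ := kap D) (ν := kap D)
    (fun k => Real.exp (-(t * om 1 k)) * w k) (fun k => Real.exp (-(t * om 1 k)) * w k), pow_two]

omit hle h0 hm in
lemma tp_supp (a : ℝ) : tp w a (KK D)ᶜ = 0 := by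
  unfold tp
  rw [Measure.map_apply Psi_cont.measurable KK_compact.isClosed.measurableSet.compl]
  have : Psi ⁻¹' (KK D)ᶜ = (∅ : Set ((Fin D → ℝ) × (Fin D → ℝ))) := by
    ext p
    simp only [Set.mem_preimage, Set.mem_compl_iff, Set.mem_empty_iff_false, iff_false, not_not]
    exact Psi_mem p
  rw [this, measure_empty]

end one

lemma mom_smul (b : ℝ) (hb : 0 ≤ b) (ρ : Measure (ℝ × (Fin D → ℂ))) (s : ℕ × (Fin D → ℤ)) :
    mom (ENNReal.ofReal b • ρ) s = b * mom ρ s := by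
  unfold mom
  rw [integral_smul_measure, ENNReal.toReal_ofReal hb, Complex.real_smul]

/-- **The convergence of the rescaled spectral measures, abstract form.** -/
theorem conv_abs (hD : 1 ≤ D) {w : ℕ → (Fin D → ℝ) → ℝ} {s : ℕ → ℝ} {c : ℝ} {W : (Fin D → ℝ) → ℝ}
    (h : Wt w s c W) {f : ℝ × (Fin D → ℝ) → ℝ} (hf : Continuous f) {B : ℝ} (hB : 0 ≤ B)
    (hf0 : ∀ x : ℝ × (Fin D → ℝ), B < |x.1| ∨ (∃ i, B < |x.2 i|) → f x = 0)
    {H : ℝ} (hH : ∀ x, |f x| ≤ H) {a : ℝ} (ha : 0 ≤ a) {ε : ℝ} (hε : 0 < ε) :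
    ∃ q₀ : ℕ, 1 ≤ q₀ ∧ ∀ q : ℕ, q₀ ≤ q → ∀ (ρ : Measure (ℝ × (Fin D → ℂ))) [IsFiniteMeasure ρ],
      ρ (KK D)ᶜ = 0 → ∀ b : ℝ, 0 ≤ b →
        (∀ u : ℕ × (Fin D → ℤ), u.1 ≤ q ^ 4 → (∀ i, |u.2 i| ≤ ((q ^ 4 : ℕ) : ℤ)) →
          (q : ℝ) ^ (2 * D + 2) / s q ^ 2 * ‖(b : ℂ) * mom ρ u - mom (tp (w q) a) u‖ ≤
            1 / (q : ℝ) ^ (3 * D + 1)) →
        |b * ((q : ℝ) ^ (2 * D + 2) / s q ^ 2) * ∫ p, scl q f p ∂ρ -
          ((1 / (2 * Real.pi)) ^ D) ^ 2 * ∫ y : (Fin D → ℝ) × (Fin D → ℝ),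
            a * (W y.1 * W y.2) * f (nrm y.1 + nrm y.2, y.1 + y.2)| ≤ ε := by
  have hc0 := c0_pos (D := D)
  obtain ⟨q₁, hq₁, h1⟩ := compare_scl hf hB hf0 (a * (c * (2 / c0 D) * (2 / c0 D) ^ D) ^ 2)
    (half_pos hε)
  obtain ⟨q₂, h2⟩ := eventually_atTop.1 (Metric.tendsto_nhds.1 (lattice_lim hD h hf hB hf0 hH ha)
    (ε / 2) (half_pos hε))
  refine ⟨max q₁ q₂, hq₁.trans (le_max_left _ _), fun q hq ρ _ hρ b hb hmom => ?_⟩
  have hq1 : 1 ≤ q := hq₁.trans ((le_max_left _ _).trans hq)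
  have hq' : (0 : ℝ) < q := by exact_mod_cast hq1
  have hs := h.spos q hq1
  obtain ⟨g, hg⟩ : ∃ g : ℝ, g = (q : ℝ) ^ (2 * D + 2) / s q ^ 2 := ⟨_, rfl⟩
  have hg0 : 0 ≤ g := by rw [hg]; positivity
  have hle' : ∀ k ∈ cube D, w q k ≤ s q * c * l1 k := fun k hk => by
    rw [mul_assoc]
    exact h.le q hq1 k hk
  have hcs : 0 ≤ s q * c := mul_nonneg hs.le h.cnn
  have hfin := tp_fin (h.meas q) (h.nonneg q) hle' hcs a
  have hbg : 0 ≤ b * g := mul_nonneg hb hg0
  have hf1 := Measure.smul_finite ρ (ENNReal.ofReal_ne_top (r := b * g))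
  have hf2 := Measure.smul_finite (tp (w q) a) (ENNReal.ofReal_ne_top (r := g))
  have h3 := h1 q ((le_max_left _ _).trans hq) (ENNReal.ofReal (b * g) • ρ)
    (ENNReal.ofReal g • tp (w q) a) (by rw [Measure.smul_apply, hρ, smul_zero])
    (by rw [Measure.smul_apply, tp_supp, smul_zero]) (fun u hu1 hu2 => ?_) ?_
  · rw [integral_smul_measure, integral_smul_measure, ENNReal.toReal_ofReal hbg,
      ENNReal.toReal_ofReal hg0, smul_eq_mul, smul_eq_mul] at h3
    have h4 := h2 q ((le_max_right _ _).trans hq)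
    rw [Real.dist_eq, ← hg] at h4
    rw [← hg]
    have h5 := abs_sub_le (b * g * ∫ p, scl q f p ∂ρ) (g * ∫ p, scl q f p ∂(tp (w q) a))
      (((1 / (2 * Real.pi)) ^ D) ^ 2 * ∫ y : (Fin D → ℝ) × (Fin D → ℝ),
        a * (W y.1 * W y.2) * f (nrm y.1 + nrm y.2, y.1 + y.2))
    linarith
  · have h4 := hmom u hu1 hu2
    rw [← hg] at h4
    rw [mom_smul _ hbg, mom_smul _ hg0]
    have e1 : ((b * g : ℝ) : ℂ) * mom ρ u - (g : ℂ) * mom (tp (w q) a) u =
        (g : ℂ) * ((b : ℂ) * mom ρ u - mom (tp (w q) a) u) := by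
      push_cast
      ring
    rw [e1, norm_mul, Complex.norm_real, Real.norm_eq_abs, abs_of_nonneg hg0]
    exact h4
  · rw [integral_smul_measure, ENNReal.toReal_ofReal hg0, smul_eq_mul,
      tp_mass (h.meas q) (h.nonneg q) ha]
    obtain ⟨I, hI⟩ : ∃ I : ℝ, I = ∫ k, Real.exp (-(q * om 1 k)) * w q k ∂(kap D) := ⟨_, rfl⟩
    have hI0 : 0 ≤ I := by
      rw [hI]
      exact integral_nonneg fun k => mul_nonneg (Real.exp_pos _).le (h.nonneg q k)
    have h4 := one_mass' hcs (h.nonneg q) hle' hq1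
    rw [← hI] at h4 ⊢
    have h5 : (q : ℝ) ^ (D + 1) / s q * I ≤ c * (2 / c0 D) * (2 / c0 D) ^ D := by
      rw [div_mul_eq_mul_div, div_le_iff₀ hs]
      refine h4.trans (le_of_eq ?_)
      ring
    have h6 : g * (a * I ^ 2) = a * ((q : ℝ) ^ (D + 1) / s q * I) ^ 2 := by
      rw [hg]
      have : (q : ℝ) ^ (2 * D + 2) = ((q : ℝ) ^ (D + 1)) ^ 2 := by
        rw [← pow_mul]
        congr 1
        ring
      rw [this]
      ring
    rw [h6]
    exact mul_le_mul_of_nonneg_left (pow_le_pow_left₀ (by positivity) h5 2) ha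

end Pool.Agent.X134.SC
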