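import Pool.Agent.X134.SC.Wts

/-!
# The convergence of the rescaled spectral measures
-/

open MeasureTheory Filter
open scoped Topology
open Pool.Agent.Results.MP_7f377f_mp.WilsonLoopsWeakCoupling

namespace Pool.Agent.X134.SC

open Pool.Agent.X134.SM

set_option linter.unusedSectionVars false
set_option linter.unusedVariables false

noncomputable section

variable {D : ℕ}

/-- the limit of the rescaled spectral measures -/
def Lm (n : ℕ) (W : (Fin D → ℝ) → ℝ) (f : ℝ × (Fin D → ℝ) → ℝ) : ℝ :=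
  ((1 / (2 * Real.pi)) ^ D) ^ 2 * ∫ y : (Fin D → ℝ) × (Fin D → ℝ),
    (n : ℝ) / 2 * (W y.1 * W y.2) * f (nrm y.1 + nrm y.2, y.1 + y.2)

lemma supp_bd {f : ℝ × (Fin D → ℝ) → ℝ} (hf : HasCompactSupport f) : ∃ B : ℝ, 0 ≤ B ∧
    ∀ x : ℝ × (Fin D → ℝ), B < |x.1| ∨ (∃ i, B < |x.2 i|) → f x = 0 := by
  obtain ⟨B, hB⟩ := hf.isCompact.isBounded.subset_closedBall 0
  refine ⟨|B|, abs_nonneg _, fun x hx => ?_⟩
  by_contra hne
  have h1 : x ∈ Metric.closedBall (0 : ℝ × (Fin D → ℝ)) B := hB (subset_tsupport _ hne)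
  rw [mem_closedBall_zero_iff] at h1
  have h2 : ‖x‖ ≤ |B| := h1.trans (le_abs_self _)
  rcases hx with hx | ⟨i, hx⟩
  · have := (norm_fst_le x).trans h2
    rw [Real.norm_eq_abs] at this
    linarith
  · have := ((norm_le_pi_norm x.2 i).trans (norm_snd_le x)).trans h2
    rw [Real.norm_eq_abs] at this
    linarith

variable {N n : ℕ} {G : Subgroup (UU N)} [MeasurableSpace G] [BorelSpace G]
  (μ : Measure G) [IsProbabilityMeasure μ] [μ.IsHaarMeasure]

/-- **The convergence of the rescaled spectral measures of a sequence of loops.** -/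
theorem main_seq (hD : 2 ≤ D) (hG : IsClosed (G : Set (UU N))) (B : LieBasis G n) :
    ∃ K : ℕ, ∀ Γ : ℕ → Loop (D + 1), (∀ q, Flat (Γ q)) → (∀ᶠ q in atTop, (Γ q).length ≤ q ^ 4) →
      ∀ (s : ℕ → ℝ) (c : ℝ) (W : (Fin D → ℝ) → ℝ), (∀ q, 1 ≤ q → 1 ≤ s q) →
        Wt (fun q => wgt (sgL (Γ q)) (posL (Γ q)) (dirL (Γ q))) s c W →
        ∀ f : ℝ × (Fin D → ℝ) → ℝ, Continuous f → HasCompactSupport f → ∀ ε : ℝ, 0 < ε →
          ∃ q₀ : ℕ, 1 ≤ q₀ ∧ ∀ q : ℕ, q₀ ≤ q → ∀ β : ℝ, (q : ℝ) ^ K ≤ β →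
            ∀ ν : Measure (LinkZ (D + 1) → G), IsInfVol μ β ν → ∀ ρ, IsSp ν (wilson (Γ q)) ρ →
              |β ^ 2 * ((q : ℝ) ^ (2 * D + 2) / s q ^ 2) * ∫ p, scl q f p ∂ρ - Lm n W f| ≤ ε := by
  obtain ⟨K, q₁, hq₁, h1⟩ := mom_quant μ hD hG B
  refine ⟨K, fun Γ hΓ hlen s c W hs hW f hf hfs ε hε => ?_⟩
  obtain ⟨B', hB', hf0⟩ := supp_bd hfs
  obtain ⟨H, hH⟩ := hfs.exists_bound_of_continuous hf
  obtain ⟨q₂, hq₂, h2⟩ := conv_abs (by omega) hW hf hB' hf0 (H := H) (fun x => by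
    rw [← Real.norm_eq_abs]
    exact hH x) (a := (n : ℝ) / 2) (by positivity) hε
  obtain ⟨q₃, h3⟩ := eventually_atTop.1 hlen
  refine ⟨q₁ + q₂ + q₃, by omega, fun q hq β hβ ν hν ρ hρ => ?_⟩
  have hfin := hρ.fin
  have hq1 : 1 ≤ q := by omega
  have hsq := hs q hq1
  refine h2 q (by omega) ρ hρ.supp (β ^ 2) (sq_nonneg _) fun u hu1 hu2 => ?_
  have h4 := h1 q (by omega) β hβ ν hν (Γ q) (hΓ q) (h3 q (by omega)) ρ hρ u hu1 hu2
  refine le_trans ?_ h4
  refine mul_le_mul_of_nonneg_right ?_ (norm_nonneg _)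
  exact div_le_self (by positivity) (one_le_pow₀ hsq)

/-- fixed loops -/
theorem micro (hD : 2 ≤ D) (hG : IsClosed (G : Set (UU N))) (B : LieBasis G n) :
    ∃ K : ℕ, (∀ γ : Loop (D + 1), Flat γ → 
        ∀ f : ℝ × (Fin D → ℝ) → ℝ, Continuous f → HasCompactSupport f → ∀ ε : ℝ, 0 < ε →
          ∃ q₀ : ℕ, 1 ≤ q₀ ∧ ∀ q : ℕ, q₀ ≤ q → ∀ β : ℝ, (q : ℝ) ^ K ≤ β →
            ∀ ν : Measure (LinkZ (D + 1) → G), IsInfVol μ β ν → ∀ ρ, IsSp ν (wilson γ) ρ →
              |β ^ 2 * (q : ℝ) ^ (2 * D + 2) * ∫ p, scl q f p ∂ρ -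
                Lm n (WW (sgL γ) (posL γ) (dirL γ)) f| ≤ ε) ∧
      (∀ γ : Loop (D + 1), Flat γ → 
        ∀ f : ℝ × (Fin D → ℝ) → ℝ, Continuous f → HasCompactSupport f → ∀ ε : ℝ, 0 < ε →
          ∃ q₀ : ℕ, 1 ≤ q₀ ∧ ∀ q : ℕ, q₀ ≤ q → ∀ β : ℝ, (q : ℝ) ^ K ≤ β →
            ∀ ν : Measure (LinkZ (D + 1) → G), IsInfVol μ β ν → ∀ ρ, IsSp ν (wilson (blow q γ)) ρ →
              |β ^ 2 * ((q : ℝ) ^ (2 * D) / (q : ℝ) ^ 6) * ∫ p, scl q f p ∂ρ -
                Lm n (WM γ) f| ≤ ε) := by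
  obtain ⟨K, h⟩ := main_seq μ hD hG B
  refine ⟨K, fun γ hγ f hf hfs ε hε => ?_, fun γ hγ f hf hfs ε hε => ?_⟩
  · have hlen : ∀ᶠ q : ℕ in atTop, γ.length ≤ q ^ 4 := by
      filter_upwards [eventually_ge_atTop γ.length] with q hq
      exact hq.trans (Nat.le_self_pow (by norm_num) q)
    obtain ⟨q₀, hq₀, h1⟩ := h (fun _ => γ) (fun _ => hγ) hlen (fun _ => 1) _ _ (fun _ _ => le_rfl)
      (wt_fix γ) f hf hfs ε hε
    refine ⟨q₀, hq₀, fun q hq β hβ ν hν ρ hρ => ?_⟩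
    have h2 := h1 q hq β hβ ν hν ρ hρ
    simpa only [one_pow, div_one] using h2
  · have hlen : ∀ᶠ q : ℕ in atTop, (blow q γ).length ≤ q ^ 4 := by
      filter_upwards [eventually_ge_atTop (γ.length + 1)] with q hq
      rw [blow_len]
      have h1 : γ.length ≤ q ^ 3 := (by omega : γ.length ≤ q).trans (Nat.le_self_pow (by norm_num) q)
      calc γ.length * q ≤ q ^ 3 * q := Nat.mul_le_mul_right _ h1
        _ = q ^ 4 := by ring
    obtain ⟨q₀, hq₀, h1⟩ := h (fun q => blow q γ) (fun q => blow_flat hγ q) hlen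
      (fun q => (q : ℝ) ^ 4) _ _ (fun q hq => one_le_pow₀ (by exact_mod_cast hq)) (wt_blow γ) f hf hfs
      ε hε
    refine ⟨q₀, hq₀, fun q hq β hβ ν hν ρ hρ => ?_⟩
    have h2 := h1 q hq β hβ ν hν ρ hρ
    have hq' : (0 : ℝ) < q := by exact_mod_cast (by omega : 0 < q)
    have e1 : (q : ℝ) ^ (2 * D + 2) / ((q : ℝ) ^ 4) ^ 2 = (q : ℝ) ^ (2 * D) / (q : ℝ) ^ 6 := by
      rw [pow_add]
      field_simp
    rw [e1] at h2
    exact h2

/-! ### the cone -/

omit [MeasurableSpace G] [BorelSpace G] in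
lemma nrm_cont : Continuous (nrm (D := D)) := by
  unfold nrm
  fun_prop

lemma nrm_nonneg (y : Fin D → ℝ) : 0 ≤ nrm y := Real.sqrt_nonneg _

lemma abs_le_nrm (y : Fin D → ℝ) (i : Fin D) : |y i| ≤ nrm y := by
  unfold nrm
  rw [← Real.sqrt_sq_eq_abs]
  exact Real.sqrt_le_sqrt (Finset.single_le_sum (f := fun i => y i ^ 2) (fun _ _ => sq_nonneg _)
    (Finset.mem_univ i))

lemma nrm_half (P : Fin D → ℝ) : nrm (fun i => P i / 2) = nrm P / 2 := by
  unfold nrm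
  have : ∑ i, (P i / 2) ^ 2 = (∑ i, P i ^ 2) / 2 ^ 2 := by
    rw [Finset.sum_div]
    exact Finset.sum_congr rfl fun i _ => by ring
  rw [this, Real.sqrt_div' _ (by positivity), Real.sqrt_sq (by norm_num)]

/-- every point of the cone is the energy and the momentum of two particles -/
lemma exists_two (hD : 1 ≤ D) {E : ℝ} {P : Fin D → ℝ} (h : nrm P ≤ E) :
    ∃ k k' : Fin D → ℝ, nrm k + nrm k' = E ∧ k + k' = P := by
  have hc : Continuous fun k : Fin D → ℝ => nrm k + nrm (P - k) :=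
    nrm_cont.add (nrm_cont.comp (continuous_const.sub continuous_id))
  have h1 : ∃ k : Fin D → ℝ, nrm k + nrm (P - k) ≤ E := by
    refine ⟨fun i => P i / 2, ?_⟩
    have : (P - fun i => P i / 2) = fun i => P i / 2 := by
      funext i
      rw [Pi.sub_apply]
      ring
    rw [this, nrm_half]
    linarith
  have h2 : ∃ k : Fin D → ℝ, E ≤ nrm k + nrm (P - k) := by
    refine ⟨fun _ => |E|, ?_⟩
    have e1 := abs_le_nrm (fun _ : Fin D => |E|) ⟨0, hD⟩
    rw [abs_abs] at e1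
    have e2 := nrm_nonneg (P - fun _ => |E|)
    have e3 := le_abs_self E
    linarith
  obtain ⟨k, hk⟩ := mem_range_of_exists_le_of_exists_ge hc h1 h2
  exact ⟨k, P - k, hk, add_sub_cancel _ _⟩

/-- positivity of the limit -/
theorem Lm_pos (hD : 1 ≤ D) (hn : 0 < n) {W : (Fin D → ℝ) → ℝ} (hWm : Measurable W)
    (hW0 : ∀ y, 0 ≤ W y) {c : ℝ} (hc : 0 ≤ c) (hWle : ∀ y, W y ≤ c * l1 y) {i : Fin D}
    (hWp : ∀ y, y i ≠ 0 → 0 < W y) {f : ℝ × (Fin D → ℝ) → ℝ} (hf : Continuous f)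
    (hfs : HasCompactSupport f) (hf0 : ∀ x, 0 ≤ f x) {E : ℝ} {P : Fin D → ℝ} (hP : nrm P ≤ E)
    (hfp : 0 < f (E, P)) : 0 < Lm n W f := by
  have hpi := Real.pi_pos
  obtain ⟨k, k', hk1, hk2⟩ := exists_two hD hP
  obtain ⟨B, hB, hfB⟩ := supp_bd hfs
  obtain ⟨H, hH⟩ := hfs.exists_bound_of_continuous hf
  have hH0 : 0 ≤ H := (norm_nonneg _).trans (hH 0)
  unfold Lm
  refine mul_pos (by positivity) ?_
  obtain ⟨F, hF⟩ : ∃ F : (Fin D → ℝ) × (Fin D → ℝ) → ℝ, F = fun y =>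
      (n : ℝ) / 2 * (W y.1 * W y.2) * f (nrm y.1 + nrm y.2, y.1 + y.2) := ⟨_, rfl⟩
  have hfc : Continuous fun y : (Fin D → ℝ) × (Fin D → ℝ) => f (nrm y.1 + nrm y.2, y.1 + y.2) :=
    hf.comp (((nrm_cont.comp continuous_fst).add (nrm_cont.comp continuous_snd)).prodMk
      (continuous_fst.add continuous_snd))
  have hF0 : ∀ y, 0 ≤ F y := by
    intro y
    rw [hF]
    exact mul_nonneg (mul_nonneg (by positivity) (mul_nonneg (hW0 _) (hW0 _))) (hf0 _)
  have hFm : Measurable F := by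
    rw [hF]
    exact (((hWm.comp measurable_fst).mul (hWm.comp measurable_snd)).const_mul _).mul
      hfc.measurable
  obtain ⟨S, hS⟩ : ∃ S : Set ((Fin D → ℝ) × (Fin D → ℝ)), S =
      (Set.univ.pi fun _ => Set.Icc (-B) B) ×ˢ (Set.univ.pi fun _ => Set.Icc (-B) B) := ⟨_, rfl⟩
  have hScomp : IsCompact S := by
    rw [hS]
    exact (isCompact_univ_pi fun _ => isCompact_Icc).prod (isCompact_univ_pi fun _ => isCompact_Icc)
  have hl1 : ∀ z : Fin D → ℝ, (∀ i, |z i| ≤ B) → l1 z ≤ D * B := by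
    intro z hz
    unfold l1
    calc ∑ j, |z j| ≤ ∑ _j : Fin D, B := Finset.sum_le_sum fun j _ => hz j
      _ = D * B := by rw [Finset.sum_const, Finset.card_univ, Fintype.card_fin, nsmul_eq_mul]
  have hFint : Integrable F := by
    refine Integrable.mono' (g := S.indicator fun _ => (n : ℝ) / 2 * ((c * (D * B)) *
      (c * (D * B))) * H) ?_ hFm.aestronglyMeasurable (Eventually.of_forall fun y => ?_)
    · exact (integrable_indicator_iff hScomp.measurableSet).2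
        (integrableOn_const hScomp.measure_lt_top.ne)
    · rw [Real.norm_eq_abs, abs_of_nonneg (hF0 y)]
      by_cases hy : y ∈ S
      · rw [Set.indicator_of_mem hy, hF]
        rw [hS] at hy
        have hy1 : l1 y.1 ≤ D * B := hl1 _ fun i => abs_le.2 (Set.mem_univ_pi.1 hy.1 i)
        have hy2 : l1 y.2 ≤ D * B := hl1 _ fun i => abs_le.2 (Set.mem_univ_pi.1 hy.2 i)
        have hw1 : W y.1 ≤ c * (D * B) := (hWle _).trans (mul_le_mul_of_nonneg_left hy1 hc)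
        have hw2 : W y.2 ≤ c * (D * B) := (hWle _).trans (mul_le_mul_of_nonneg_left hy2 hc)
        have hfH : f (nrm y.1 + nrm y.2, y.1 + y.2) ≤ H :=
          (le_abs_self _).trans (by rw [← Real.norm_eq_abs]; exact hH _)
        exact mul_le_mul (mul_le_mul_of_nonneg_left (mul_le_mul hw1 hw2 (hW0 _) (by positivity))
          (by positivity)) hfH (hf0 _) (by positivity)
      · rw [Set.indicator_of_notMem hy, hF]
        refine le_of_eq ?_
        show (n : ℝ) / 2 * (W y.1 * W y.2) * f (nrm y.1 + nrm y.2, y.1 + y.2) = 0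
        have : f (nrm y.1 + nrm y.2, y.1 + y.2) = 0 := by
          refine hfB _ (Or.inl ?_)
          by_contra hcon
          push Not at hcon
          have h1 : nrm y.1 + nrm y.2 ≤ B := (le_abs_self _).trans hcon
          have h2 := nrm_nonneg y.1
          have h3 := nrm_nonneg y.2
          refine hy ?_
          rw [hS]
          exact ⟨Set.mem_univ_pi.2 fun i => abs_le.1 ((abs_le_nrm y.1 i).trans (by linarith)),
            Set.mem_univ_pi.2 fun i => abs_le.1 ((abs_le_nrm y.2 i).trans (by linarith))⟩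
        rw [this, mul_zero]
  have h1 : 0 < ∫ y, F y := by
    rw [integral_pos_iff_support_of_nonneg hF0 hFint]
    have hU : IsOpen {y : (Fin D → ℝ) × (Fin D → ℝ) | 0 < f (nrm y.1 + nrm y.2, y.1 + y.2)} :=
      isOpen_lt continuous_const hfc
    have hUne : {y : (Fin D → ℝ) × (Fin D → ℝ) | 0 < f (nrm y.1 + nrm y.2, y.1 + y.2)}.Nonempty := by
      refine ⟨(k, k'), ?_⟩
      show 0 < f (nrm k + nrm k', k + k')
      rw [hk1, hk2]
      exact hfp
    have hUpos := hU.measure_pos (volume : Measure ((Fin D → ℝ) × (Fin D → ℝ))) hUne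
    have hhyp : ∀ᵐ x : Fin D → ℝ, x i ≠ 0 := by
      rw [ae_iff]
      simp only [ne_eq, not_not]
      exact Measure.pi_hyperplane (fun _ : Fin D => (volume : Measure ℝ)) i 0
    have h3 : ∀ᵐ y : (Fin D → ℝ) × (Fin D → ℝ), y.1 i ≠ 0 :=
      Measure.quasiMeasurePreserving_fst.ae hhyp
    have h4 : ∀ᵐ y : (Fin D → ℝ) × (Fin D → ℝ), y.2 i ≠ 0 :=
      Measure.quasiMeasurePreserving_snd.ae hhyp
    refine lt_of_lt_of_le hUpos ?_
    refine measure_mono_ae ?_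
    filter_upwards [h3, h4] with y hy1 hy2 hyU
    show F y ≠ 0
    rw [hF]
    have hn' : (0 : ℝ) < n := by exact_mod_cast hn
    exact (mul_pos (mul_pos (by positivity) (mul_pos (hWp _ hy1) (hWp _ hy2))) hyU).ne'
  rw [hF] at h1
  exact h1

end

end Pool.Agent.X134.SC
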