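import Pool.Agent.X134.SC.Lat3
import Pool.Agent.X134.SM.SpecL

/-!
# The covariances of the Wilson loops at weak coupling, with the rate of convergence
-/

open MeasureTheory Matrix Filter
open scoped Matrix.Norms.Frobenius ContDiff Topology
open Pool.Agent.H906R3.YM (LD)
open Pool.Agent.W793.YM (Ez lf gz EX)
open Pool.Agent.Results.MP_7f377f_mp.WilsonLoopsWeakCoupling

namespace Pool.Agent.X134.SC

open Pool.Agent.X134.SM

set_option linter.unusedSectionVars false
set_option linter.unusedVariables false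

noncomputable section

variable {D N n m : ℕ} {G : Subgroup (UU N)}
variable [MeasurableSpace G] [BorelSpace G]
  (μ : Measure G) [IsProbabilityMeasure μ] [μ.IsHaarMeasure]

/-- the covariance of the Wilson loop in terms of the normalised variables -/
lemma cov_alg (hG : IsClosed (G : Set (UU N))) (B : LieBasis G n) (γ : Loop (D + 1))
    (v : Fin (D + 1) → ℤ) {β : ℝ} {ν : Measure (LinkZ (D + 1) → G)} (hν : IsInfVol μ β ν) :
    ∫ V, loopVar n β γ V * loopVar n β γ (sh v V) ∂ν - (∫ V, loopVar n β γ V ∂ν) ^ 2 =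
      β ^ 2 * cvZ ν (wilson γ) v := by
  have := compG hG
  have := secG (G := G)
  have := right_inv μ
  have := inv_inv' μ
  have hp := hν.prob
  have hw := wilson_cont (G := G) γ
  have hw' : Continuous fun V : LinkZ (D + 1) → G => wilson γ (sh v V) := hw.comp (sh_cont v)
  have hi : ∀ f : (LinkZ (D + 1) → G) → ℝ, Continuous f → Integrable f ν := fun f hf =>
    hf.integrable_of_hasCompactSupport (HasCompactSupport.of_compactSpace _)
  obtain ⟨c, hc⟩ : ∃ c : ℝ, c = β * N - n / 2 * inter γ γ := ⟨_, rfl⟩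
  have e1 : ∀ V : LinkZ (D + 1) → G, loopVar n β γ V = c - β * wilson γ V := by
    intro V
    unfold loopVar
    rw [hc]
    ring
  have e2 : ∫ V, loopVar n β γ V ∂ν = c - β * ∫ V, wilson γ V ∂ν := by
    simp only [e1]
    rw [integral_sub (integrable_const _) ((hi _ hw).const_mul β), integral_const_mul]
    simp
  have e3 : ∫ V, loopVar n β γ V * loopVar n β γ (sh v V) ∂ν = c ^ 2 - c * β * ∫ V, wilson γ V ∂ν -
      c * β * ∫ V, wilson γ V ∂ν + β ^ 2 * ∫ V, wilson γ V * wilson γ (sh v V) ∂ν := by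
    have e4 := int_sh μ hw (infV_of μ B hν) v
    have e5 : ∀ V : LinkZ (D + 1) → G, loopVar n β γ V * loopVar n β γ (sh v V) =
        ((c ^ 2 - c * β * wilson γ V) - c * β * wilson γ (sh v V)) +
          β ^ 2 * (wilson γ V * wilson γ (sh v V)) := by
      intro V
      rw [e1, e1]
      ring
    simp only [e5]
    have i1 : Integrable (fun V : LinkZ (D + 1) → G => c ^ 2 - c * β * wilson γ V) ν :=
      hi _ (continuous_const.sub (continuous_const.mul hw))
    have i2 : Integrable (fun V : LinkZ (D + 1) → G => c * β * wilson γ (sh v V)) ν :=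
      hi _ (continuous_const.mul hw')
    have i3 : Integrable (fun V : LinkZ (D + 1) → G => β ^ 2 * (wilson γ V * wilson γ (sh v V))) ν :=
      hi _ (continuous_const.mul (hw.mul hw'))
    have i4 : Integrable (fun V : LinkZ (D + 1) → G => c ^ 2 - c * β * wilson γ V -
        c * β * wilson γ (sh v V)) ν := i1.sub i2
    have i5 : Integrable (fun V : LinkZ (D + 1) → G => c * β * wilson γ V) ν :=
      hi _ (continuous_const.mul hw)
    rw [integral_add i4 i3, integral_sub i1 i2, integral_sub (integrable_const _) i5,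
      integral_const_mul, integral_const_mul, integral_const_mul, e4]
    simp
  rw [e2, e3]
  unfold cvZ
  ring

/-- **The covariance of a Wilson loop, with the rate of convergence.** -/
theorem cov_quant (hD : 2 ≤ D) (hG : IsClosed (G : Set (UU N))) (B : LieBasis G n) (p : ℕ) :
    ∃ (K R₀ : ℕ) (C : ℝ), 0 ≤ C ∧ ∀ R : ℕ, R₀ ≤ R → ∀ β : ℝ, (R : ℝ) ^ K ≤ β →
      ∀ ν : Measure (LinkZ (D + 1) → G), IsInfVol μ β ν → ∀ γ : Loop (D + 1), γ.length ≤ R →
        ∀ v : Fin (D + 1) → ℤ, (∀ i, |v i| ≤ R) →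
          |β ^ 2 * cvZ ν (wilson γ) v - n / 2 * inter γ (shl v γ) ^ 2| ≤ C / R ^ p := by
  have := compG hG
  have := secG (G := G)
  obtain ⟨K₁, R₁, C₁, h1⟩ := result (d := D + 1) (by omega) G hG μ B 1 p
  obtain ⟨K₂, R₂, C₂, h2⟩ := result (d := D + 1) (by omega) G hG μ B 2 p
  refine ⟨K₁ + K₂, R₁ + R₂ + 1, |C₁| ^ 2 + |C₂|, by positivity, fun R hR β hβ ν hν γ hγ v hv => ?_⟩
  have hR1 : (1 : ℝ) ≤ R := by exact_mod_cast (by omega : 1 ≤ R)
  have hβ1 : (R : ℝ) ^ K₁ ≤ β := (pow_le_pow_right₀ hR1 (Nat.le_add_right _ _)).trans hβ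
  have hβ2 : (R : ℝ) ^ K₂ ≤ β := (pow_le_pow_right₀ hR1 (Nat.le_add_left _ _)).trans hβ
  have h3 := ((h2 R (by omega) β hβ2).1 (![γ, shl v γ]) (fun r => ?_) (fun r s i => ?_)).2 ν hν
  · have h4 := ((h1 R (by omega) β hβ1).1 (![γ]) (fun r => ?_) (fun r s i => ?_)).2 ν hν
    · rw [wicks_two] at h3
      rw [wicks_one] at h4
      simp only [Fin.prod_univ_two, Fin.prod_univ_one, Matrix.cons_val_zero, Matrix.cons_val_one,
        mul_zero, sub_zero, loopVar_sh β γ v _ (inter_shift _ _ _)] at h3 h4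
      rw [← cov_alg μ hG B γ v hν]
      have hRp : (1 : ℝ) ≤ (R : ℝ) ^ p := one_le_pow₀ hR1
      have h6 : (∫ V, loopVar n β γ V ∂ν) ^ 2 ≤ |C₁| ^ 2 / R ^ p := by
        rw [← sq_abs]
        have h7 : |∫ V, loopVar n β γ V ∂ν| ≤ |C₁| / R ^ p :=
          h4.trans (div_le_div_of_nonneg_right (le_abs_self _) (by positivity))
        calc |∫ V, loopVar n β γ V ∂ν| ^ 2 ≤ (|C₁| / R ^ p) ^ 2 :=
              pow_le_pow_left₀ (abs_nonneg _) h7 2
          _ = |C₁| ^ 2 / R ^ p / R ^ p := by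
              field_simp
          _ ≤ |C₁| ^ 2 / R ^ p := div_le_self (by positivity) hRp
      have h7 := sq_nonneg (∫ V, loopVar n β γ V ∂ν)
      have h8 : (1 / 2 : ℝ) ^ 2 * (2 * n * inter γ (shl v γ) ^ 2) =
          n / 2 * inter γ (shl v γ) ^ 2 := by
        ring
      rw [h8] at h3
      have h9 : C₂ / (R : ℝ) ^ p ≤ |C₂| / R ^ p :=
        div_le_div_of_nonneg_right (le_abs_self _) (by positivity)
      rw [add_div]
      rw [abs_le] at h3 ⊢
      constructor <;> linarith [h3.1, h3.2]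
    · have : r = 0 := Subsingleton.elim _ _
      rw [this]
      exact hγ
    · have : r = s := Subsingleton.elim _ _
      rw [this, sub_self, abs_zero]
      positivity
  · fin_cases r
    · exact hγ
    · exact hγ
  · have hR0 : (0 : ℤ) ≤ R := by positivity
    fin_cases r <;> fin_cases s
    · simpa using hR0
    · show |γ.base i - (γ.base + v) i| ≤ (R : ℤ)
      rw [Pi.add_apply, sub_add_cancel_left, abs_neg]
      exact hv i
    · show |(γ.base + v) i - γ.base i| ≤ (R : ℤ)
      rw [Pi.add_apply, add_sub_cancel_left]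
      exact hv i
    · simpa using hR0

/-! ### conservation of the current -/

omit [MeasurableSpace G] [BorelSpace G] in
lemma dest_sum {d : ℕ} (p : List (Fin d × Bool)) (x : Fin d → ℤ) (i : Fin d) :
    ((dest x p i : ℤ) : ℝ) - x i = ((links x p).map fun e =>
      if e.1.2 = i then (if e.2 then (1 : ℝ) else -1) else 0).sum := by
  induction p generalizing x with
  | nil => simp [dest, links]
  | cons s p ih =>
    obtain ⟨j, s⟩ := s
    cases s with
    | true =>
      simp only [dest, links, List.map_cons, List.sum_cons]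
      rw [← ih, Pi.add_apply]
      by_cases h : j = i
      · subst h
        rw [Pi.single_eq_same]
        push_cast
        simp only [if_true]
        ring
      · rw [Pi.single_eq_of_ne (Ne.symm h), if_neg h, add_zero, zero_add]
    | false =>
      simp only [dest, links, List.map_cons, List.sum_cons]
      rw [← ih, Pi.sub_apply]
      by_cases h : j = i
      · subst h
        rw [Pi.single_eq_same]
        push_cast
        simp only [if_true, Bool.false_eq_true, if_false]
        ring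
      · rw [Pi.single_eq_of_ne (Ne.symm h), if_neg h, sub_zero, zero_add]

lemma cl_loop (γ : Loop (D + 1)) : Cl (sgL γ) (dirL γ) := by
  intro i
  have h1 := dest_sum γ.steps γ.base i
  rw [γ.closed, sub_self, SM.sum_get] at h1
  exact h1.symm

/-- the rate of convergence of the moments of the spectral measures -/
theorem mom_quant (hD : 2 ≤ D) (hG : IsClosed (G : Set (UU N))) (B : LieBasis G n) :
    ∃ (K q₀ : ℕ), 1 ≤ q₀ ∧ ∀ q : ℕ, q₀ ≤ q → ∀ β : ℝ, (q : ℝ) ^ K ≤ β →
      ∀ ν : Measure (LinkZ (D + 1) → G), IsInfVol μ β ν → ∀ γ : Loop (D + 1), Flat γ →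
        γ.length ≤ q ^ 4 → ∀ ρ, IsSp ν (wilson γ) ρ →
          ∀ u : ℕ × (Fin D → ℤ), u.1 ≤ q ^ 4 → (∀ i, |u.2 i| ≤ ((q ^ 4 : ℕ) : ℤ)) →
            (q : ℝ) ^ (2 * D + 2) * ‖((β ^ 2 : ℝ) : ℂ) * mom ρ u -
              mom (tp (wgt (sgL γ) (posL γ) (dirL γ)) (n / 2)) u‖ ≤ 1 / (q : ℝ) ^ (3 * D + 1) := by
  obtain ⟨K, R₀, C, hC, h⟩ := cov_quant μ hD hG B (2 * D + 2)
  obtain ⟨q₁, hq₁⟩ := exists_nat_ge C
  refine ⟨4 * K, R₀ + q₁ + 1, by omega, fun q hq β hβ ν hν γ hγ hlen ρ hρ u hu1 hu2 => ?_⟩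
  have hq1 : 1 ≤ q := by omega
  have hq1' : (1 : ℝ) ≤ q := by exact_mod_cast hq1
  have hqq : q ≤ q ^ 4 := Nat.le_self_pow (by norm_num) q
  obtain ⟨t, x⟩ := u
  have h1 := h (q ^ 4) (by omega) β (by push_cast; rw [← pow_mul]; exact hβ) ν hν γ hlen (ptz x t)
    (fun i => ?_)
  · have h2 := rinf_mom (sgL γ) (posL γ) (dirL γ) hD (a := (n : ℝ) / 2) (by positivity) t x
    have h3 : mom (tp (wgt (sgL γ) (posL γ) (dirL γ)) (n / 2)) (t, x) =
        (((n : ℝ) / 2 * KF (sgL γ) (posL γ) (dirL γ) t x ^ 2 : ℝ) : ℂ) := h2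
    rw [h3, hρ.mom, ← inter_KF hD hγ t x, ← Complex.ofReal_mul, ← Complex.ofReal_sub,
      Complex.norm_real, Real.norm_eq_abs]
    have h4 := mul_le_mul_of_nonneg_left h1 (by positivity : (0 : ℝ) ≤ (q : ℝ) ^ (2 * D + 2))
    refine h4.trans ?_
    have hCq : C ≤ q := hq₁.trans (by exact_mod_cast (by omega : q₁ ≤ q))
    push_cast
    rw [← pow_mul, ← mul_div_assoc, div_le_div_iff₀ (by positivity) (by positivity), one_mul]
    calc (q : ℝ) ^ (2 * D + 2) * C * (q : ℝ) ^ (3 * D + 1)
        ≤ (q : ℝ) ^ (2 * D + 2) * q * (q : ℝ) ^ (3 * D + 1) := by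
          refine mul_le_mul_of_nonneg_right (mul_le_mul_of_nonneg_left hCq ?_) ?_ <;> positivity
      _ = (q : ℝ) ^ (5 * D + 4) := by
          rw [← pow_succ, ← pow_add]
          congr 1
          ring
      _ ≤ (q : ℝ) ^ (4 * (2 * D + 2)) := pow_le_pow_right₀ hq1' (by omega)
  · refine Fin.lastCases ?_ (fun j => ?_) i
    · rw [ptz_last]
      have : |(t : ℤ)| = t := abs_of_nonneg (by positivity)
      rw [this]
      exact_mod_cast hu1
    · rw [ptz_cast]
      exact_mod_cast hu2 j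

end

end Pool.Agent.X134.SC
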