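import Pool.Agent.X134.SC.Blow

/-!
# The weights of the fixed and of the enlarged loops
-/

open MeasureTheory Filter
open scoped Topology
open Pool.Agent.Results.MP_7f377f_mp.WilsonLoopsWeakCoupling

namespace Pool.Agent.X134.SC

open Pool.Agent.X134.SM

set_option linter.unusedSectionVars false
set_option linter.unusedVariables false

noncomputable section

variable {D : ℕ}

lemma Eq_norm (q : ℕ) (θ : ℝ) : ‖Eq' q θ‖ ≤ q := by
  unfold Eq'
  refine (norm_sum_le _ _).trans (le_of_eq ?_)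
  have : ∀ m ∈ Finset.range q, ‖Complex.exp (Complex.I * ((m * θ : ℝ) : ℂ))‖ = 1 := fun m _ => by
    rw [mul_comm, Complex.norm_exp_ofReal_mul_I]
  rw [Finset.sum_congr rfl this]
  simp

lemma Eq_lim (y : ℝ) : Tendsto (fun q : ℕ => ‖Eq' q (y / q)‖ ^ 2 / (q : ℝ) ^ 2) atTop
    (𝓝 (Real.sinc (y / 2) ^ 2)) := by
  rcases eq_or_ne y 0 with rfl | hy
  · rw [zero_div, Real.sinc_zero]
    refine tendsto_const_nhds.congr' ?_
    filter_upwards [eventually_gt_atTop 0] with q hq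
    have hq' : (0 : ℝ) < q := by exact_mod_cast hq
    have : Eq' q (0 / q) = q := by
      unfold Eq'
      simp
    rw [this, Complex.norm_natCast]
    field_simp
  · have h1 := (exp_lim y).norm
    have h2 : ‖Complex.I * (y : ℂ)‖ = |y| := by
      rw [norm_mul, Complex.norm_I, one_mul, Complex.norm_real, Real.norm_eq_abs]
    rw [h2] at h1
    have h3 : Tendsto (fun q : ℕ => ‖Complex.exp (Complex.I * (y : ℂ)) - 1‖ ^ 2 /
        ‖(q : ℂ) * (Complex.exp (Complex.I * ((y / q : ℝ) : ℂ)) - 1)‖ ^ 2) atTop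
        (𝓝 (‖Complex.exp (Complex.I * (y : ℂ)) - 1‖ ^ 2 / |y| ^ 2)) :=
      tendsto_const_nhds.div (h1.pow 2) (pow_ne_zero 2 (abs_ne_zero.2 hy))
    have h4 : ‖Complex.exp (Complex.I * (y : ℂ)) - 1‖ ^ 2 / |y| ^ 2 = Real.sinc (y / 2) ^ 2 := by
      rw [Complex.norm_exp_I_mul_ofReal_sub_one, Real.sinc_of_ne_zero (by simpa using hy),
        Real.norm_eq_abs, sq_abs, sq_abs]
      field_simp
    rw [h4] at h3
    refine h3.congr' ?_
    have hne : ∀ᶠ q : ℕ in atTop, ‖(q : ℂ) * (Complex.exp (Complex.I * ((y / q : ℝ) : ℂ)) - 1)‖ ≠ 0 := by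
      have := h1.eventually (lt_mem_nhds (abs_pos.2 hy))
      filter_upwards [this] with q hq
      exact hq.ne'
    filter_upwards [hne, eventually_gt_atTop 0] with q hq hq0
    have hq' : (0 : ℝ) < q := by exact_mod_cast hq0
    have h5 : Eq' q (y / q) * (Complex.exp (Complex.I * ((y / q : ℝ) : ℂ)) - 1) =
        Complex.exp (Complex.I * (y : ℂ)) - 1 := by
      have h6 : Eq' q (y / q) = ∑ m ∈ Finset.range q,
          Complex.exp (Complex.I * ((y / q : ℝ) : ℂ)) ^ m := by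
        unfold Eq'
        refine Finset.sum_congr rfl fun m _ => ?_
        rw [← Complex.exp_nat_mul]
        congr 1
        push_cast
        ring
      rw [h6, geom_sum_mul, ← Complex.exp_nat_mul]
      congr 2
      push_cast
      have : (q : ℂ) ≠ 0 := by exact_mod_cast hq'.ne'
      field_simp
    rw [← h5, norm_mul, norm_mul, Complex.norm_natCast]
    rw [norm_mul, Complex.norm_natCast] at hq
    have h7 : ‖Complex.exp (Complex.I * ((y / q : ℝ) : ℂ)) - 1‖ ≠ 0 := right_ne_zero_of_mul hq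
    field_simp

lemma wgt_gen {ι κ : Type*} [Fintype ι] [Fintype κ] [DecidableEq κ] {σ : ι → ℝ}
    {b : ι → Fin D → ℤ} {δ : ι → κ} {k : Fin D → ℝ} {M : ℝ} (hM : 0 ≤ M)
    (h : cur2 σ b δ k ≤ M * l1 k ^ 2) (hk : ∀ i, |k i| ≤ Real.pi) :
    wgt σ b δ k ≤ M / (2 * c0 D) * l1 k := by
  have h2 := om_lb hk
  have h3 : om 1 k ≤ Real.sinh (om 1 k) := Real.self_le_sinh_iff.2 (om_nonneg one_pos le_rfl k)
  have hc := c0_pos (D := D)
  rcases (l1_nonneg k).eq_or_lt with h0 | h0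
  · rw [← h0, zero_pow two_ne_zero, mul_zero] at h
    have h4 : cur2 σ b δ k = 0 := le_antisymm h (cur2_nonneg σ b δ k)
    unfold wgt
    rw [h4, zero_div, ← h0, mul_zero]
  · unfold wgt
    have h4 : 0 < c0 D * l1 k := by positivity
    rw [div_le_iff₀ (by linarith)]
    have h5 : M / (2 * c0 D) * l1 k * (2 * (c0 D * l1 k)) ≤
        M / (2 * c0 D) * l1 k * (2 * Real.sinh (om 1 k)) :=
      mul_le_mul_of_nonneg_left (by linarith) (by positivity)
    refine h.trans (le_trans (le_of_eq ?_) h5)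
    field_simp

/-- the weight of the enlarged loops in the limit -/
def WM (γ : Loop (D + 1)) (y : Fin D → ℝ) : ℝ :=
  (∑ i, ‖cur (sgL γ) (posL γ) (dirL γ) y i‖ ^ 2 * Real.sinc (kx y i / 2) ^ 2) / (2 * nrm y)

lemma cur2_blow (q : ℕ) (γ : Loop (D + 1)) (k : Fin D → ℝ) :
    cur2 (sgL (blow q γ)) (posL (blow q γ)) (dirL (blow q γ)) k =
      ∑ i, ‖cur (sgL γ) (posL γ) (dirL γ) (fun i => (q : ℝ) * k i) i‖ ^ 2 * ‖Eq' q (kx k i)‖ ^ 2 := by
  unfold cur2
  refine Finset.sum_congr rfl fun i _ => ?_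
  rw [cur_blow, norm_mul, mul_pow]

lemma l1_mul (q : ℕ) (k : Fin D → ℝ) : l1 (fun i => (q : ℝ) * k i) = q * l1 k := by
  unfold l1
  rw [Finset.mul_sum]
  refine Finset.sum_congr rfl fun i _ => ?_
  rw [abs_mul, abs_of_nonneg (Nat.cast_nonneg q)]

lemma kx_div (y : Fin D → ℝ) (q : ℝ) (i : Fin (D + 1)) : kx (fun j => y j / q) i = kx y i / q := by
  unfold kx
  refine Fin.lastCases ?_ (fun j => ?_) i
  · rw [Fin.lastCases_last, Fin.lastCases_last, zero_div]
  · rw [Fin.lastCases_castSucc, Fin.lastCases_castSucc]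

/-- the weights of the enlarged loops -/
lemma wt_blow (γ : Loop (D + 1)) : Wt (fun q => wgt (sgL (blow q γ)) (posL (blow q γ))
    (dirL (blow q γ))) (fun q => (q : ℝ) ^ 4) (c3 (Fin (D + 1)) (sgL γ) (posL γ)) (WM γ) := by
  refine ⟨fun q => wgt_meas _ _ _, fun q k => wgt_nonneg _ _ _ _, fun q hq => ?_, c3_nonneg _ _ _,
    fun q hq k hk => ?_, fun y hy => ?_⟩
  · have hq' : (0 : ℝ) < q := by exact_mod_cast hq
    positivity
  · have hq' : (0 : ℝ) < q := by exact_mod_cast hq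
    have h1 : cur2 (sgL (blow q γ)) (posL (blow q γ)) (dirL (blow q γ)) k ≤
        (Fintype.card (Fin (D + 1)) * c1 (sgL γ) (posL γ) ^ 2 * (q : ℝ) ^ 4) * l1 k ^ 2 := by
      rw [cur2_blow]
      have h2 : ∀ i : Fin (D + 1), ‖cur (sgL γ) (posL γ) (dirL γ) (fun i => (q : ℝ) * k i) i‖ ^ 2 *
          ‖Eq' q (kx k i)‖ ^ 2 ≤ (c1 (sgL γ) (posL γ) * (q * l1 k)) ^ 2 * (q : ℝ) ^ 2 := by
        intro i
        have h3 := cur_le (b := posL γ) (cl_loop γ) (fun i => (q : ℝ) * k i) i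
        rw [l1_mul] at h3
        exact mul_le_mul (pow_le_pow_left₀ (norm_nonneg _) h3 2)
          (pow_le_pow_left₀ (norm_nonneg _) (Eq_norm q _) 2) (by positivity) (by positivity)
      refine (Finset.sum_le_sum fun i _ => h2 i).trans (le_of_eq ?_)
      rw [Finset.sum_const, Finset.card_univ, nsmul_eq_mul]
      ring
    refine (wgt_gen (by positivity) h1 (cube_abs hk)).trans (le_of_eq ?_)
    unfold c3
    ring
  · have h1 : ∀ i : Fin (D + 1), Tendsto (fun q : ℕ => ‖cur (sgL γ) (posL γ) (dirL γ) y i‖ ^ 2 *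
        (‖Eq' q (kx y i / q)‖ ^ 2 / (q : ℝ) ^ 2)) atTop (𝓝 (‖cur (sgL γ) (posL γ) (dirL γ) y i‖ ^ 2 *
          Real.sinc (kx y i / 2) ^ 2)) := fun i => (Eq_lim (kx y i)).const_mul _
    have h2 := (tendsto_finsetSum Finset.univ fun i _ => h1 i).div ((sinh_scal y).const_mul 2)
      (mul_ne_zero two_ne_zero hy)
    refine h2.congr' ?_
    filter_upwards [eventually_gt_atTop 0] with q hq
    have hq' : (0 : ℝ) < q := by exact_mod_cast hq
    show (∑ i, ‖cur (sgL γ) (posL γ) (dirL γ) y i‖ ^ 2 * (‖Eq' q (kx y i / q)‖ ^ 2 / (q : ℝ) ^ 2)) /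
      (2 * (q * Real.sinh (om 1 fun i => y i / q))) = (q : ℝ) * wgt (sgL (blow q γ))
        (posL (blow q γ)) (dirL (blow q γ)) (fun i => y i / q) / (q : ℝ) ^ 4
    unfold wgt
    rw [cur2_blow]
    have h3 : (fun i => (q : ℝ) * (y i / q)) = y := by
      funext i
      field_simp
    rw [h3]
    simp only [kx_div]
    have h4 : ∑ i, ‖cur (sgL γ) (posL γ) (dirL γ) y i‖ ^ 2 *
        (‖Eq' q (kx y i / q)‖ ^ 2 / (q : ℝ) ^ 2) = (∑ i, ‖cur (sgL γ) (posL γ) (dirL γ) y i‖ ^ 2 *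
          ‖Eq' q (kx y i / q)‖ ^ 2) / (q : ℝ) ^ 2 := by
      rw [Finset.sum_div]
      exact Finset.sum_congr rfl fun i _ => by ring
    rw [h4]
    rcases eq_or_ne (Real.sinh (om 1 fun i => y i / (q : ℝ))) 0 with h0 | h0
    · rw [h0]
      simp
    · field_simp

/-- the weights of a fixed loop -/
lemma wt_fix (γ : Loop (D + 1)) : Wt (fun _ => wgt (sgL γ) (posL γ) (dirL γ)) (fun _ => 1)
    (c3 (Fin (D + 1)) (sgL γ) (posL γ)) (WW (sgL γ) (posL γ) (dirL γ)) := by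
  refine ⟨fun q => wgt_meas _ _ _, fun q k => wgt_nonneg _ _ _ _, fun q hq => one_pos, c3_nonneg _ _ _,
    fun q hq k hk => ?_, fun y hy => ?_⟩
  · rw [one_mul]
    exact wgt_le (cl_loop γ) (cube_abs hk)
  · simp only [div_one]
    exact wgt_scal (cl_loop γ) hy

end

end Pool.Agent.X134.SC
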